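import Pool.Agent.Q117.MG.Prm

/-!
Project MG (helper117), job GMQ (written by helper166): sums of two almost primes in residue classes to
a growing modulus.
-/

set_option autoImplicit false

namespace Pool.Agent.Q117.MG.GMQa

open Finset Filter
open Pool.Agent.Q117.LF (Ro oF)
open Pool.Agent.Q117.AP (AdQ VQ)
open Pool.Agent.Q117.MG (VE)

theorem mem_VE {N q : ℕ} {E E' : Finset ℤ} {w : ℤ} :
    w ∈ VE N q E E' ↔ (∃ e ∈ E, w = q * e) ∨ ∃ e ∈ E', w = -(N : ℤ) - q * e := by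
  unfold VE
  rw [mem_union, mem_image, mem_image]
  constructor
  · rintro (⟨e, he, rfl⟩ | ⟨e, he, rfl⟩)
    · exact Or.inl ⟨e, he, rfl⟩
    · exact Or.inr ⟨e, he, rfl⟩
  · rintro (⟨e, he, rfl⟩ | ⟨e, he, rfl⟩)
    · exact Or.inl ⟨e, he, rfl⟩
    · exact Or.inr ⟨e, he, rfl⟩

theorem ro_neg {z : ℝ} {m : ℤ} (h : Ro z m) : Ro z (-m) := by
  intro p hp hd
  exact h p hp ((dvd_neg).1 hd)

theorem no_N {x : ℝ} {N q : ℕ} {s e : ℤ} (hq : 1 ≤ q) (hN : x / 2 < N)
    (hs : |(s : ℝ)| ≤ x / (8 * q)) (he : |(e : ℝ)| ≤ x / (4 * q)) (h : (N : ℤ) = -(q * (s + e))) :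
    False := by
  have hq0 : (0 : ℝ) < q := by exact_mod_cast hq
  have h1 : (N : ℝ) = -(q * (s + e)) := by exact_mod_cast h
  have h2 : (q : ℝ) * |(s : ℝ)| ≤ x / 8 := by
    calc (q : ℝ) * |(s : ℝ)| ≤ q * (x / (8 * q)) := by gcongr
      _ = x / 8 := by field_simp
  have h3 : (q : ℝ) * |(e : ℝ)| ≤ x / 4 := by
    calc (q : ℝ) * |(e : ℝ)| ≤ q * (x / (4 * q)) := by gcongr
      _ = x / 4 := by field_simp
  have h4 : -(s : ℝ) ≤ |(s : ℝ)| := neg_le_abs _
  have h5 : -(e : ℝ) ≤ |(e : ℝ)| := neg_le_abs _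
  have h6 : (N : ℝ) ≤ q * |(s : ℝ)| + q * |(e : ℝ)| := by
    rw [h1]
    nlinarith
  have hx : 0 ≤ x := by
    have := (mul_nonneg hq0.le (abs_nonneg (s : ℝ))).trans h2
    linarith
  linarith

theorem inE {x : ℝ} {N q : ℕ} {E E' : Finset ℤ} {s : ℤ} (hq : 1 ≤ q) (hN : x / 2 < N)
    (hE : ∀ e ∈ E ∪ E', |(e : ℝ)| ≤ x / (4 * q)) (hs : |(s : ℝ)| ≤ x / (8 * q))
    (h : (q : ℤ) * s ∈ VE N q E E') : s ∈ E := by
  have hq0 : (q : ℤ) ≠ 0 := by exact_mod_cast (show q ≠ 0 by omega)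
  rcases mem_VE.1 h with ⟨e, he, h1⟩ | ⟨e, he, h1⟩
  · have h2 : s = e := mul_left_cancel₀ hq0 h1
    rw [h2]
    exact he
  · exact (no_N hq hN hs (hE e (mem_union_right _ he)) (by linarith)).elim

theorem inE' {x : ℝ} {N q : ℕ} {E E' : Finset ℤ} {s : ℤ} (hq : 1 ≤ q) (hN : x / 2 < N)
    (hE : ∀ e ∈ E ∪ E', |(e : ℝ)| ≤ x / (4 * q)) (hs : |(s : ℝ)| ≤ x / (8 * q))
    (h : -(N : ℤ) - q * s ∈ VE N q E E') : s ∈ E' := by
  have hq0 : (q : ℤ) ≠ 0 := by exact_mod_cast (show q ≠ 0 by omega)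
  rcases mem_VE.1 h with ⟨e, he, h1⟩ | ⟨e, he, h1⟩
  · exact (no_N hq hN hs (hE e (mem_union_left _ he)) (by linarith)).elim
  · have h2 : s = e := mul_left_cancel₀ hq0 (by linarith)
    rw [h2]
    exact he

end Pool.Agent.Q117.MG.GMQa

namespace Pool.Agent.Q117.MG

open Finset Filter PRMa GMQa
open Pool.Agent.Q117.LF (Ro oF)
open Pool.Agent.Q117.AP (AdQ VQ)
open Pool.Agent.Q117.AP.PATa
open Pool.Agent.Q166.MG

theorem gmq : St_GMQ := by
  intro hN k R κ hR hκ hcond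
  classical
  have hR' : (1 : ℝ) ≤ R := by exact_mod_cast hR
  have hA : (0 : ℝ) < 3 * (8 * R - 1) := by linarith
  obtain ⟨h, hlt, hge, hh25, hg0p⟩ := choose_h hA hcond
  have hh1 : h ≤ 1 := by linarith
  obtain ⟨t, ht, θ, hθ, hT⟩ := hN (2 * k) 3 R h hR hh1 hh25
  obtain ⟨c', hc', ν', hν', X0, hX⟩ := hT t le_rfl
  obtain ⟨C, hC, hQ⟩ := Q1_le
  obtain ⟨c₂, hc₂, hlow⟩ := VQ_low 2
  obtain ⟨ν, hνdef⟩ : ∃ ν, ν = min (min (ν' / (2 * C)) ν') 1 := ⟨_, rfl⟩
  have hνp : 0 < ν := by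
    rw [hνdef]
    exact lt_min (lt_min (by positivity) hν') one_pos
  have hν1 : ν ≤ 1 := by rw [hνdef]; exact min_le_right _ _
  have hνC : ν ≤ ν' / (2 * C) := by rw [hνdef]; exact (min_le_left _ _).trans (min_le_left _ _)
  have hνν : ν ≤ ν' := by rw [hνdef]; exact (min_le_left _ _).trans (min_le_right _ _)
  have htR : (0 : ℝ) < t := by exact_mod_cast ht
  obtain ⟨x1, hx1⟩ := ev_pow (show 0 < 1 - κ - h by linarith) 4
  obtain ⟨x2, hx2⟩ := ev_pow hg0p 12
  obtain ⟨x4, hx4⟩ := ev_logp 3 hg0p (8 * (1 / c₂))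
  obtain ⟨x5, hx5⟩ := ev_logp 1 hg0p 8
  refine ⟨t, ht, c' / 4, by positivity, ν, hνp,
    max 4 (max X0 (max x1 (max x2 (max x4 x5)))), ?_⟩
  intro x hx q hq hqx N hNx hNx' a hcop hcop' E E' hEk hEk' hEb h0 h0' hAd
  simp only [max_le_iff] at hx
  obtain ⟨hx4', hxX, hxx1, hxx2, hxx4, hxx5⟩ := hx
  have hx0 : (0 : ℝ) < x := by linarith
  have hxone : (1 : ℝ) ≤ x := by linarith
  have e1 : 4 ≤ x ^ (1 - κ - h) := hx1 x hxx1
  have e2 : 12 ≤ x ^ (1 - κ) := hx2 x hxx2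
  have e4 : 8 * (1 / c₂) * Real.log x ^ 3 ≤ x ^ (1 - κ) := hx4 x hxx4
  have e5 : 8 * Real.log x ≤ x ^ (1 - κ) := by
    have := hx5 x hxx5
    rwa [pow_one] at this
  have hlog0 : 0 < Real.log x := Real.log_pos (by linarith)
  have hqr : (1 : ℝ) ≤ q := by exact_mod_cast hq
  have hq0 : (0 : ℝ) < q := by linarith
  have hqz : (q : ℤ) ≠ 0 := by exact_mod_cast (show q ≠ 0 by omega)
  have hxκ1 : x ^ κ ≤ x := by
    calc x ^ κ ≤ x ^ (1 : ℝ) := Real.rpow_le_rpow_of_exponent_le hxone (by linarith)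
      _ = x := Real.rpow_one x
  have hqX : (q : ℝ) ≤ x := hqx.trans hxκ1
  have htp := tot_pos hq
  have ht1 := tot_le_one hq
  have hxκp : (0 : ℝ) < x ^ κ := Real.rpow_pos_of_pos hx0 _
  have hsplit : x = x ^ κ * x ^ (1 - κ) := by
    rw [← Real.rpow_add hx0, show κ + (1 - κ) = 1 by ring, Real.rpow_one]
  have hxq : x ^ (1 - κ) ≤ x / q := by
    rw [le_div_iff₀ hq0]
    calc x ^ (1 - κ) * q ≤ x ^ (1 - κ) * x ^ κ := by gcongr
      _ = x := by rw [mul_comm]; exact hsplit.symm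
  -- the window
  obtain ⟨a', ha'⟩ : ∃ a', a' = a % q := ⟨_, rfl⟩
  have ha'q : a' < q := by rw [ha']; exact Nat.mod_lt _ hq
  obtain ⟨H, hH⟩ : ∃ H, H = N / q - 2 := ⟨_, rfl⟩
  have hNq : x / (2 * q) - 1 ≤ ((N / q : ℕ) : ℝ) := by
    have h1 : (N : ℝ) < q * (N / q : ℕ) + q := by
      have h2 := Nat.lt_div_mul_add (a := N) hq
      have h3 : N < q * (N / q) + q := by
        calc N < N / q * q + q := h2
          _ = _ := by ring
      exact_mod_cast h3
    have h2 : x / (2 * q) < ((N / q : ℕ) : ℝ) + 1 := by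
      rw [div_lt_iff₀ (by positivity)]
      nlinarith
    linarith
  have hx4q : x / (2 * q) = x / (4 * q) + x / (4 * q) := by
    field_simp
    norm_num
  have hx4q' : x / (4 * q) = x / q / 4 := by
    rw [div_div, mul_comm (q : ℝ)]
  have hx8q' : x / (8 * q) = x / q / 8 := by
    rw [div_div, mul_comm (q : ℝ)]
  have hHge : x / (4 * q) ≤ H := by
    have h2 : ((N / q : ℕ) : ℝ) ≤ H + 2 := by
      have : N / q ≤ H + 2 := by omega
      exact_mod_cast this
    have h3 : 3 ≤ x / (4 * q) := by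
      rw [hx4q']
      linarith
    linarith
  have hHle : (H : ℝ) ≤ x := by
    have : H ≤ N := by
      rw [hH]
      exact (Nat.sub_le _ _).trans (Nat.div_le_self _ _)
    calc (H : ℝ) ≤ N := by exact_mod_cast this
      _ ≤ _ := hNx'
  have hXh : x ^ h ≤ H := by
    refine le_trans ?_ hHge
    rw [hx4q', le_div_iff₀ (by norm_num : (0 : ℝ) < 4)]
    refine le_trans ?_ hxq
    have h1 : x ^ (1 - κ) = x ^ h * x ^ (1 - κ - h) := by
      rw [← Real.rpow_add hx0]
      congr 1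
      ring
    rw [h1]
    gcongr
  have hwin : ∀ n ∈ Ioc 0 (0 + H), 0 < q * n + a' ∧ q * n + a' < N := by
    intro n hn
    rw [mem_Ioc] at hn
    constructor
    · have : 0 < q * n := Nat.mul_pos hq hn.1
      omega
    · have h4 : 1 ≤ N / q := by omega
      have h1 : q * (n + 1) ≤ q * (N / q - 1) := Nat.mul_le_mul_left _ (by omega)
      have h2 : q * (N / q - 1) + q = q * (N / q) := by
        conv_rhs => rw [show N / q = (N / q - 1) + 1 by omega]
        ring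
      have h3 : q * (N / q) ≤ N := Nat.mul_div_le _ _
      rw [mul_add, mul_one] at h1
      omega
  have hflx : q ≤ ⌊x⌋₊ := Nat.le_floor hqX
  have hfl2 : 2 ≤ ⌊x⌋₊ := Nat.le_floor (by push_cast; linarith)
  -- the set `V`
  obtain ⟨V, hV⟩ : ∃ V : Finset ℤ, V = (VE N q E E').image (fun f => f + (a' : ℤ)) := ⟨_, rfl⟩
  have hVm : ∀ w : ℤ, w + a' ∈ V ↔ w ∈ VE N q E E' := by
    intro w
    rw [hV, mem_image]
    constructor
    · rintro ⟨f, hf, h1⟩
      have : f = w := by linarith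
      rw [← this]
      exact hf
    · intro hw
      exact ⟨w, hw, rfl⟩
  have hVm' : ∀ v ∈ V, ∃ w ∈ VE N q E E', v = w + a' := by
    intro v hv
    rw [hV] at hv
    obtain ⟨f, hf, rfl⟩ := mem_image.1 hv
    exact ⟨f, hf, rfl⟩
  have hVEk : (VE N q E E').card ≤ 2 * k := by
    unfold VE
    refine (card_union_le _ _).trans ?_
    have h1 := (card_image_le (s := E) (f := fun e : ℤ => (q : ℤ) * e)).trans hEk
    have h2 := (card_image_le (s := E') (f := fun e : ℤ => -(N : ℤ) - q * e)).trans hEk'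
    omega
  have hVk : V.card ≤ 2 * k := by rw [hV]; exact card_image_le.trans hVEk
  have hAV : AdQ q V := by rw [hV]; exact AdQ_shift hAd _
  have hVQ : VQ ⌊x⌋₊ q V = VQ ⌊x⌋₊ q (VE N q E E') := by rw [hV]; exact VQ_shift _ _ _ _
  have h0VE : (0 : ℤ) ∈ VE N q E E' := mem_VE.2 (Or.inl ⟨0, h0, by ring⟩)
  have hNVE : -(N : ℤ) ∈ VE N q E E' := mem_VE.2 (Or.inr ⟨0, h0', by ring⟩)
  have hv₀ : (a' : ℤ) ∈ V := by
    have := (hVm 0).2 h0VE
    rwa [zero_add] at this
  have hv₁ : (a' : ℤ) - N ∈ V := by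
    have := (hVm _).2 hNVE
    rwa [neg_add_eq_sub] at this
  have hqe : ∀ e ∈ E ∪ E', (q : ℝ) * |(e : ℝ)| ≤ x / 4 := by
    intro e he
    calc (q : ℝ) * |(e : ℝ)| ≤ q * (x / (4 * q)) := by
          gcongr
          exact hEb e he
      _ = x / 4 := by field_simp
  have hVx : ∀ v ∈ V, |(v : ℝ)| ≤ x ^ 2 := by
    intro v hv
    obtain ⟨w, hw, rfl⟩ := hVm' v hv
    have h2 : (a' : ℝ) ≤ x := le_trans (by exact_mod_cast ha'q.le) hqX
    have h3 : |((w + (a' : ℤ) : ℤ) : ℝ)| ≤ |(w : ℝ)| + a' := by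
      push_cast
      refine (abs_add_le _ _).trans ?_
      rw [abs_of_nonneg (show (0 : ℝ) ≤ (a' : ℝ) by positivity)]
    have h4 : |(w : ℝ)| ≤ 2 * x := by
      rcases mem_VE.1 hw with ⟨e, he, rfl⟩ | ⟨e, he, rfl⟩
      · have := hqe e (mem_union_left _ he)
        push_cast
        rw [abs_mul, abs_of_pos hq0]
        linarith
      · have h5 := hqe e (mem_union_right _ he)
        push_cast
        have h6 : |-(N : ℝ) - q * e| ≤ |-(N : ℝ)| + |(q : ℝ) * e| := by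
          rw [sub_eq_add_neg]
          refine (abs_add_le _ _).trans ?_
          rw [abs_neg ((q : ℝ) * e)]
        rw [abs_neg, Nat.abs_cast, abs_mul, abs_of_pos hq0] at h6
        linarith
    nlinarith
  have hdm : ∀ p : ℕ, p ∣ q → (p : ℤ) ∣ (a : ℤ) - a' := by
    intro p hpq
    have h3 : a' ≡ a [MOD p] := by
      rw [ha']
      exact (Nat.mod_modEq a q).of_dvd hpq
    exact (Nat.modEq_iff_dvd.1 h3)
  have hCu : Cu q V := by
    intro p hp hpq v hv hpv
    obtain ⟨w, hw, rfl⟩ := hVm' v hv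
    have hpqz : (p : ℤ) ∣ q := by exact_mod_cast hpq
    rcases mem_VE.1 hw with ⟨e, he, rfl⟩ | ⟨e, he, rfl⟩
    · have h1 : (p : ℤ) ∣ a := by
        have h2 := dvd_sub (dvd_add hpv (hdm p hpq)) (hpqz.mul_right e)
        rw [show (q : ℤ) * e + a' + (a - a') - q * e = a by ring] at h2
        exact h2
      have h5 : p ∣ 1 := by
        rw [← hcop]
        exact Nat.dvd_gcd (by exact_mod_cast h1) hpq
      exact hp.one_lt.ne' (Nat.dvd_one.1 h5)
    · have h1 : (p : ℤ) ∣ N - a := by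
        have h2 := dvd_add (dvd_add hpv (hdm p hpq)) (hpqz.mul_right e)
        rw [show -(N : ℤ) - q * e + a' + (a - a') + q * e = -(N - a) by ring] at h2
        exact (dvd_neg).1 h2
      have h2 : IsUnit (p : ℤ) := hcop'.isUnit_of_dvd' h1 hpqz
      have h3 := Int.isUnit_iff_natAbs_eq.1 h2
      rw [Int.natAbs_natCast] at h3
      exact hp.one_lt.ne' h3
  -- the family
  have hk : 1 ≤ k := (card_pos.2 ⟨_, h0⟩).trans_le hEk
  obtain ⟨L, hL⟩ : ∃ L, L = ν * ((Nat.totient q : ℝ) / q * Real.log x) := ⟨_, rfl⟩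
  obtain ⟨L', hL'⟩ : ∃ L', L' = ν / VQ ⌊x⌋₊ q {0, (N : ℤ)} := ⟨_, rfl⟩
  have hlogf : 0 < Real.log (⌊x⌋₊ : ℕ) := Real.log_pos (by exact_mod_cast (show 1 < ⌊x⌋₊ by omega))
  have hlogle : Real.log (⌊x⌋₊ : ℕ) ≤ Real.log x :=
    Real.log_le_log (by exact_mod_cast (show 0 < ⌊x⌋₊ by omega)) (Nat.floor_le hx0.le)
  have hAdF : AdQ q ({(a' : ℤ), (a' : ℤ) - N} : Finset ℤ) := by
    refine AdQ_mono hAV ?_
    intro v hv
    rw [mem_insert, mem_singleton] at hv
    rcases hv with rfl | rfl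
    · exact hv₀
    · exact hv₁
  have himg : ({(a' : ℤ), (a' : ℤ) - N} : Finset ℤ) =
      ({0, (N : ℤ)} : Finset ℤ).image (fun f => f + ((a' : ℤ) - N)) := by
    rw [image_insert, image_singleton, zero_add, add_sub_cancel, pair_comm]
  have himg' : ({0, (N : ℤ)} : Finset ℤ) =
      ({(a' : ℤ), (a' : ℤ) - N} : Finset ℤ).image (fun f => f + ((N : ℤ) - a')) := by
    rw [image_insert, image_singleton, pair_comm]
    rw [show (a' : ℤ) + (N - a') = N by ring, show (a' : ℤ) - N + (N - a') = 0 by ring]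
  have hAd0 : AdQ q ({0, (N : ℤ)} : Finset ℤ) := by
    rw [himg']
    exact AdQ_shift hAdF _
  have hVQF : VQ ⌊x⌋₊ q {(a' : ℤ), (a' : ℤ) - N} = VQ ⌊x⌋₊ q {0, (N : ℤ)} := by
    rw [himg]
    exact VQ_shift _ _ _ _
  have hVlow := hlow ⌊x⌋₊ q hfl2 {0, (N : ℤ)} card_le_two hAd0
  have hVpos : 0 < VQ ⌊x⌋₊ q {0, (N : ℤ)} := lt_of_lt_of_le (by positivity) hVlow
  have hL0 : 0 ≤ L := by rw [hL]; positivity
  have hL'0 : 0 ≤ L' := by rw [hL']; positivity
  have hLx8 : L ≤ x / (8 * q) := by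
    have h1 : (Nat.totient q : ℝ) / q * Real.log x ≤ 1 * Real.log x := by gcongr
    calc L = ν * ((Nat.totient q : ℝ) / q * Real.log x) := hL
      _ ≤ 1 * (1 * Real.log x) := by gcongr
      _ ≤ x / (8 * q) := by
          rw [hx8q']
          linarith
  have hL'x8 : L' ≤ x / (8 * q) := by
    have hp8 : 0 < x / (8 * q) := by positivity
    rw [hL', div_le_iff₀ hVpos]
    have h1 : 1 / c₂ * Real.log (⌊x⌋₊ : ℕ) ^ 3 ≤ x / (8 * q) := by
      calc 1 / c₂ * Real.log (⌊x⌋₊ : ℕ) ^ 3 ≤ 1 / c₂ * Real.log x ^ 3 := by gcongr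
        _ ≤ x / (8 * q) := by
            rw [hx8q']
            linarith
    have h2 : Real.log (⌊x⌋₊ : ℕ) ^ 3 ≤ x / (8 * q) * c₂ := by
      rw [one_div, inv_mul_eq_div, div_le_iff₀ hc₂] at h1
      exact h1
    have h3 : (1 : ℝ) ≤ x / (8 * q) * (c₂ / Real.log (⌊x⌋₊ : ℕ) ^ (2 + 1)) := by
      rw [← mul_div_assoc, one_le_div (by positivity)]
      exact h2
    calc ν ≤ 1 := hν1
      _ ≤ x / (8 * q) * (c₂ / Real.log (⌊x⌋₊ : ℕ) ^ (2 + 1)) := h3
      _ ≤ x / (8 * q) * VQ ⌊x⌋₊ q {0, (N : ℤ)} := by gcongr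
  have hx8 : x / (8 * q) ≤ x := by
    rw [div_le_iff₀ (by positivity)]
    nlinarith
  have hLV : L * Q1 ⌊x⌋₊ q ≤ ν' := by
    rw [hL]
    exact LV_le hC hQ hνp hνC hx4' hq hqX
  have hL'V : L' * VQ ⌊x⌋₊ q {(a' : ℤ), (a' : ℤ) - N} ≤ ν' := by
    rw [hVQF, hL', div_mul_cancel₀ _ hVpos.ne']
    exact hνν
  have key := hX x hxX q q hq hq hqX hqX (fun p _ h => h) V hVk hVx hCu hAV _ hv₀
    ![{(a' : ℤ)}, {(a' : ℤ) - N}, {(a' : ℤ), (a' : ℤ) - N}] ?_ ![L, L, L'] ?_
    (x ^ (1 / (t : ℝ))) le_rfl le_rfl 0 H hXh hHle ?_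
  · rw [hVQ] at key
    have hgm : ∀ (e : ℤ) (n : ℕ), gm q (e + a') n = ((q * n + a' : ℕ) : ℤ) + e := by
      intro e n
      unfold gm
      push_cast
      ring
    have hcard : (PtsN q q V (a' : ℤ) R (x ^ (h / 6)) (x ^ (1 / (t : ℝ))) ![L, L, L']
        ![{(a' : ℤ)}, {(a' : ℤ) - N}, {(a' : ℤ), (a' : ℤ) - N}] 0 H).card ≤
        (Gmq N q a E E' R (x ^ ((1 - κ) / 7)) (x ^ (1 / (t : ℝ))) L L').card := by
      refine card_le_card_of_injOn (fun n => q * n + a') ?_ ?_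
      · intro n hn
        unfold PtsN at hn
        unfold Gmq
        rw [mem_coe, mem_filter] at hn
        rw [mem_coe, mem_filter, mem_Ioo]
        obtain ⟨hn0, hn3, hn4, hn5, hn6⟩ := hn
        obtain ⟨w1, w2⟩ := hwin n hn0
        have hg0 : gm q (a' : ℤ) n = ((q * n + a' : ℕ) : ℤ) := by
          have := hgm 0 n
          rwa [zero_add, add_zero] at this
        have c1 : ∀ s : ℤ, |(s : ℝ)| ≤ L → Ro (x ^ (1 / (t : ℝ))) (((q * n + a' : ℕ) : ℤ) + q * s) →
            (q : ℤ) * s + a' ∈ V := by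
          intro s hs hRo
          have h1 := hn6 0 s hs (by
            intro f hf
            have hf' : f = (a' : ℤ) := mem_singleton.1 hf
            rw [hf', add_comm, hgm]
            exact hRo) (a' : ℤ) (mem_singleton_self (a' : ℤ))
          rw [add_comm]
          exact h1
        have c2 : ∀ s : ℤ, |(s : ℝ)| ≤ L → Ro (x ^ (1 / (t : ℝ))) ((N : ℤ) - ((q * n + a' : ℕ) : ℤ) + q * s) →
            (-(N : ℤ) - q * s) + a' ∈ V := by
          intro s hs hRo
          have h1 := hn6 1 (-s) (by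
            push_cast
            rw [abs_neg]
            exact hs) (by
            intro f hf
            have hf' : f = (a' : ℤ) - N := mem_singleton.1 hf
            rw [hf', show (a' : ℤ) - N + q * -s = (-(N : ℤ) - q * s) + a' by ring, hgm]
            have h2 := ro_neg hRo
            rwa [show -((N : ℤ) - ((q * n + a' : ℕ) : ℤ) + q * s) =
              ((q * n + a' : ℕ) : ℤ) + (-(N : ℤ) - q * s) by ring] at h2)
              ((a' : ℤ) - N) (mem_singleton_self ((a' : ℤ) - N))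
          rwa [show (a' : ℤ) - N + q * -s = (-(N : ℤ) - q * s) + a' by ring] at h1
        have c3 : ∀ s : ℤ, |(s : ℝ)| ≤ L' → Ro (x ^ (1 / (t : ℝ))) (((q * n + a' : ℕ) : ℤ) + q * s) →
            Ro (x ^ (1 / (t : ℝ))) ((N : ℤ) - ((q * n + a' : ℕ) : ℤ) - q * s) →
            (q : ℤ) * s + a' ∈ V ∧ (-(N : ℤ) - q * (-s)) + a' ∈ V := by
          intro s hs hRo hRo'
          have h1 := hn6 2 s hs (by
            intro f hf
            have hf' : f = (a' : ℤ) ∨ f = (a' : ℤ) - N := by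
              have := mem_insert.1 hf
              rw [mem_singleton] at this
              exact this
            rcases hf' with hf' | hf'
            · rw [hf', add_comm, hgm]
              exact hRo
            · rw [hf', show (a' : ℤ) - N + q * s = (-(N : ℤ) + q * s) + a' by ring, hgm]
              have h2 := ro_neg hRo'
              rwa [show -((N : ℤ) - ((q * n + a' : ℕ) : ℤ) - q * s) =
                ((q * n + a' : ℕ) : ℤ) + (-(N : ℤ) + q * s) by ring] at h2)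
          refine ⟨?_, ?_⟩
          · rw [add_comm]
            exact h1 (a' : ℤ) (mem_insert_self _ _)
          · have h2 := h1 ((a' : ℤ) - N) (mem_insert_of_mem (mem_singleton_self _))
            rwa [show (a' : ℤ) - N + q * s = (-(N : ℤ) - q * (-s)) + a' by ring] at h2
        rw [hg0] at hn3 hn4
        refine ⟨⟨w1, w2⟩, ?_, ?_, ?_, ?_, ?_, ?_, ?_, ?_⟩
        · show (q * n + a') % q = a % q
          rw [ha', Nat.mul_add_mod, Nat.mod_mod]
        · exact hn3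
        · intro p hp hpd
          refine le_trans ?_ (hn4 p hp (by exact_mod_cast hpd))
          apply Real.rpow_le_rpow_of_exponent_le hxone
          linarith
        · intro e he
          have h1 := hn5 ((q : ℤ) * e + a') ((hVm _).2 (mem_VE.2 (Or.inl ⟨e, he, rfl⟩)))
          rw [hgm] at h1
          exact h1
        · intro e he
          have h1 := hn5 ((-(N : ℤ) - q * e) + a') ((hVm _).2 (mem_VE.2 (Or.inr ⟨e, he, rfl⟩)))
          rw [hgm] at h1
          have h2 := ro_neg h1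
          rwa [show -(((q * n + a' : ℕ) : ℤ) + (-(N : ℤ) - q * e)) =
            (N : ℤ) - ((q * n + a' : ℕ) : ℤ) + q * e by ring] at h2
        · intro s hs hsE hRo
          exact hsE (inE hq hNx hEb (hs.trans hLx8) ((hVm _).1 (c1 s hs hRo)))
        · intro s hs hsE hRo
          exact hsE (inE' hq hNx hEb (hs.trans hLx8) ((hVm _).1 (c2 s hs hRo)))
        · intro s hs hRo hRo'
          obtain ⟨h1, h2⟩ := c3 s hs hRo hRo'
          refine ⟨inE hq hNx hEb (hs.trans hL'x8) ((hVm _).1 h1),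
            inE' hq hNx hEb ?_ ((hVm _).1 h2)⟩
          push_cast
          rw [abs_neg]
          exact hs.trans hL'x8
      · intro n _ n' _ hnn
        dsimp only at hnn
        exact Nat.eq_of_mul_eq_mul_left hq (Nat.add_right_cancel hnn)
    have h3 : ((PtsN q q V (a' : ℤ) R (x ^ (h / 6)) (x ^ (1 / (t : ℝ))) ![L, L, L']
        ![{(a' : ℤ)}, {(a' : ℤ) - N}, {(a' : ℤ), (a' : ℤ) - N}] 0 H).card : ℝ) ≤
        (Gmq N q a E E' R (x ^ ((1 - κ) / 7)) (x ^ (1 / (t : ℝ))) L L').card := by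
      exact_mod_cast hcard
    rw [← hL, ← hL']
    have hVn := VQ_nonneg ⌊x⌋₊ q (VE N q E E')
    refine le_trans ?_ (key.trans h3)
    calc c' / 4 * (x / q * VQ ⌊x⌋₊ q (VE N q E E')) =
          c' * (x / (4 * q) * VQ ⌊x⌋₊ q (VE N q E E')) := by
          field_simp
      _ ≤ c' * (H * VQ ⌊x⌋₊ q (VE N q E E')) := by gcongr
  · rw [Fin.forall_fin_succ, Fin.forall_fin_succ, Fin.forall_fin_one]
    refine ⟨?_, ?_, ?_⟩
    · refine ⟨singleton_nonempty _, ?_, ?_, AdQ_single _ _⟩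
      · show ({(a' : ℤ)} : Finset ℤ).card ≤ 2 * k
        rw [card_singleton]
        omega
      · intro e he
        have he' : e = (a' : ℤ) := mem_singleton.1 he
        rw [he']
        exact hVx _ hv₀
    · refine ⟨singleton_nonempty _, ?_, ?_, AdQ_single _ _⟩
      · show ({(a' : ℤ) - N} : Finset ℤ).card ≤ 2 * k
        rw [card_singleton]
        omega
      · intro e he
        have he' : e = (a' : ℤ) - N := mem_singleton.1 he
        rw [he']
        exact hVx _ hv₁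
    · refine ⟨insert_nonempty _ _, ?_, ?_, hAdF⟩
      · show ({(a' : ℤ), (a' : ℤ) - N} : Finset ℤ).card ≤ 2 * k
        exact card_le_two.trans (by omega)
      · intro e he
        have he' : e = (a' : ℤ) ∨ e = (a' : ℤ) - N := by
          have := mem_insert.1 he
          rw [mem_singleton] at this
          exact this
        rcases he' with he' | he'
        · rw [he']
          exact hVx _ hv₀
        · rw [he']
          exact hVx _ hv₁
  · rw [Fin.forall_fin_succ, Fin.forall_fin_succ, Fin.forall_fin_one]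
    refine ⟨⟨hL0, hLx8.trans hx8, ?_⟩, ⟨hL0, hLx8.trans hx8, ?_⟩, ⟨hL'0, hL'x8.trans hx8, hL'V⟩⟩
    · show L * VQ ⌊x⌋₊ q {(a' : ℤ)} ≤ ν'
      rw [VQ_single]
      exact hLV
    · show L * VQ ⌊x⌋₊ q {(a' : ℤ) - N} ≤ ν'
      rw [VQ_single]
      exact hLV
  · intro n hn
    obtain ⟨w1, w2⟩ := hwin n hn
    have hm : ((q * n + a' : ℕ) : ℝ) ≤ x := by
      have h1 : ((q * n + a' : ℕ) : ℝ) ≤ (N : ℝ) := by exact_mod_cast w2.le
      exact h1.trans hNx'
    have h1 : |((gm q (a' : ℤ) n : ℤ) : ℝ)| ≤ x := by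
      unfold gm
      push_cast
      push_cast at hm
      rw [abs_of_nonneg (by positivity)]
      exact hm
    refine h1.trans ?_
    calc x = x ^ (1 : ℝ) := (Real.rpow_one x).symm
      _ ≤ x ^ (1 + θ) := Real.rpow_le_rpow_of_exponent_le hxone (by linarith)

end Pool.Agent.Q117.MG
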