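import Pool.Agent.Q117.MG.Stm
import Pool.Agent.Q184.LF.Avg

/-!
Project MG (helper117), job MGA: the average of products of local factors over a short window, uniformly in the modulus.
-/

set_option autoImplicit false

namespace Pool.Agent.Q117.MG

open Finset Filter

namespace MGAa

open Pool.Agent.Q184.LF (powb card_primes count prod_sq prod_one prod_le_sum)

section
open Classical

/-- the primes up to `y` that do not divide `q` -/
noncomputable def pr (q y : ℕ) : Finset ℕ := ((Icc 1 y).filter Nat.Prime).filter (fun p => ¬ p ∣ q)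

/-- the local product -/
noncomputable def lp (c : ℝ) (q y : ℕ) (m : ℤ) : ℝ :=
  ∏ p ∈ pr q y, (if (p : ℤ) ∣ m then (1 + c / (p : ℝ)) else 1)

theorem GQ_lp (q y : ℕ) (m : ℤ) : GQ q y m = lp 2 q y m := by
  unfold GQ lp pr
  rw [← Finset.prod_filter, Finset.filter_filter, Finset.filter_filter]

theorem lp_nonneg {c : ℝ} (hc : 0 ≤ c) (q y : ℕ) (m : ℤ) : 0 ≤ lp c q y m := by
  unfold lp
  refine Finset.prod_nonneg fun p _ => ?_
  split_ifs <;> positivity

theorem mem_pr {q y p : ℕ} (hp : p ∈ pr q y) : 1 ≤ p ∧ p ≤ y ∧ p.Prime ∧ ¬ p ∣ q := by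
  unfold pr at hp
  rw [Finset.mem_filter, Finset.mem_filter, Finset.mem_Icc] at hp
  exact ⟨hp.1.1.1, hp.1.1.2, hp.1.2, hp.2⟩

theorem lp_pow (N q y : ℕ) (m : ℤ) : lp 2 q y m ^ N ≤ lp (3 ^ N) q y m := by
  unfold lp
  rw [← Finset.prod_pow]
  refine Finset.prod_le_prod (fun p _ => ?_) fun p hp => ?_
  · split_ifs <;> positivity
  · have hp1 : (1 : ℝ) ≤ p := by exact_mod_cast (mem_pr hp).1
    split_ifs
    · have h0 : 0 ≤ 1 / (p : ℝ) := by positivity
      have h1 : 1 / (p : ℝ) ≤ 1 := by rw [div_le_one (by linarith)]; exact hp1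
      have h2 := powb N h0 h1
      have h3 : (1 : ℝ) + 2 / p = 1 + 2 * (1 / p) := by ring
      rw [h3]
      refine h2.trans ?_
      have : (3 : ℝ) ^ N / p = 3 ^ N * (1 / p) := by ring
      rw [this]
      nlinarith
    · simp

/-- the primes larger than `log X` do not matter -/
theorem GQ_le {X : ℝ} (hX : 3 ≤ X) (q : ℕ) {m : ℤ} (hm : m ≠ 0) (hmX : |(m : ℝ)| ≤ X ^ 4) :
    GQ q ⌊X⌋₊ m ≤ Real.exp (8 / Real.log 2) * lp 2 q ⌊Real.log X⌋₊ m := by
  rw [GQ_lp]
  have hX0 : 0 < X := by linarith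
  have hlog1 : 1 < Real.log X := by
    rw [Real.lt_log_iff_exp_lt hX0]
    exact Real.exp_one_lt_three.trans_le hX
  have hlogX : Real.log X ≤ X := (Real.log_le_sub_one_of_pos hX0).trans (by linarith)
  set w := ⌊Real.log X⌋₊ with hw
  set y := ⌊X⌋₊ with hy
  have hwy : w ≤ y := Nat.floor_mono hlogX
  have hsplit := (Finset.prod_filter_mul_prod_filter_not (pr q y) (fun p => p ≤ w)
    (fun p : ℕ => (if (p : ℤ) ∣ m then (1 + 2 / (p : ℝ)) else 1))).symm
  have h1 : (pr q y).filter (fun p => p ≤ w) = pr q w := by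
    ext p
    unfold pr
    simp only [Finset.mem_filter, Finset.mem_Icc]
    constructor
    · rintro ⟨⟨⟨⟨h1, _⟩, h3⟩, h5⟩, h4⟩
      exact ⟨⟨⟨h1, h4⟩, h3⟩, h5⟩
    · rintro ⟨⟨⟨h1, h4⟩, h3⟩, h5⟩
      exact ⟨⟨⟨⟨h1, h4.trans hwy⟩, h3⟩, h5⟩, h4⟩
  rw [h1] at hsplit
  unfold lp
  rw [hsplit, mul_comm]
  refine mul_le_mul_of_nonneg_right ?_ (Finset.prod_nonneg fun p _ => by split_ifs <;> positivity)
  rw [← Finset.prod_filter]
  set S := ((pr q y).filter (fun p => ¬ p ≤ w)).filter (fun p : ℕ => (p : ℤ) ∣ m) with hS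
  have hSp : ∀ p ∈ S, p.Prime ∧ (p : ℤ) ∣ m ∧ w < p := by
    intro p hp
    rw [hS, Finset.mem_filter, Finset.mem_filter] at hp
    exact ⟨(mem_pr hp.1.1).2.2.1, hp.2, not_le.1 hp.1.2⟩
  have hcard := card_primes hm (fun p hp => ⟨(hSp p hp).1, (hSp p hp).2.1⟩)
  have hk : (S.card : ℝ) * Real.log 2 ≤ 4 * Real.log X := by
    have h2 : (2 : ℝ) ^ S.card ≤ X ^ 4 := by
      refine le_trans ?_ hmX
      have h3 : ((2 ^ S.card : ℕ) : ℝ) ≤ (m.natAbs : ℝ) := by exact_mod_cast hcard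
      rw [Nat.cast_natAbs, Int.cast_abs] at h3
      simpa using h3
    have h3 := Real.log_le_log (by positivity) h2
    rwa [Real.log_pow, Real.log_pow] at h3
  have hl2 : 0 < Real.log 2 := Real.log_pos (by norm_num)
  have h2 : ∏ p ∈ S, (1 + 2 / (p : ℝ)) ≤ ∏ _p ∈ S, Real.exp (2 / Real.log X) := by
    refine Finset.prod_le_prod (fun p _ => by positivity) fun p hp => ?_
    have h3 : Real.log X < p := by
      have := (hSp p hp).2.2
      rw [hw, Nat.floor_lt (by linarith)] at this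
      exact this
    have h4 : 2 / (p : ℝ) ≤ 2 / Real.log X := by
      apply div_le_div_of_nonneg_left (by norm_num) (by linarith) h3.le
    have h5 := Real.add_one_le_exp (2 / Real.log X)
    linarith
  refine h2.trans ?_
  rw [Finset.prod_const, ← Real.exp_nat_mul]
  apply Real.exp_le_exp.2
  rw [le_div_iff₀ hl2]
  have h3 : (S.card : ℝ) * (2 / Real.log X) * Real.log 2 =
      2 / Real.log X * ((S.card : ℝ) * Real.log 2) := by ring
  rw [h3]
  have h4 : 0 < Real.log X := by linarith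
  calc 2 / Real.log X * ((S.card : ℝ) * Real.log 2) ≤ 2 / Real.log X * (4 * Real.log X) := by gcongr
    _ = 8 := by field_simp; norm_num

/-- the number of solutions of a linear congruence with an invertible slope -/
theorem countq {q e : ℕ} (he : 0 < e) (hco : Nat.Coprime e q) (β : ℤ) (L : ℕ) :
    (((Icc (-(L : ℤ)) L).filter (fun d => (e : ℤ) ∣ (q : ℤ) * d + β)).card : ℝ) ≤ 2 * L / e + 1 := by
  have hco' : IsCoprime (e : ℤ) (q : ℤ) := Nat.isCoprime_iff_coprime.2 hco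
  obtain ⟨a, b, hab⟩ := hco'
  have h1 := count (a1 := 1) (α := 1) (β := b * β) one_ne_zero (by simp) he L
  have h2 : (Icc (-(L : ℤ)) L).filter (fun d => (e : ℤ) ∣ (q : ℤ) * d + β) ⊆
      (Icc (-(L : ℤ)) L).filter (fun d => (e : ℤ) ∣ 1 * d + b * β) := by
    intro d hd
    rw [Finset.mem_filter] at hd ⊢
    refine ⟨hd.1, ?_⟩
    have h3 : (1 : ℤ) * d + b * β = b * ((q : ℤ) * d + β) + (e : ℤ) * (a * d) := by
      have : (1 : ℤ) = a * e + b * q := hab.symm
      calc (1 : ℤ) * d + b * β = (a * e + b * q) * d + b * β := by rw [← this]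
        _ = _ := by ring
    rw [h3]
    exact dvd_add (Dvd.dvd.mul_left hd.2 b) (dvd_mul_right _ _)
  have h3 : (((Icc (-(L : ℤ)) L).filter (fun d => (e : ℤ) ∣ (q : ℤ) * d + β)).card : ℝ) ≤
      (((Icc (-(L : ℤ)) L).filter (fun d => (e : ℤ) ∣ 1 * d + b * β)).card : ℝ) := by
    exact_mod_cast Finset.card_le_card h2
  refine h3.trans (h1.trans (le_of_eq ?_))
  push_cast
  ring

/-- the average of a local product -/
theorem lp_sum {c : ℝ} (hc : 0 ≤ c) (q : ℕ) (β : ℤ) (w L : ℕ) :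
    ∑ d ∈ Icc (-(L : ℤ)) L, lp c q w ((q : ℤ) * d + β) ≤
      2 * L * ∏ p ∈ pr q w, (1 + c / (p : ℝ) ^ 2) + ∏ p ∈ pr q w, (1 + c / (p : ℝ)) := by
  set P := pr q w with hP
  have h1 : ∀ m : ℤ, lp c q w m = ∑ T ∈ P.powerset, (if ∀ p ∈ T, (p : ℤ) ∣ m then ∏ p ∈ T, c / (p : ℝ) else 0) := by
    intro m
    unfold lp
    have h2 : ∀ p ∈ P, (if (p : ℤ) ∣ m then (1 + c / (p : ℝ)) else 1) =
        1 + (if (p : ℤ) ∣ m then c / (p : ℝ) else 0) := by
      intro p _
      split_ifs <;> simp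
    rw [Finset.prod_congr rfl h2, Finset.prod_one_add]
    refine Finset.sum_congr rfl fun T _ => ?_
    by_cases h3 : ∀ p ∈ T, (p : ℤ) ∣ m
    · rw [if_pos h3]
      exact Finset.prod_congr rfl fun p hp => if_pos (h3 p hp)
    · rw [if_neg h3]
      push Not at h3
      obtain ⟨p, hp, hpm⟩ := h3
      exact Finset.prod_eq_zero hp (if_neg hpm)
  simp_rw [h1]
  rw [Finset.sum_comm]
  have h2 : ∀ T ∈ P.powerset, ∑ d ∈ Icc (-(L : ℤ)) L,
      (if ∀ p ∈ T, (p : ℤ) ∣ (q : ℤ) * d + β then ∏ p ∈ T, c / (p : ℝ) else 0) ≤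
      2 * L * ∏ p ∈ T, c / (p : ℝ) ^ 2 + ∏ p ∈ T, c / (p : ℝ) := by
    intro T hT
    have hTP := Finset.mem_powerset.1 hT
    have hTp : ∀ p ∈ T, p.Prime ∧ ¬ p ∣ q := fun p hp => (mem_pr (hTP hp)).2.2
    rw [← Finset.sum_filter, Finset.sum_const, nsmul_eq_mul]
    set e := ∏ p ∈ T, p with he
    have he0 : 0 < e := Finset.prod_pos fun p hp => (hTp p hp).1.pos
    have hco : Nat.Coprime e q := by
      rw [he]
      exact Nat.Coprime.prod_left fun p hp => ((hTp p hp).1.coprime_iff_not_dvd).2 (hTp p hp).2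
    have h3 : (Icc (-(L : ℤ)) L).filter (fun d => ∀ p ∈ T, (p : ℤ) ∣ (q : ℤ) * d + β) ⊆
        (Icc (-(L : ℤ)) L).filter (fun d => (e : ℤ) ∣ (q : ℤ) * d + β) := by
      intro d hd
      rw [Finset.mem_filter] at hd ⊢
      refine ⟨hd.1, ?_⟩
      apply Int.natCast_dvd.2
      exact Finset.prod_primes_dvd _ (fun p hp => (hTp p hp).1.prime)
        (fun p hp => Int.natCast_dvd.1 (hd.2 p hp))
    have h4 : (((Icc (-(L : ℤ)) L).filter (fun d => ∀ p ∈ T, (p : ℤ) ∣ (q : ℤ) * d + β)).card : ℝ) ≤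
        2 * L / e + 1 := by
      refine le_trans ?_ (countq he0 hco β L)
      exact_mod_cast Finset.card_le_card h3
    have h5 : 0 ≤ ∏ p ∈ T, c / (p : ℝ) := Finset.prod_nonneg fun p _ => by positivity
    refine (mul_le_mul_of_nonneg_right h4 h5).trans (le_of_eq ?_)
    have h6 : ∏ p ∈ T, c / (p : ℝ) ^ 2 = (∏ p ∈ T, c / (p : ℝ)) / e := by
      rw [he, Nat.cast_prod, ← Finset.prod_div_distrib]
      refine Finset.prod_congr rfl fun p _ => ?_
      rw [div_div, sq]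
    rw [h6]
    ring
  refine (Finset.sum_le_sum h2).trans (le_of_eq ?_)
  rw [Finset.sum_add_distrib, ← Finset.mul_sum, ← Finset.prod_one_add, ← Finset.prod_one_add]

theorem prod_pr_le (q w : ℕ) (f : ℕ → ℝ) (hf : ∀ p, 1 ≤ f p) :
    ∏ p ∈ pr q w, f p ≤ ∏ p ∈ (Icc 1 w).filter Nat.Prime, f p := by
  unfold pr
  rw [← Finset.prod_filter_mul_prod_filter_not ((Icc 1 w).filter Nat.Prime) (fun p => ¬ p ∣ q) f]
  refine le_mul_of_one_le_right (Finset.prod_nonneg fun p _ => zero_le_one.trans (hf p)) ?_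
  exact Finset.one_le_prod fun p _ => hf p

theorem main (N : ℕ) : ∃ C : ℝ, 0 < C ∧ ∃ X0 : ℝ, ∀ X : ℝ, X0 ≤ X → ∀ q : ℕ, 1 ≤ q → (q : ℝ) ≤ X → ∀ β : Fin N → ℤ, (∀ x, |(β x : ℝ)| ≤ X ^ 3) →
    ∀ L : ℕ, (L : ℝ) ≤ X → ∑ s ∈ (Icc (-(L : ℤ)) L).filter (fun s => ∀ x, (q : ℤ) * s + β x ≠ 0), ∏ x, GQ q ⌊X⌋₊ (q * s + β x) ≤ C * (L + (Real.log X) ^ (1 / 2 : ℝ)) := by
  set c : ℝ := 3 ^ N with hc
  have hc0 : 0 ≤ c := by positivity
  obtain ⟨K, hK0, hK⟩ := prod_one c hc0
  set E : ℝ := Real.exp (8 / Real.log 2) with hE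
  have hE0 : 0 < E := Real.exp_pos _
  refine ⟨3 + N * E ^ N * (2 * Real.exp (2 * c) + K), by positivity, ?_⟩
  -- largeness
  have hev1 : ∀ᶠ X : ℝ in atTop, (Real.log (Real.log X)) ^ c ≤ (Real.log X) ^ (1 / 2 : ℝ) := by
    have h1 : (fun x : ℝ => Real.log x ^ c) =o[atTop] fun x => x ^ (1 / 2 : ℝ) :=
      isLittleO_log_rpow_rpow_atTop c (by norm_num)
    have h2 := h1.bound one_pos
    have h3 : ∀ᶠ x : ℝ in atTop, Real.log x ^ c ≤ x ^ (1 / 2 : ℝ) := by
      filter_upwards [h2, eventually_ge_atTop (1 : ℝ)] with x hx hx1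
      rw [one_mul, Real.norm_eq_abs, Real.norm_eq_abs,
        abs_of_nonneg (Real.rpow_nonneg (Real.log_nonneg hx1) _),
        abs_of_nonneg (Real.rpow_nonneg (by linarith) _)] at hx
      exact hx
    exact Real.tendsto_log_atTop.eventually h3
  have hev : ∀ᶠ X : ℝ in atTop, 3 ≤ X ∧ 3 ≤ Real.log X ∧
      (Real.log (Real.log X)) ^ c ≤ (Real.log X) ^ (1 / 2 : ℝ) := by
    filter_upwards [hev1, eventually_ge_atTop (3 : ℝ),
      Real.tendsto_log_atTop.eventually (eventually_ge_atTop (3 : ℝ))] with X h1 h2 h4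
    exact ⟨h2, h4, h1⟩
  obtain ⟨X0, hX0⟩ := Filter.eventually_atTop.1 hev
  refine ⟨X0, ?_⟩
  intro X hX q hq1 hqX β hβ L hL
  obtain ⟨hX3, hlog3, hllog⟩ := hX0 X hX
  set w := ⌊Real.log X⌋₊ with hw
  have hXpos : 0 < X := by linarith
  -- each term
  have hterm : ∀ d ∈ (Icc (-(L : ℤ)) L).filter (fun d => ∀ x, (q : ℤ) * d + β x ≠ 0),
      ∏ x, GQ q ⌊X⌋₊ ((q : ℤ) * d + β x) ≤ 1 + ∑ x, E ^ N * lp c q w ((q : ℤ) * d + β x) := by
    intro d hd
    rw [Finset.mem_filter, Finset.mem_Icc] at hd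
    refine (prod_le_sum N _ fun x => ?_).trans ?_
    · rw [GQ_lp]; exact lp_nonneg (by norm_num) _ _ _
    · refine add_le_add le_rfl (Finset.sum_le_sum fun x _ => ?_)
      have h1 : |(((q : ℤ) * d + β x : ℤ) : ℝ)| ≤ X ^ 4 := by
        push_cast
        have h3 : |(d : ℝ)| ≤ X := by
          refine le_trans ?_ hL
          rw [abs_le]
          constructor
          · exact_mod_cast hd.1.1
          · exact_mod_cast hd.1.2
        have h4 := hβ x
        calc |(q : ℝ) * d + β x| ≤ |(q : ℝ) * d| + |(β x : ℝ)| := abs_add_le _ _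
          _ = (q : ℝ) * |(d : ℝ)| + |(β x : ℝ)| := by rw [abs_mul, Nat.abs_cast]
          _ ≤ X * X + X ^ 3 := by gcongr
          _ ≤ X ^ 4 := by
              have h5 : X * X ≤ X ^ 3 := by nlinarith [sq_nonneg X]
              have h6 : 2 * X ^ 3 ≤ X ^ 4 := by
                have : 0 ≤ X ^ 3 := by positivity
                nlinarith
              linarith
      have h2 := GQ_le hX3 q (hd.2 x) h1
      have h3 : 0 ≤ GQ q ⌊X⌋₊ ((q : ℤ) * d + β x) := by
        rw [GQ_lp]; exact lp_nonneg (by norm_num) _ _ _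
      calc GQ q ⌊X⌋₊ ((q : ℤ) * d + β x) ^ N ≤ (E * lp 2 q w ((q : ℤ) * d + β x)) ^ N :=
            pow_le_pow_left₀ h3 h2 N
        _ = E ^ N * lp 2 q w ((q : ℤ) * d + β x) ^ N := mul_pow _ _ _
        _ ≤ E ^ N * lp c q w ((q : ℤ) * d + β x) := by
            apply mul_le_mul_of_nonneg_left (lp_pow N q w _) (by positivity)
  refine (Finset.sum_le_sum hterm).trans ?_
  have h1 : ∑ d ∈ (Icc (-(L : ℤ)) L).filter (fun d => ∀ x, (q : ℤ) * d + β x ≠ 0),
      (1 + ∑ x, E ^ N * lp c q w ((q : ℤ) * d + β x)) ≤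
      ∑ d ∈ Icc (-(L : ℤ)) L, (1 + ∑ x, E ^ N * lp c q w ((q : ℤ) * d + β x)) := by
    refine Finset.sum_le_sum_of_subset_of_nonneg (Finset.filter_subset _ _) fun d _ _ => ?_
    have : 0 ≤ ∑ x, E ^ N * lp c q w ((q : ℤ) * d + β x) :=
      Finset.sum_nonneg fun x _ => mul_nonneg (by positivity) (lp_nonneg hc0 _ _ _)
    linarith
  refine h1.trans ?_
  rw [Finset.sum_add_distrib, Finset.sum_comm]
  have hu : 0 < Real.log X := by linarith
  have hu1 : (1 : ℝ) ≤ (Real.log X) ^ (1 / 2 : ℝ) :=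
    Real.one_le_rpow (by linarith) (by norm_num)
  have h2 : ∑ _d ∈ Icc (-(L : ℤ)) L, (1 : ℝ) = 2 * L + 1 := by
    rw [Finset.sum_const, Int.card_Icc, nsmul_eq_mul, mul_one]
    have : ((L : ℤ) + 1 - (-(L : ℤ))).toNat = 2 * L + 1 := by omega
    rw [this]
    push_cast
    ring
  have h3 : ∀ x : Fin N, ∑ d ∈ Icc (-(L : ℤ)) L, E ^ N * lp c q w ((q : ℤ) * d + β x) ≤
      E ^ N * (2 * Real.exp (2 * c) * L + K * (Real.log X) ^ (1 / 2 : ℝ)) := by
    intro x
    rw [← Finset.mul_sum]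
    apply mul_le_mul_of_nonneg_left _ (by positivity)
    refine (lp_sum hc0 q (β x) w L).trans ?_
    have hw2 : 2 ≤ w := by
      rw [hw]
      apply Nat.le_floor
      push_cast
      linarith
    have h4 : ∏ p ∈ pr q w, (1 + c / (p : ℝ) ^ 2) ≤ Real.exp (2 * c) :=
      (prod_pr_le q w (fun p => 1 + c / (p : ℝ) ^ 2) (fun p => by
        have : 0 ≤ c / (p : ℝ) ^ 2 := by positivity
        linarith)).trans (prod_sq hc0 w)
    have h5 : ∏ p ∈ pr q w, (1 + c / (p : ℝ)) ≤ K * (Real.log w) ^ c :=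
      (prod_pr_le q w (fun p => 1 + c / (p : ℝ)) (fun p => by
        have : 0 ≤ c / (p : ℝ) := by positivity
        linarith)).trans (hK w hw2)
    have h6 : Real.log w ≤ Real.log (Real.log X) := by
      apply Real.log_le_log
      · have : (0 : ℝ) < w := by
          have : 0 < w := by omega
          exact_mod_cast this
        exact this
      · exact Nat.floor_le hu.le
    have h7 : (Real.log w) ^ c ≤ (Real.log X) ^ (1 / 2 : ℝ) := by
      refine le_trans ?_ hllog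
      apply Real.rpow_le_rpow _ h6 hc0
      apply Real.log_nonneg
      exact_mod_cast (by omega : 1 ≤ w)
    calc 2 * (L : ℝ) * ∏ p ∈ pr q w, (1 + c / (p : ℝ) ^ 2) + ∏ p ∈ pr q w, (1 + c / (p : ℝ))
        ≤ 2 * (L : ℝ) * Real.exp (2 * c) + K * (Real.log X) ^ (1 / 2 : ℝ) := by
          refine add_le_add ?_ (h5.trans ?_)
          · exact mul_le_mul_of_nonneg_left h4 (by positivity)
          · exact mul_le_mul_of_nonneg_left h7 hK0.le
      _ = _ := by ring
  have h4 : ∑ x : Fin N, ∑ d ∈ Icc (-(L : ℤ)) L, E ^ N * lp c q w ((q : ℤ) * d + β x) ≤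
      N * (E ^ N * (2 * Real.exp (2 * c) * L + K * (Real.log X) ^ (1 / 2 : ℝ))) := by
    refine (Finset.sum_le_sum fun x _ => h3 x).trans ?_
    rw [Finset.sum_const, Finset.card_univ, Fintype.card_fin, nsmul_eq_mul]
  rw [h2]
  refine (add_le_add le_rfl h4).trans ?_
  set u := (Real.log X) ^ (1 / 2 : ℝ) with hud
  have hL0 : (0 : ℝ) ≤ L := by positivity
  have h5 : (N : ℝ) * (E ^ N * (2 * Real.exp (2 * c) * L + K * u)) ≤
      N * (E ^ N * ((2 * Real.exp (2 * c) + K) * (L + u))) := by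
    apply mul_le_mul_of_nonneg_left _ (by positivity)
    apply mul_le_mul_of_nonneg_left _ (by positivity)
    have h7 : 0 ≤ 2 * Real.exp (2 * c) * u := by positivity
    have h8 : 0 ≤ K * (L : ℝ) := by positivity
    nlinarith
  calc 2 * (L : ℝ) + 1 + N * (E ^ N * (2 * Real.exp (2 * c) * L + K * u))
      ≤ 3 * (L + u) + N * (E ^ N * ((2 * Real.exp (2 * c) + K) * (L + u))) :=
        add_le_add (by linarith) h5
    _ = _ := by ring

end

end MGAa

theorem mga : St_MGA := by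
  intro N
  obtain ⟨C, hC, X0, h⟩ := MGAa.main N
  refine ⟨C, hC, X0, fun X hX q hq hqX β hβ L hL => ?_⟩
  refine le_trans (le_of_eq ?_) (h X hX q hq hqX β hβ L hL)
  refine Finset.sum_congr ?_ fun _ _ => rfl
  exact Finset.filter_congr fun _ _ => Iff.rfl

end Pool.Agent.Q117.MG
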