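import Pool.Agent.Q117.MG.Stm
import Pool.Agent.Q117.AP.Lgc

/-!
Project MG (helper117), job MGL: the sieve product of a union of two sets.
-/

set_option autoImplicit false

namespace Pool.Agent.Q117.MG

open Finset Filter
open Pool.Agent.Q117.LF (oF)
open Pool.Agent.Q117.AP (AdQ VQ)

namespace MGLa

open Pool.Agent.Q117.AP.LGCa (oF_le oF_le_card oF_lt oF_mono oF_union elem prod_ite_filter)

theorem oF_shift' (F : Finset ℤ) (t : ℤ) (p : ℕ) : oF F p ≤ oF (F.image (fun f => f + t)) p := by
  unfold oF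
  have h1 : F.image (fun e : ℤ => e % (p : ℤ)) ⊆
      ((F.image (fun f => f + t)).image (fun e : ℤ => e % (p : ℤ))).image
        (fun r => (r - t) % (p : ℤ)) := by
    intro x hx
    rw [mem_image] at hx
    obtain ⟨e, he, rfl⟩ := hx
    rw [mem_image]
    refine ⟨(e + t) % (p : ℤ), mem_image_of_mem _ (mem_image_of_mem _ he), ?_⟩
    rw [Int.emod_sub_emod]
    congr 1
    ring
  exact (card_le_card h1).trans card_image_le

end MGLa

open MGLa in
open Pool.Agent.Q117.AP.LGCa (oF_le oF_le_card oF_lt oF_mono oF_union elem prod_ite_filter) in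
theorem mgl : St_MGL := by
  classical
  intro k y u q huq V F hV hF hadm s
  set N : ℕ := 2 * k ^ 2 + k with hN
  set D : Finset ℤ := V ∪ F.image (fun f => f + q * s) with hD
  set P : Finset ℕ := (Icc 1 y).filter Nat.Prime with hP
  have eG : ∀ A : Finset ℤ, VQ y u A = ∏ p ∈ P, if ¬ p ∣ u then (1 - (oF A p : ℝ) / p) else 1 := by
    intro A
    unfold VQ
    rw [hP]
    exact prod_ite_filter y (fun p => ¬ p ∣ u) _
  have eQ : VQ y q F = ∏ p ∈ P, if ¬ p ∣ q then (1 - (oF F p : ℝ) / p) else 1 := by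
    unfold VQ
    rw [hP]
    exact prod_ite_filter y (fun p => ¬ p ∣ q) _
  have eN : ∀ m : ℤ, GQ q y m = ∏ p ∈ P, if (¬ p ∣ q ∧ (p : ℤ) ∣ m) then (1 + 2 / (p : ℝ)) else 1 := by
    intro m
    unfold GQ
    rw [hP]
    exact prod_ite_filter y (fun p => ¬ p ∣ q ∧ (p : ℤ) ∣ m) _
  have eNN : (∏ f ∈ F, ∏ v ∈ V, GQ q y (f + q * s - v)) ^ N = ∏ p ∈ P,
      (∏ f ∈ F, ∏ v ∈ V, if (¬ p ∣ q ∧ (p : ℤ) ∣ f + q * s - v) then (1 + 2 / (p : ℝ)) else 1) ^ N := by
    rw [prod_pow]
    congr 1
    simp_rw [eN]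
    symm
    rw [Finset.prod_comm]
    refine prod_congr rfl fun f _ => ?_
    rw [Finset.prod_comm]
  rw [eG D, eG V, eQ, eNN, ← prod_mul_distrib, ← prod_mul_distrib]
  refine prod_le_prod (fun p hp => ?_) fun p hp => ?_
  · have hpp : p.Prime := (mem_filter.1 hp).2
    have hp0 : (0 : ℝ) < p := by exact_mod_cast hpp.pos
    split_ifs with h1
    · exact zero_le_one
    · rw [sub_nonneg, div_le_one hp0]
      exact_mod_cast oF_le _ hpp.pos
  · have hpp : p.Prime := (mem_filter.1 hp).2
    have hp0 : (0 : ℝ) < p := by exact_mod_cast hpp.pos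
    have hone : ∀ m : ℤ, (1 : ℝ) ≤ if (¬ p ∣ q ∧ (p : ℤ) ∣ m) then (1 + 2 / (p : ℝ)) else 1 := by
      intro m
      split_ifs
      · have : (0 : ℝ) ≤ 2 / (p : ℝ) := by positivity
        linarith
      · exact le_rfl
    set G : ℝ := ∏ f ∈ F, ∏ v ∈ V, if (¬ p ∣ q ∧ (p : ℤ) ∣ f + q * s - v) then (1 + 2 / (p : ℝ)) else 1 with hG
    have hinner : ∀ f : ℤ, (1 : ℝ) ≤ ∏ v ∈ V, if (¬ p ∣ q ∧ (p : ℤ) ∣ f + q * s - v) then (1 + 2 / (p : ℝ)) else 1 :=
      fun f => Finset.one_le_prod fun e _ => hone _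
    have hG1 : 1 ≤ G := Finset.one_le_prod fun f _ => hinner f
    have hGN : 1 ≤ G ^ N := one_le_pow₀ hG1
    have ha : oF V p ≤ p := oF_le V hpp.pos
    have haR : 0 ≤ 1 - (oF V p : ℝ) / p := by
      rw [sub_nonneg, div_le_one hp0]
      exact_mod_cast ha
    have h4 : (oF V p : ℝ) ≤ oF D p := by
      exact_mod_cast oF_mono (subset_union_left) p
    have h5 : 1 - (oF D p : ℝ) / p ≤ 1 - (oF V p : ℝ) / p := by
      have := div_le_div_of_nonneg_right h4 hp0.le
      linarith
    by_cases hu : p ∣ u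
    · have hq := huq p hpp hu
      rw [if_neg (not_not.2 hu), if_neg (not_not.2 hu), if_neg (not_not.2 hq)]
      linarith
    · rw [if_pos hu, if_pos hu]
      by_cases hq : p ∣ q
      · rw [if_neg (not_not.2 hq), mul_one]
        exact h5.trans (le_mul_of_one_le_right haR hGN)
      · rw [if_pos hq]
        have hb1 : oF F p + 1 ≤ p := oF_lt hpp.pos (hadm p hpp hq)
        have hbk : oF F p ≤ k := (oF_le_card F p).trans hF
        have hbR : 0 ≤ 1 - (oF F p : ℝ) / p := by
          rw [sub_nonneg, div_le_one hp0]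
          exact_mod_cast (show oF F p ≤ p by omega)
        by_cases hdiv : ∃ f ∈ F, ∃ e ∈ V, (p : ℤ) ∣ f + q * s - e
        · obtain ⟨f, hf, e, he, hd⟩ := hdiv
          have hk1 : 1 ≤ k := (card_pos.2 ⟨f, hf⟩ : 0 < F.card).trans_le hF
          have h1 : 1 + 2 / (p : ℝ) ≤ G := by
            have h2 : 1 + 2 / (p : ℝ) ≤
                ∏ v ∈ V, if (¬ p ∣ q ∧ (p : ℤ) ∣ f + q * s - v) then (1 + 2 / (p : ℝ)) else 1 := by
              rw [← mul_prod_erase V _ he, if_pos ⟨hq, hd⟩]
              exact le_mul_of_one_le_right (by positivity)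
                (Finset.one_le_prod fun e _ => hone _)
            refine h2.trans ?_
            rw [hG, ← mul_prod_erase F _ hf]
            exact le_mul_of_one_le_right (zero_le_one.trans (hinner f))
              (Finset.one_le_prod fun f _ => hinner f)
          have h3 : (1 : ℝ) ≤ (1 - (oF F p : ℝ) / p) * G ^ N := by
            refine (elem hk1 hbk hb1).trans ?_
            refine mul_le_mul_of_nonneg_left ?_ hbR
            exact pow_le_pow_left₀ (by positivity) h1 N
          calc 1 - (oF D p : ℝ) / p ≤ 1 - (oF V p : ℝ) / p := h5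
            _ ≤ (1 - (oF V p : ℝ) / p) * ((1 - (oF F p : ℝ) / p) * G ^ N) :=
              le_mul_of_one_le_right haR h3
            _ = _ := by ring
        · push Not at hdiv
          have h1 : oF V p + oF F p ≤ oF D p := by
            rw [hD, ← oF_union (E := V) (G := F.image (fun f => f + q * s)) (p := p)]
            · exact Nat.add_le_add_left (oF_shift' F (q * s) p) _
            · intro e he g hg
              rw [mem_image] at hg
              obtain ⟨f, hf, rfl⟩ := hg
              exact hdiv f hf e he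
          have h2 : ((oF V p : ℝ) + oF F p) / p ≤ (oF D p : ℝ) / p := by
            refine div_le_div_of_nonneg_right ?_ hp0.le
            exact_mod_cast h1
          have h3 : 1 - (oF D p : ℝ) / p ≤ (1 - (oF V p : ℝ) / p) * (1 - (oF F p : ℝ) / p) := by
            have h4 : 0 ≤ (oF V p : ℝ) / p * ((oF F p : ℝ) / p) := by positivity
            rw [add_div] at h2
            nlinarith
          exact h3.trans (le_mul_of_one_le_right (mul_nonneg haR hbR) hGN)

end Pool.Agent.Q117.MG
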