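import Pool.Agent.Q117.MG.Stm
import Pool.Agent.Q117.AP.Lgc
import Pool.Agent.Q184.LF.Avg
import Pool.Agent.Y843.HG.VGold

/-!
Project MG (helper117), job MGN: the theorem at the natural scale for several classes to a growing modulus.
-/

set_option autoImplicit false

namespace Pool.Agent.Q117.MG.MGNa

open Finset Filter
open Pool.Agent.Q117.LF (Ro oF)
open Pool.Agent.Q117.AP (AdQ VQ)
open Pool.Agent.Q117.AP.LGCa (oF_le oF_lt)
open Pool.Agent.Y843.HS (Pr Pr_mem Pr_prime)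
open Pool.Agent.Y843.HG (V1 V1_pos V1_bounds fac1)
open Pool.Agent.Q184.LF (card_primes)

theorem GQ_nonneg (q y : ℕ) (m : ℤ) : 0 ≤ GQ q y m := by
  unfold GQ
  refine prod_nonneg fun p _ => ?_
  positivity

theorem VQ_nonneg (y q : ℕ) (F : Finset ℤ) : 0 ≤ VQ y q F := by
  unfold VQ
  refine prod_nonneg fun p hp => ?_
  rw [mem_filter] at hp
  have hp0 : (0 : ℝ) < p := by exact_mod_cast hp.2.1.pos
  rw [sub_nonneg, div_le_one hp0]
  exact_mod_cast oF_le F hp.2.1.pos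

theorem exp_low {x : ℝ} (h0 : 0 ≤ x) (h1 : x ≤ 1 / 2) : Real.exp (-(2 * x)) ≤ 1 - x := by
  have h2 : 0 < 1 - x := by linarith
  have h3 := Real.add_one_le_exp (x / (1 - x))
  have h4 : x / (1 - x) + 1 = (1 - x)⁻¹ := by
    field_simp
    ring
  rw [h4] at h3
  have h5 : x / (1 - x) ≤ 2 * x := by
    rw [div_le_iff₀ h2]
    nlinarith
  have h6 : (1 - x)⁻¹ ≤ Real.exp (2 * x) := h3.trans (Real.exp_le_exp.2 h5)
  rw [Real.exp_neg]
  exact inv_le_of_inv_le₀ h2 h6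

/-- the sieve product of a nonempty set -/
theorem VQ_up : ∃ C : ℝ, 0 < C ∧ ∃ X1 : ℝ, ∀ X : ℝ, X1 ≤ X → ∀ q : ℕ, 1 ≤ q → (q : ℝ) ≤ X → ∀ F : Finset ℤ, F.Nonempty →
    VQ ⌊X⌋₊ q F ≤ C * (Real.log (Real.log X) / Real.log X) := by
  classical
  obtain ⟨c1, C1, hc1, hC1, hV⟩ := V1_bounds
  refine ⟨2 * C1 / c1 * Real.exp (2 / Real.log 2), by positivity, Real.exp 16, fun X hX q hq hqX F hF => ?_⟩
  have hX0 : 0 < X := (Real.exp_pos _).trans_le hX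
  have hlog16 : 16 ≤ Real.log X := (Real.le_log_iff_exp_le hX0).2 hX
  have hl0 : 0 < Real.log X := by linarith
  have hlogX : Real.log X ≤ X - 1 := Real.log_le_sub_one_of_pos hX0
  have hX16 : 16 ≤ X := by linarith
  obtain ⟨w, hw⟩ : ∃ w : ℕ, w = ⌊Real.log X⌋₊ := ⟨_, rfl⟩
  obtain ⟨y, hy⟩ : ∃ y : ℕ, y = ⌊X⌋₊ := ⟨_, rfl⟩
  have hwy : w ≤ y := by rw [hw, hy]; exact Nat.floor_mono (by linarith)
  have hw2 : 2 ≤ w := by
    rw [hw]
    apply Nat.le_floor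
    push_cast
    linarith
  have hy2 : 2 ≤ y := hw2.trans hwy
  have hl2 : 0 < Real.log 2 := Real.log_pos (by norm_num)
  rw [← hy]
  -- the primes
  obtain ⟨D, hD⟩ : ∃ D : Finset ℕ, D = (Pr w y).filter (fun p => p ∣ q) := ⟨_, rfl⟩
  have hsplit := Finset.prod_filter_mul_prod_filter_not (Pr w y) (fun p => p ∣ q) (fun p : ℕ => 1 - 1 / (p : ℝ))
  rw [← hD] at hsplit
  have h1 : VQ y q F ≤ ∏ p ∈ (Pr w y).filter (fun p => ¬ p ∣ q), (1 - 1 / (p : ℝ)) := by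
    unfold VQ
    have hsub : (Pr w y).filter (fun p => ¬ p ∣ q) ⊆ (Icc 1 y).filter (fun p : ℕ => p.Prime ∧ ¬ p ∣ q) := by
      intro p hp
      rw [mem_filter, Pr_mem] at hp
      rw [mem_filter, mem_Icc]
      exact ⟨⟨hp.1.2.one_le, hp.1.1.2⟩, hp.1.2, hp.2⟩
    rw [← prod_sdiff hsub]
    have h2 : ∏ p ∈ (Icc 1 y).filter (fun p : ℕ => p.Prime ∧ ¬ p ∣ q) \ (Pr w y).filter (fun p => ¬ p ∣ q), (1 - (oF F p : ℝ) / p) ≤ 1 := by
      refine prod_le_one (fun p hp => ?_) fun p hp => ?_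
      · rw [Finset.mem_sdiff, mem_filter] at hp
        have hp0 : (0 : ℝ) < p := by exact_mod_cast hp.1.2.1.pos
        rw [sub_nonneg, div_le_one hp0]
        exact_mod_cast oF_le F hp.1.2.1.pos
      · have : (0 : ℝ) ≤ (oF F p : ℝ) / p := by positivity
        linarith
    have h3 : ∏ p ∈ (Pr w y).filter (fun p => ¬ p ∣ q), (1 - (oF F p : ℝ) / p) ≤
        ∏ p ∈ (Pr w y).filter (fun p => ¬ p ∣ q), (1 - 1 / (p : ℝ)) := by
      refine prod_le_prod (fun p hp => ?_) fun p hp => ?_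
      · rw [mem_filter] at hp
        have hpp := Pr_prime hp.1
        have hp0 : (0 : ℝ) < p := by exact_mod_cast hpp.pos
        rw [sub_nonneg, div_le_one hp0]
        exact_mod_cast oF_le F hpp.pos
      · have h2 : 1 ≤ oF F p := by
          unfold oF
          rw [Nat.one_le_iff_ne_zero, ← Nat.pos_iff_ne_zero, Finset.card_pos]
          exact hF.image _
        have h3 : (1 : ℝ) ≤ oF F p := by exact_mod_cast h2
        have h4 : 1 / (p : ℝ) ≤ (oF F p : ℝ) / p := by gcongr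
        linarith
    have h4 : 0 ≤ ∏ p ∈ (Pr w y).filter (fun p => ¬ p ∣ q), (1 - (oF F p : ℝ) / p) := by
      refine prod_nonneg fun p hp => ?_
      rw [mem_filter] at hp
      have hpp := Pr_prime hp.1
      have hp0 : (0 : ℝ) < p := by exact_mod_cast hpp.pos
      rw [sub_nonneg, div_le_one hp0]
      exact_mod_cast oF_le F hpp.pos
    calc _ ≤ 1 * ∏ p ∈ (Pr w y).filter (fun p => ¬ p ∣ q), (1 - (oF F p : ℝ) / p) :=
          mul_le_mul_of_nonneg_right h2 h4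
      _ ≤ _ := by rw [one_mul]; exact h3
  -- the primes of q
  have hDp : ∀ p ∈ D, p.Prime ∧ p ∣ q ∧ w < p := by
    intro p hp
    rw [hD, mem_filter, Pr_mem] at hp
    exact ⟨hp.1.2, hp.2, hp.1.1.1⟩
  have hcard : (D.card : ℝ) * Real.log 2 ≤ Real.log X := by
    have h2 := card_primes (m := (q : ℤ)) (by exact_mod_cast (by omega : q ≠ 0)) (S := D)
      (fun p hp => ⟨(hDp p hp).1, by exact_mod_cast (hDp p hp).2.1⟩)
    rw [Int.natAbs_natCast] at h2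
    have h3 : (2 : ℝ) ^ D.card ≤ X := by
      refine le_trans ?_ hqX
      exact_mod_cast h2
    have h4 := Real.log_le_log (by positivity) h3
    rwa [Real.log_pow] at h4
  have h2 : Real.exp (-(2 / Real.log 2)) ≤ ∏ p ∈ D, (1 - 1 / (p : ℝ)) := by
    have h3 : ∏ _p ∈ D, Real.exp (-(2 * (1 / Real.log X))) ≤ ∏ p ∈ D, (1 - 1 / (p : ℝ)) := by
      refine prod_le_prod (fun p _ => (Real.exp_pos _).le) fun p hp => ?_
      have h4 : Real.log X < p := by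
        have := (hDp p hp).2.2
        rw [hw, Nat.floor_lt hl0.le] at this
        exact this
      have h5 : 1 / (p : ℝ) ≤ 1 / Real.log X := one_div_le_one_div_of_le hl0 h4.le
      have h6 : 1 / Real.log X ≤ 1 / 2 := one_div_le_one_div_of_le two_pos (by linarith)
      have h7 : (0 : ℝ) ≤ 1 / Real.log X := by positivity
      have := exp_low h7 h6
      linarith
    rw [prod_const, ← Real.exp_nat_mul] at h3
    refine le_trans (Real.exp_le_exp.2 ?_) h3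
    have h4 : (D.card : ℝ) ≤ Real.log X / Real.log 2 := by
      rw [le_div_iff₀ hl2]
      exact hcard
    have h5 : (D.card : ℝ) * (2 * (1 / Real.log X)) ≤ Real.log X / Real.log 2 * (2 * (1 / Real.log X)) := by
      gcongr
    have h6 : Real.log X / Real.log 2 * (2 * (1 / Real.log X)) = 2 / Real.log 2 := by
      field_simp
    rw [h6] at h5
    linarith
  -- Mertens
  have h3 : V1 w * ∏ p ∈ Pr w y, (1 - 1 / (p : ℝ)) = V1 y := by
    unfold V1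
    rw [← prod_union]
    · refine prod_congr ?_ fun _ _ => rfl
      ext p
      rw [mem_union, Pr_mem, Pr_mem, Pr_mem]
      constructor
      · rintro (⟨⟨h1, h2⟩, h3⟩ | ⟨⟨h1, h2⟩, h3⟩)
        · exact ⟨⟨h1, h2.trans hwy⟩, h3⟩
        · exact ⟨⟨by omega, h2⟩, h3⟩
      · rintro ⟨⟨h1, h2⟩, h3⟩
        rcases Nat.lt_or_ge w p with h4 | h4
        · exact Or.inr ⟨⟨h4, h2⟩, h3⟩
        · exact Or.inl ⟨⟨h1, h4⟩, h3⟩
    · rw [disjoint_left]
      intro p h1 h2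
      rw [Pr_mem] at h1 h2
      omega
  have hlw : 0 < Real.log w := Real.log_pos (by exact_mod_cast hw2)
  have hly : 0 < Real.log y := Real.log_pos (by exact_mod_cast hy2)
  have h4 : ∏ p ∈ Pr w y, (1 - 1 / (p : ℝ)) ≤ C1 / c1 * (Real.log w / Real.log y) := by
    have h5 := (hV w hw2).1
    have h6 := (hV y hy2).2
    have h7 : 0 ≤ ∏ p ∈ Pr w y, (1 - 1 / (p : ℝ)) := prod_nonneg fun p hp => by
      have := (fac1 (Pr_prime hp)).1
      linarith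
    have h8 : c1 / Real.log w * ∏ p ∈ Pr w y, (1 - 1 / (p : ℝ)) ≤ C1 / Real.log y := by
      calc _ ≤ V1 w * ∏ p ∈ Pr w y, (1 - 1 / (p : ℝ)) := mul_le_mul_of_nonneg_right h5 h7
        _ = V1 y := h3
        _ ≤ _ := h6
    have h9 : ∏ p ∈ Pr w y, (1 - 1 / (p : ℝ)) = (Real.log w / c1) * (c1 / Real.log w * ∏ p ∈ Pr w y, (1 - 1 / (p : ℝ))) := by
      field_simp
    rw [h9]
    calc _ ≤ (Real.log w / c1) * (C1 / Real.log y) := mul_le_mul_of_nonneg_left h8 (by positivity)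
      _ = _ := by ring
  have h5 : Real.log w ≤ Real.log (Real.log X) := by
    apply Real.log_le_log
    · have : 0 < w := by omega
      exact_mod_cast this
    · rw [hw]; exact Nat.floor_le hl0.le
  have h6 : Real.log X / 2 ≤ Real.log y := by
    have h7 : X / 2 ≤ y := by
      have := Nat.lt_floor_add_one X
      rw [← hy] at this
      linarith
    have h8 : Real.log (X / 2) ≤ Real.log y := Real.log_le_log (by positivity) h7
    rw [Real.log_div hX0.ne' (by norm_num)] at h8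
    have h9 : Real.log 2 < 1 := by
      have := Real.log_two_lt_d9
      linarith
    linarith
  have hll : 0 ≤ Real.log (Real.log X) := hlw.le.trans h5
  -- assemble
  obtain ⟨Q, hQ⟩ : ∃ Q : ℝ, Q = ∏ p ∈ (Pr w y).filter (fun p => ¬ p ∣ q), (1 - 1 / (p : ℝ)) := ⟨_, rfl⟩
  have hQ0 : 0 ≤ Q := by
    rw [hQ]
    refine prod_nonneg fun p hp => ?_
    rw [mem_filter] at hp
    have := (fac1 (Pr_prime hp.1)).1
    linarith
  rw [← hQ] at h1 hsplit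
  have h7 : Real.exp (-(2 / Real.log 2)) * Q ≤ C1 / c1 * (Real.log w / Real.log y) := by
    calc _ ≤ (∏ p ∈ D, (1 - 1 / (p : ℝ))) * Q := mul_le_mul_of_nonneg_right h2 hQ0
      _ = ∏ p ∈ Pr w y, (1 - 1 / (p : ℝ)) := hsplit
      _ ≤ _ := h4
  have h8 : Q = Real.exp (2 / Real.log 2) * (Real.exp (-(2 / Real.log 2)) * Q) := by
    rw [← mul_assoc, ← Real.exp_add]
    simp
  refine h1.trans ?_
  rw [h8]
  calc _ ≤ Real.exp (2 / Real.log 2) * (C1 / c1 * (Real.log w / Real.log y)) :=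
        mul_le_mul_of_nonneg_left h7 (Real.exp_pos _).le
    _ ≤ Real.exp (2 / Real.log 2) * (C1 / c1 * (Real.log (Real.log X) / (Real.log X / 2))) := by gcongr
    _ = _ := by ring

/-- the average for an arbitrary index set -/
theorem avg_gen (hA : MGAc) (N : ℕ) : ∃ C : ℝ, 0 < C ∧ ∃ X0 : ℝ, ∀ X : ℝ, X0 ≤ X → ∀ q : ℕ, 1 ≤ q → (q : ℝ) ≤ X →
    ∀ (ι : Type) [Fintype ι], Fintype.card ι ≤ N → ∀ β : ι → ℤ,
    (∀ x, |(β x : ℝ)| ≤ X ^ 3) → ∀ L : ℕ, (L : ℝ) ≤ X →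
    ∑ d ∈ (Icc (-(L : ℤ)) L).filter (fun d => ∀ x, (q : ℤ) * d + β x ≠ 0), ∏ x, GQ q ⌊X⌋₊ (q * d + β x) ≤ C * (L + (Real.log X) ^ (1 / 2 : ℝ)) := by
  classical
  choose C hC X0 h using fun j => hA j
  refine ⟨∑ j ∈ range (N + 1), C j, Finset.sum_pos (fun j _ => hC j) ⟨0, by simp⟩, max 1 (∑ j ∈ range (N + 1), |X0 j|), ?_⟩
  intro X hX q hq hqX ι _ hι β hβ L hL
  obtain ⟨j, hj⟩ : ∃ j, j = Fintype.card ι := ⟨_, rfl⟩
  rw [← hj] at hι
  have hjr : j ∈ range (N + 1) := by rw [mem_range]; omega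
  have e : ι ≃ Fin j := Fintype.equivFinOfCardEq hj.symm
  have hX1 : 1 ≤ X := (le_max_left _ _).trans hX
  have hX0 : X0 j ≤ X := (le_abs_self _).trans ((Finset.single_le_sum (f := fun j => |X0 j|) (fun _ _ => abs_nonneg _) hjr).trans ((le_max_right _ _).trans hX))
  have h1 := h j X hX0 q hq hqX (fun x => β (e.symm x)) (fun x => hβ _) L hL
  have h2 : ∑ d ∈ (Icc (-(L : ℤ)) L).filter (fun d => ∀ x, (q : ℤ) * d + β x ≠ 0), ∏ x, GQ q ⌊X⌋₊ (q * d + β x) =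
      ∑ d ∈ (Icc (-(L : ℤ)) L).filter (fun d => ∀ x : Fin j, (q : ℤ) * d + β (e.symm x) ≠ 0), ∏ x : Fin j, GQ q ⌊X⌋₊ (q * d + β (e.symm x)) := by
    apply Finset.sum_congr
    · ext d
      simp only [mem_filter]
      constructor
      · rintro ⟨h3, h4⟩
        exact ⟨h3, fun x => h4 _⟩
      · rintro ⟨h3, h4⟩
        refine ⟨h3, fun x => ?_⟩
        have := h4 (e x)
        rwa [e.symm_apply_apply] at this
    · intro d _
      exact (Equiv.prod_comp e.symm (fun x => GQ q ⌊X⌋₊ (q * d + β x))).symm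
  rw [h2]
  refine h1.trans ?_
  apply mul_le_mul_of_nonneg_right (Finset.single_le_sum (fun j _ => (hC j).le) hjr)
  have := Real.rpow_nonneg (Real.log_nonneg hX1) (1 / 2)
  positivity

/-- a single product -/
theorem avg_single {C X : ℝ} {q : ℕ} {ι : Type} [Fintype ι] {β : ι → ℤ}
    (h : ∑ d ∈ (Icc (-((0 : ℕ) : ℤ)) ((0 : ℕ) : ℤ)).filter (fun d => ∀ x, (q : ℤ) * d + β x ≠ 0), ∏ x, GQ q ⌊X⌋₊ (q * d + β x) ≤ C * (((0 : ℕ) : ℝ) + (Real.log X) ^ (1 / 2 : ℝ)))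
    (hβ : ∀ x, β x ≠ 0) : ∏ x, GQ q ⌊X⌋₊ (β x) ≤ C * (Real.log X) ^ (1 / 2 : ℝ) := by
  classical
  have h6 : (0 : ℤ) ∈ (Icc (-((0 : ℕ) : ℤ)) ((0 : ℕ) : ℤ)).filter (fun e : ℤ => ∀ x, (q : ℤ) * e + β x ≠ 0) := by
    rw [mem_filter]
    refine ⟨by simp, fun l => ?_⟩
    simpa using hβ l
  have h7 := Finset.single_le_sum (f := fun e : ℤ => ∏ x, GQ q ⌊X⌋₊ (q * e + β x))
    (fun e _ => prod_nonneg fun x _ => GQ_nonneg _ _ _) h6
  have h8 := h7.trans h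
  simpa using h8

/-- the intercepts -/
def bt (E F : Finset ℤ) (C : ℕ) (x : (↥F × ↥E) × Fin C) : ℤ := (x.1.1 : ℤ) - (x.1.2 : ℤ)

theorem prod_form (q n C : ℕ) (E F : Finset ℤ) (s : ℤ) : ∏ x : (↥F × ↥E) × Fin C, GQ q n (q * s + bt E F C x) =
    (∏ f ∈ F, ∏ e ∈ E, GQ q n (f + q * s - e)) ^ C := by
  classical
  rw [Fintype.prod_prod_type]
  simp only [bt, Finset.prod_const, Finset.card_univ, Fintype.card_fin]
  rw [Finset.prod_pow, Fintype.prod_prod_type]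
  congr 1
  rw [← Finset.prod_coe_sort F (fun f => ∏ e ∈ E, GQ q n (f + q * s - e))]
  apply Finset.prod_congr rfl
  intro f _
  rw [← Finset.prod_coe_sort E (fun e => GQ q n (f + q * s - e))]
  apply Finset.prod_congr rfl
  intro e _
  congr 1
  ring

/-- the intercepts for a single form -/
def bu (E : Finset ℤ) (w : ℤ) (C : ℕ) (x : ↥E × Fin C) : ℤ := w - (x.1 : ℤ)

theorem prod_formu (q n C : ℕ) (E : Finset ℤ) (w : ℤ) : ∏ x : ↥E × Fin C, GQ q n (bu E w C x) =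
    (∏ e ∈ E, GQ q n (w - e)) ^ C := by
  classical
  rw [Fintype.prod_prod_type]
  simp only [bu, Finset.prod_const, Finset.card_univ, Fintype.card_fin]
  rw [Finset.prod_pow]
  congr 1
  rw [← Finset.prod_coe_sort E (fun e => GQ q n (w - e))]

open Classical in
/-- the `n` of the window with all the values rough -/
noncomputable def RR (u : ℕ) (D : Finset ℤ) (z : ℝ) (B H : ℕ) : Finset ℕ := (Ioc B (B + H)).filter (fun n : ℕ => ∀ v ∈ D, Ro z (gm u v n))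

theorem mem_RR (u : ℕ) (D : Finset ℤ) (z : ℝ) (B H n : ℕ) : n ∈ RR u D z B H ↔ n ∈ Ioc B (B + H) ∧ ∀ v ∈ D, Ro z (gm u v n) := by
  classical
  unfold RR
  rw [Finset.mem_filter]

open Classical in
/-- the bad `n` for one member of the family -/
noncomputable def Bad (u q : ℕ) (V F : Finset ℤ) (z L : ℝ) (B H : ℕ) : Finset ℕ :=
  (Ioc B (B + H)).filter (fun n : ℕ => (∀ v ∈ V, Ro z (gm u v n)) ∧ ∃ s : ℤ, |(s : ℝ)| ≤ L ∧ (∀ f ∈ F, Ro z (gm u (f + q * s) n)) ∧ ¬ ∀ f ∈ F, f + q * s ∈ V)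

theorem Ro_anti {z z' : ℝ} (h : z ≤ z') {m : ℤ} (hm : Ro z' m) : Ro z m := fun p hp hd => h.trans_lt (hm p hp hd)

theorem Bad_anti (u q : ℕ) (V F : Finset ℤ) {z z' : ℝ} (h : z ≤ z') (L : ℝ) (B H : ℕ) : Bad u q V F z' L B H ⊆ Bad u q V F z L B H := by
  classical
  intro n hn
  rw [Bad, mem_filter] at hn ⊢
  obtain ⟨h1, h2, s, h3, h4, h5⟩ := hn
  exact ⟨h1, fun v hv => Ro_anti h (h2 v hv), s, h3, fun f hf => Ro_anti h (h4 f hf), h5⟩

theorem mem_win {L : ℝ} (hL : 0 ≤ L) (d : ℤ) : d ∈ Icc (-((⌊L⌋₊ : ℕ) : ℤ)) (⌊L⌋₊ : ℕ) ↔ |(d : ℝ)| ≤ L := by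
  have h1 : d ∈ Icc (-((⌊L⌋₊ : ℕ) : ℤ)) (⌊L⌋₊ : ℕ) ↔ d.natAbs ≤ ⌊L⌋₊ := by
    rw [mem_Icc]
    omega
  rw [h1, Nat.le_floor_iff hL, Nat.cast_natAbs]
  push_cast
  rfl

open Classical in
theorem Bad_sub (u q : ℕ) (V F : Finset ℤ) (z : ℝ) {L : ℝ} (hL : 0 ≤ L) (B H : ℕ) :
    Bad u q V F z L B H ⊆ ((Icc (-((⌊L⌋₊ : ℕ) : ℤ)) (⌊L⌋₊ : ℕ)).filter (fun s : ℤ => ¬ ∀ f ∈ F, f + q * s ∈ V)).biUnion
      (fun s => RR u (V ∪ F.image (fun f => f + q * s)) z B H) := by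
  intro n hn
  rw [Bad, mem_filter] at hn
  obtain ⟨h1, h2, s, hs, h3, h4⟩ := hn
  rw [mem_biUnion]
  refine ⟨s, mem_filter.2 ⟨(mem_win hL s).2 hs, h4⟩, ?_⟩
  rw [mem_RR]
  refine ⟨h1, fun d hd => ?_⟩
  rw [mem_union, mem_image] at hd
  rcases hd with hd | ⟨f, hf, rfl⟩
  · exact h2 d hd
  · exact h3 f hf

theorem RR_anti (u : ℕ) {D D' : Finset ℤ} (h : D' ⊆ D) (z : ℝ) (B H : ℕ) : RR u D z B H ⊆ RR u D' z B H := by
  intro n hn
  rw [mem_RR] at hn ⊢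
  exact ⟨hn.1, fun d hd => hn.2 d (h hd)⟩

open Classical in
theorem card_J {q : ℕ} (hq : 1 ≤ q) (V F I : Finset ℤ) : (I.filter (fun s : ℤ => ∃ f ∈ F, f + q * s ∈ V)).card ≤ F.card * V.card := by
  have h1 : (I.filter (fun s : ℤ => ∃ f ∈ F, f + q * s ∈ V)).card ≤ ((F ×ˢ V).image (fun p => p.2 - p.1)).card := by
    refine card_le_card_of_injOn (fun s => (q : ℤ) * s) ?_ ?_
    · intro s hs
      have hs' := mem_filter.1 hs
      obtain ⟨_, f, hf, h2⟩ := hs'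
      rw [mem_coe, mem_image]
      exact ⟨(f, f + q * s), mem_product.2 ⟨hf, h2⟩, by simp⟩
    · intro s _ s' _ h
      have hq0 : (q : ℤ) ≠ 0 := by exact_mod_cast (by omega : q ≠ 0)
      exact mul_left_cancel₀ hq0 h
  refine h1.trans (card_image_le.trans ?_)
  rw [card_product]

open Classical in
/-- the bad `n` of one member of the family -/
theorem per_gamma (hU : MGUc) (hML : St_MGL) (hA : MGAc) (k T : ℕ) (h : ℝ) (hT : 1 ≤ T) (h0 : 0 < h) (h1 : h ≤ 1) :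
    ∃ K : ℝ, 0 < K ∧ ∃ X1 : ℝ, ∀ X : ℝ, X1 ≤ X → ∀ u q : ℕ, 1 ≤ u → 1 ≤ q → (q : ℝ) ≤ X → (∀ p : ℕ, p.Prime → p ∣ u → p ∣ q) →
      ∀ V : Finset ℤ, V.card ≤ k → V.Nonempty → (∀ v ∈ V, |(v : ℝ)| ≤ X ^ 2) →
      ∀ F : Finset ℤ, F.Nonempty → F.card ≤ k → (∀ f ∈ F, |(f : ℝ)| ≤ X ^ 2) → AdQ q F → ∀ L : ℝ, 0 ≤ L → L ≤ X →
      ∀ ν : ℝ, 0 ≤ ν → L * VQ ⌊X⌋₊ q F ≤ ν → ∀ B H : ℕ, X ^ h ≤ H → (H : ℝ) ≤ X →
      ((Bad u q V F (X ^ (1 / (T : ℝ))) L B H).card : ℝ) ≤ K * (H * VQ ⌊X⌋₊ u V) * (ν + Real.log (Real.log X) / (Real.log X) ^ (1 / 2 : ℝ)) := by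
  obtain ⟨C2, hC2, X2, hup⟩ := hU (2 * k + 1) T h hT h0 h1
  obtain ⟨N, hN⟩ : ∃ N : ℕ, N = 2 * (k + 1) ^ 2 + (k + 1) := ⟨_, rfl⟩
  obtain ⟨C3, hC3, X3, hav⟩ := avg_gen hA (k * k * N)
  obtain ⟨C5, hC5, X5, hVO⟩ := VQ_up
  refine ⟨(k * k) * (C2 * C5 * C3) + C2 * C3 * (1 + C5), by positivity, max (max X2 X3) (max X5 (Real.exp 4)), ?_⟩
  intro X hX u q hu hq hqX huq V hV hVn hVb F hF hFc hFb hadm L hL hLn ν hν hLν B H hHl hHu
  have hX2 : X2 ≤ X := (le_max_left _ _).trans ((le_max_left _ _).trans hX)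
  have hX3 : X3 ≤ X := (le_max_right _ _).trans ((le_max_left _ _).trans hX)
  have hX5 : X5 ≤ X := (le_max_left _ _).trans ((le_max_right _ _).trans hX)
  have hXe : Real.exp 4 ≤ X := (le_max_right _ _).trans ((le_max_right _ _).trans hX)
  have hXpos : 0 < X := (Real.exp_pos _).trans_le hXe
  have hlog4 : 4 ≤ Real.log X := (Real.le_log_iff_exp_le hXpos).2 hXe
  have hXl : Real.log X ≤ X - 1 := Real.log_le_sub_one_of_pos hXpos
  have hX4 : 4 ≤ X := by linarith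
  have hk1 : 1 ≤ k := (Finset.card_pos.2 hF).trans_le hFc
  have hlog : 0 < Real.log X := by linarith
  have hloglog : 0 < Real.log (Real.log X) := Real.log_pos (by linarith)
  obtain ⟨ll, hll⟩ : ∃ ll : ℝ, ll = Real.log (Real.log X) := ⟨_, rfl⟩
  rw [← hll] at hloglog
  obtain ⟨Λ, hΛ⟩ : ∃ Λ : ℝ, Λ = (Real.log X) ^ (1 / 2 : ℝ) := ⟨_, rfl⟩
  have hΛpos : 0 < Λ := by rw [hΛ]; positivity
  have hΛ2 : Λ * Λ = Real.log X := by
    rw [hΛ, ← Real.rpow_add (by linarith)]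
    norm_num
  rw [← hΛ, ← hll]
  obtain ⟨P, hP⟩ : ∃ P : ℝ, P = (H : ℝ) := ⟨_, rfl⟩
  obtain ⟨V0, hV0⟩ : ∃ V0 : ℝ, V0 = VQ ⌊X⌋₊ u V := ⟨_, rfl⟩
  obtain ⟨V1, hV1⟩ : ∃ V1 : ℝ, V1 = VQ ⌊X⌋₊ q F := ⟨_, rfl⟩
  have hP0 : 0 ≤ P := by rw [hP]; positivity
  have hV00 : 0 ≤ V0 := hV0 ▸ VQ_nonneg _ _ _
  have hV10 : 0 ≤ V1 := hV1 ▸ VQ_nonneg _ _ _
  have hV1u : V1 ≤ C5 * (ll / Real.log X) := by rw [hV1, hll]; exact hVO X hX5 q hq hqX F hF
  rw [← hP, ← hV0]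
  rw [← hV1] at hLν
  obtain ⟨z, hz⟩ : ∃ z : ℝ, z = X ^ (1 / (T : ℝ)) := ⟨_, rfl⟩
  rw [← hz]
  have hsz : ∀ s ∈ Icc (-((⌊L⌋₊ : ℕ) : ℤ)) (⌊L⌋₊ : ℕ), |(s : ℝ)| ≤ X := fun s hs => ((mem_win hL s).1 hs).trans hLn
  have hn3 : 3 * X ^ 2 ≤ X ^ 3 := by nlinarith [sq_nonneg X]
  have hUP : ∀ D : Finset ℤ, D.card ≤ 2 * k + 1 → D.Nonempty → ((RR u D z B H).card : ℝ) ≤ C2 * (P * VQ ⌊X⌋₊ u D) := by
    intro D hD hDn
    have := hup X hX2 u hu D hD hDn B H hHl hHu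
    rw [hP]
    refine le_trans (le_of_eq ?_) this
    rw [hz]
    unfold RR
    rfl
  have hV' : V.card ≤ k + 1 := by omega
  -- case (b)
  have hb : ∀ s ∈ Icc (-((⌊L⌋₊ : ℕ) : ℤ)) (⌊L⌋₊ : ℕ), (¬ ∀ f ∈ F, f + q * s ∈ V) →
      ((RR u (V ∪ F.image (fun f => f + q * s)) z B H).card : ℝ) ≤ C2 * C5 * C3 * (P * V0 * (ll / Λ)) := by
    intro s hs hne
    push Not at hne
    obtain ⟨f₀, hf₀, hsf⟩ := hne
    have h1 : ((RR u (V ∪ F.image (fun f => f + q * s)) z B H).card : ℝ) ≤ ((RR u (V ∪ ({f₀} : Finset ℤ).image (fun f => f + q * s)) z B H).card : ℝ) := by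
      have : (RR u (V ∪ F.image (fun f => f + q * s)) z B H).card ≤ (RR u (V ∪ ({f₀} : Finset ℤ).image (fun f => f + q * s)) z B H).card := by
        apply card_le_card
        apply RR_anti
        apply union_subset_union_right
        apply image_subset_image
        rw [singleton_subset_iff]
        exact hf₀
      exact_mod_cast this
    have h2 := hUP (V ∪ ({f₀} : Finset ℤ).image (fun f => f + q * s)) (by
      refine (card_union_le _ _).trans ?_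
      have : (({f₀} : Finset ℤ).image (fun f => f + q * s)).card ≤ 1 := by
        refine card_image_le.trans ?_
        simp
      omega) (hVn.mono subset_union_left)
    have hadm1 : AdQ q ({f₀} : Finset ℤ) := by
      intro l hl _
      refine ⟨1 - f₀, fun f hf hd => ?_⟩
      rw [mem_singleton] at hf
      rw [hf] at hd
      have e : 1 - f₀ + f₀ = 1 := by ring
      rw [e] at hd
      have h3 : (l : ℤ) ≤ 1 := Int.le_of_dvd one_pos hd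
      have h4 : l ≤ 1 := by exact_mod_cast h3
      have := hl.two_le
      omega
    have h3 := hML (k + 1) ⌊X⌋₊ u q huq V {f₀} hV' (by simp) hadm1 s
    rw [prod_singleton, ← hN] at h3
    have h4 := hVO X hX5 q hq hqX {f₀} (singleton_nonempty _)
    rw [← hll] at h4
    have h5 := VQ_nonneg ⌊X⌋₊ q {f₀}
    have h6 := hav X hX3 q hq hqX (↥V × Fin N) (by
      rw [Fintype.card_prod, Fintype.card_coe, Fintype.card_fin]
      have : V.card ≤ k * k := by nlinarith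
      exact Nat.mul_le_mul_right _ this) (bu V (f₀ + q * s) N) (by
      rintro ⟨e, i⟩
      show |(((f₀ + q * s - (e : ℤ) : ℤ)) : ℝ)| ≤ _
      push_cast
      have h7 := abs_sub ((f₀ : ℝ) + q * s) (e : ℤ)
      have h9 := abs_add_le (f₀ : ℝ) ((q : ℝ) * s)
      have h10 : |(q : ℝ) * s| ≤ X ^ 2 := by
        rw [abs_mul, Nat.abs_cast, sq]
        have := hsz s hs
        gcongr
      have h8 := hVb (e : ℤ) e.2
      have h11 := hFb f₀ hf₀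
      linarith) 0 (by simpa using hXpos.le)
    have h7 := avg_single h6 (by
      rintro ⟨e, i⟩
      show f₀ + q * s - (e : ℤ) ≠ 0
      intro h
      apply hsf
      rw [sub_eq_zero.1 h]
      exact e.2)
    rw [prod_formu, ← hΛ] at h7
    have h8 : 0 ≤ (∏ e ∈ V, GQ q ⌊X⌋₊ (f₀ + q * s - e)) ^ N :=
      pow_nonneg (prod_nonneg fun e _ => GQ_nonneg _ _ _) _
    calc ((RR u (V ∪ F.image (fun f => f + q * s)) z B H).card : ℝ)
        ≤ C2 * (P * VQ ⌊X⌋₊ u (V ∪ ({f₀} : Finset ℤ).image (fun f => f + q * s))) := h1.trans h2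
      _ ≤ C2 * (P * (VQ ⌊X⌋₊ u V * VQ ⌊X⌋₊ q {f₀} * (∏ e ∈ V, GQ q ⌊X⌋₊ (f₀ + q * s - e)) ^ N)) := by
        gcongr
      _ ≤ C2 * (P * (V0 * (C5 * (ll / Real.log X)) * (C3 * Λ))) := by
        rw [← hV0]
        gcongr
      _ = C2 * C5 * C3 * (P * V0 * (ll / Λ)) := by
        rw [← hΛ2]
        field_simp
  -- case (c)
  have hc : ∀ s ∈ Icc (-((⌊L⌋₊ : ℕ) : ℤ)) (⌊L⌋₊ : ℕ), (¬ ∃ f ∈ F, f + q * s ∈ V) →
      ((RR u (V ∪ F.image (fun f => f + q * s)) z B H).card : ℝ) ≤ C2 * (P * V0 * V1) * ∏ x : (↥F × ↥V) × Fin N, GQ q ⌊X⌋₊ (q * s + bt V F N x) := by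
    intro s hs hne
    have h2 := hUP (V ∪ F.image (fun f => f + q * s)) (by
      refine (card_union_le _ _).trans ?_
      have : (F.image (fun f => f + q * s)).card ≤ F.card := card_image_le
      omega) (hVn.mono subset_union_left)
    have h3 := hML (k + 1) ⌊X⌋₊ u q huq V F hV' (by omega) hadm s
    rw [← hN] at h3
    rw [prod_form]
    calc ((RR u (V ∪ F.image (fun f => f + q * s)) z B H).card : ℝ)
        ≤ C2 * (P * VQ ⌊X⌋₊ u (V ∪ F.image (fun f => f + q * s))) := h2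
      _ ≤ C2 * (P * (VQ ⌊X⌋₊ u V * VQ ⌊X⌋₊ q F * (∏ f ∈ F, ∏ e ∈ V, GQ q ⌊X⌋₊ (f + q * s - e)) ^ N)) := by
        gcongr
      _ = _ := by
        rw [← hV0, ← hV1]
        ring
  -- the sum of case (c)
  have hF1 : F.card * V.card ≤ k * k := Nat.mul_le_mul hFc hV
  have hsumc := hav X hX3 q hq hqX ((↥F × ↥V) × Fin N) (by
    rw [Fintype.card_prod, Fintype.card_prod, Fintype.card_coe, Fintype.card_coe, Fintype.card_fin]
    exact Nat.mul_le_mul_right _ hF1) (bt V F N) (by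
    rintro ⟨⟨f, e⟩, i⟩
    show |(((f : ℤ) - (e : ℤ) : ℤ) : ℝ)| ≤ _
    push_cast
    have h7 := abs_sub ((f : ℤ) : ℝ) ((e : ℤ) : ℝ)
    have h8 := hVb (e : ℤ) e.2
    have h9 := hFb (f : ℤ) f.2
    have : 0 ≤ X ^ 2 := by positivity
    linarith) ⌊L⌋₊ ((Nat.floor_le hL).trans hLn)
  rw [← hΛ] at hsumc
  have hfl : ((⌊L⌋₊ : ℕ) : ℝ) ≤ L := Nat.floor_le hL
  -- the union bound
  have hcard := card_le_card (Bad_sub u q V F z hL B H)
  have hcard2 : ((Bad u q V F z L B H).card : ℝ) ≤ ∑ s ∈ (Icc (-((⌊L⌋₊ : ℕ) : ℤ)) (⌊L⌋₊ : ℕ)).filter (fun s : ℤ => ¬ ∀ f ∈ F, f + q * s ∈ V),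
      ((RR u (V ∪ F.image (fun f => f + q * s)) z B H).card : ℝ) := by
    exact_mod_cast hcard.trans card_biUnion_le
  refine hcard2.trans ?_
  rw [← sum_filter_add_sum_filter_not _ (fun s : ℤ => ∃ f ∈ F, f + q * s ∈ V)]
  have hB : ∑ s ∈ ((Icc (-((⌊L⌋₊ : ℕ) : ℤ)) (⌊L⌋₊ : ℕ)).filter (fun s : ℤ => ¬ ∀ f ∈ F, f + q * s ∈ V)).filter (fun s : ℤ => ∃ f ∈ F, f + q * s ∈ V),
      ((RR u (V ∪ F.image (fun f => f + q * s)) z B H).card : ℝ) ≤ (k * k) * (C2 * C5 * C3 * (P * V0 * (ll / Λ))) := by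
    have h1 : ∑ s ∈ ((Icc (-((⌊L⌋₊ : ℕ) : ℤ)) (⌊L⌋₊ : ℕ)).filter (fun s : ℤ => ¬ ∀ f ∈ F, f + q * s ∈ V)).filter (fun s : ℤ => ∃ f ∈ F, f + q * s ∈ V),
      ((RR u (V ∪ F.image (fun f => f + q * s)) z B H).card : ℝ) ≤
        ∑ s ∈ ((Icc (-((⌊L⌋₊ : ℕ) : ℤ)) (⌊L⌋₊ : ℕ)).filter (fun s : ℤ => ¬ ∀ f ∈ F, f + q * s ∈ V)).filter (fun s : ℤ => ∃ f ∈ F, f + q * s ∈ V),
          (C2 * C5 * C3 * (P * V0 * (ll / Λ))) := by
      apply sum_le_sum
      intro s hs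
      rw [mem_filter, mem_filter] at hs
      exact hb s hs.1.1 hs.1.2
    refine h1.trans ?_
    rw [sum_const, nsmul_eq_mul]
    apply mul_le_mul_of_nonneg_right _ (by positivity)
    have h2 := card_J hq V F ((Icc (-((⌊L⌋₊ : ℕ) : ℤ)) (⌊L⌋₊ : ℕ)).filter (fun s : ℤ => ¬ ∀ f ∈ F, f + q * s ∈ V))
    exact_mod_cast h2.trans hF1
  have hCs : ∑ s ∈ ((Icc (-((⌊L⌋₊ : ℕ) : ℤ)) (⌊L⌋₊ : ℕ)).filter (fun s : ℤ => ¬ ∀ f ∈ F, f + q * s ∈ V)).filter (fun s : ℤ => ¬ ∃ f ∈ F, f + q * s ∈ V),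
      ((RR u (V ∪ F.image (fun f => f + q * s)) z B H).card : ℝ) ≤ C2 * (P * V0 * V1) * (C3 * (L + Λ)) := by
    have h1 : ∑ s ∈ ((Icc (-((⌊L⌋₊ : ℕ) : ℤ)) (⌊L⌋₊ : ℕ)).filter (fun s : ℤ => ¬ ∀ f ∈ F, f + q * s ∈ V)).filter (fun s : ℤ => ¬ ∃ f ∈ F, f + q * s ∈ V),
      ((RR u (V ∪ F.image (fun f => f + q * s)) z B H).card : ℝ) ≤
        ∑ s ∈ ((Icc (-((⌊L⌋₊ : ℕ) : ℤ)) (⌊L⌋₊ : ℕ)).filter (fun s : ℤ => ¬ ∀ f ∈ F, f + q * s ∈ V)).filter (fun s : ℤ => ¬ ∃ f ∈ F, f + q * s ∈ V),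
          (C2 * (P * V0 * V1) * ∏ x : (↥F × ↥V) × Fin N, GQ q ⌊X⌋₊ (q * s + bt V F N x)) := by
      apply sum_le_sum
      intro s hs
      rw [mem_filter, mem_filter] at hs
      exact hc s hs.1.1 hs.2
    refine h1.trans ?_
    rw [← mul_sum]
    apply mul_le_mul_of_nonneg_left _ (by positivity)
    have h2 : ∑ s ∈ ((Icc (-((⌊L⌋₊ : ℕ) : ℤ)) (⌊L⌋₊ : ℕ)).filter (fun s : ℤ => ¬ ∀ f ∈ F, f + q * s ∈ V)).filter (fun s : ℤ => ¬ ∃ f ∈ F, f + q * s ∈ V),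
        ∏ x : (↥F × ↥V) × Fin N, GQ q ⌊X⌋₊ (q * s + bt V F N x) ≤
        ∑ d ∈ (Icc (-((⌊L⌋₊ : ℕ) : ℤ)) (⌊L⌋₊ : ℕ)).filter (fun d => ∀ x, (q : ℤ) * d + bt V F N x ≠ 0), ∏ x : (↥F × ↥V) × Fin N, GQ q ⌊X⌋₊ (q * d + bt V F N x) := by
      apply sum_le_sum_of_subset_of_nonneg
      · intro s hs
        rw [mem_filter, mem_filter] at hs
        obtain ⟨⟨h3, _⟩, h4⟩ := hs
        push Not at h4
        rw [mem_filter]
        refine ⟨h3, ?_⟩
        rintro ⟨⟨f, e⟩, i⟩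
        show (q : ℤ) * s + ((f : ℤ) - (e : ℤ)) ≠ 0
        intro h
        apply h4 f f.2
        have : (f : ℤ) + q * s = e := by linarith
        rw [this]
        exact e.2
      · intro s _ _
        exact prod_nonneg fun x _ => GQ_nonneg _ _ _
    refine h2.trans (hsumc.trans ?_)
    gcongr
  refine (add_le_add hB hCs).trans ?_
  have e1 : V1 * (L + Λ) ≤ (1 + C5) * (ν + ll / Λ) := by
    have h1 : V1 * Λ ≤ C5 * (ll / Λ) := by
      calc V1 * Λ ≤ C5 * (ll / Real.log X) * Λ := by gcongr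
        _ = C5 * (ll / Λ) := by
          rw [← hΛ2]
          field_simp
    have h2 : 0 ≤ ll / Λ := by positivity
    nlinarith [mul_nonneg hC5.le hν]
  have e2 : C2 * (P * V0 * V1) * (C3 * (L + Λ)) ≤ C2 * C3 * (P * V0) * ((1 + C5) * (ν + ll / Λ)) := by
    calc C2 * (P * V0 * V1) * (C3 * (L + Λ)) = C2 * C3 * (P * V0) * (V1 * (L + Λ)) := by ring
      _ ≤ _ := by gcongr
  have e3 : (k * k) * (C2 * C5 * C3 * (P * V0 * (ll / Λ))) ≤ (k * k) * (C2 * C5 * C3) * (P * V0) * (ν + ll / Λ) := by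
    have : (k * k) * (C2 * C5 * C3 * (P * V0 * (ll / Λ))) = (k * k) * (C2 * C5 * C3) * (P * V0) * (ll / Λ) := by ring
    rw [this]
    gcongr
    linarith
  calc _ ≤ (k * k) * (C2 * C5 * C3) * (P * V0) * (ν + ll / Λ) + C2 * C3 * (P * V0) * ((1 + C5) * (ν + ll / Λ)) := add_le_add e3 e2
    _ = _ := by ring

theorem ev_ll (A : ℝ) : ∃ X0 : ℝ, ∀ X : ℝ, X0 ≤ X → 1 < Real.log X ∧ A * Real.log (Real.log X) ≤ (Real.log X) ^ (1 / 2 : ℝ) := by
  have h1 : (fun x : ℝ => A * Real.log x) =o[atTop] fun x => x ^ (1 / 2 : ℝ) :=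
    (isLittleO_log_rpow_atTop (by norm_num)).const_mul_left A
  have h2 := h1.bound one_pos
  have h3 : ∀ᶠ x : ℝ in atTop, 1 < x ∧ A * Real.log x ≤ x ^ (1 / 2 : ℝ) := by
    filter_upwards [h2, eventually_gt_atTop (1 : ℝ)] with x hx hx1
    refine ⟨hx1, ?_⟩
    rw [one_mul, Real.norm_eq_abs, Real.norm_eq_abs, abs_of_nonneg (Real.rpow_nonneg (by linarith) _)] at hx
    exact (le_abs_self _).trans hx
  exact eventually_atTop.1 (Real.tendsto_log_atTop.eventually h3)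

end Pool.Agent.Q117.MG.MGNa

namespace Pool.Agent.Q117.MG

open Finset Filter
open Pool.Agent.Q117.LF (Ro oF)
open Pool.Agent.Q117.AP (AdQ VQ)
open MGNa

open Classical in
theorem mgn : St_MGN := by
  intro hE hU hML hA k g R h hR h1 h25
  obtain ⟨t, ht, θ, hθ, c, hc, X0, hlow⟩ := hE k R h hR h1 h25
  refine ⟨t, ht, θ, hθ, ?_⟩
  intro T hT
  have hh0 : 0 < h := by
    have hR' : (1 : ℝ) ≤ R := by exact_mod_cast hR
    by_contra hcon
    push Not at hcon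
    have : 3 * (8 * (R : ℝ) - 1) * h ≤ 0 := mul_nonpos_of_nonneg_of_nonpos (by linarith) hcon
    linarith
  have hT1 : 1 ≤ T := ht.trans hT
  obtain ⟨K, hK, X1, hbad⟩ := per_gamma hU hML hA k T h hT1 hh0 h1
  have hgK : 0 < (g : ℝ) * K + 1 := by positivity
  obtain ⟨X3, hX3⟩ := ev_ll (4 * ((g : ℝ) * K + 1) / c)
  refine ⟨c / 2, by positivity, c / (4 * ((g : ℝ) * K + 1)), by positivity, max (max X0 X1) (max X3 1), ?_⟩
  intro X hX u q hu hq huX hqX huq V hV hVb hCu hAd v₀ hv₀ F hF L hL z hz1 hz2 B H hHl hHu hsize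
  have h0 : X0 ≤ X := (le_max_left _ _).trans ((le_max_left _ _).trans hX)
  have h1' : X1 ≤ X := (le_max_right _ _).trans ((le_max_left _ _).trans hX)
  obtain ⟨hl1, h3⟩ := hX3 X ((le_max_left _ _).trans ((le_max_right _ _).trans hX))
  have hX1 : (1 : ℝ) ≤ X := (le_max_right _ _).trans ((le_max_right _ _).trans hX)
  have hlow' := hlow X h0 u hu V hV hCu hAd v₀ hv₀ 1 0 le_rfl (by
    rw [Nat.cast_one]
    exact Real.one_le_rpow hX1 hθ.le) (by simpa using huX) (by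
    intro p hp hp1
    exact absurd (Nat.dvd_one.1 hp1) hp.one_lt.ne') B H hHl hHu hsize
  rw [Nat.cast_one, div_one, mul_one] at hlow'
  obtain ⟨M, hM⟩ : ∃ M : ℝ, M = H * VQ ⌊X⌋₊ u V := ⟨_, rfl⟩
  have hM0 : 0 ≤ M := by
    rw [hM]
    exact mul_nonneg (by positivity) (VQ_nonneg _ _ _)
  rw [← hM] at hlow'
  rw [← hM]
  obtain ⟨Λ, hΛ⟩ : ∃ Λ : ℝ, Λ = (Real.log X) ^ (1 / 2 : ℝ) := ⟨_, rfl⟩
  obtain ⟨ll, hll⟩ : ∃ ll : ℝ, ll = Real.log (Real.log X) := ⟨_, rfl⟩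
  rw [← hΛ, ← hll] at h3
  have hΛpos : 0 < Λ := by rw [hΛ]; exact Real.rpow_pos_of_pos (by linarith) _
  have hll0 : 0 < ll := by rw [hll]; exact Real.log_pos hl1
  have hsub : PtsM u V v₀ R 1 0 (X ^ (h / 6)) (X ^ (1 / (t : ℝ))) B H ⊆
      PtsN u q V v₀ R (X ^ (h / 6)) z L F B H ∪ (Finset.univ : Finset (Fin g)).biUnion (fun γ => Bad u q V (F γ) z (L γ) B H) := by
    intro n hn
    unfold PtsM at hn
    rw [mem_filter] at hn
    obtain ⟨hn1, _, hn2, hn3, hn4⟩ := hn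
    have hn5 : ∀ v ∈ V, Ro z (gm u v n) := fun v hv => Ro_anti hz2 (hn4 v hv)
    rw [mem_union]
    by_cases hqq : ∀ γ, ∀ s : ℤ, |(s : ℝ)| ≤ L γ → (∀ f ∈ F γ, Ro z (gm u (f + q * s) n)) → ∀ f ∈ F γ, f + q * s ∈ V
    · left
      unfold PtsN
      rw [mem_filter]
      exact ⟨hn1, hn2, hn3, hn5, hqq⟩
    · right
      simp only [not_forall] at hqq
      obtain ⟨γ, s, hs, hs2, f, hf, hs3⟩ := hqq
      rw [mem_biUnion]
      refine ⟨γ, mem_univ _, ?_⟩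
      rw [Bad, mem_filter]
      exact ⟨hn1, hn5, s, hs, hs2, fun h => hs3 (h f hf)⟩
  have hcard := (card_le_card hsub).trans ((card_union_le _ _).trans (Nat.add_le_add_left card_biUnion_le _))
  have hcardR : ((PtsM u V v₀ R 1 0 (X ^ (h / 6)) (X ^ (1 / (t : ℝ))) B H).card : ℝ) ≤
      ((PtsN u q V v₀ R (X ^ (h / 6)) z L F B H).card : ℝ) + ∑ γ, ((Bad u q V (F γ) z (L γ) B H).card : ℝ) := by
    exact_mod_cast hcard
  have hsum : ∑ γ, ((Bad u q V (F γ) z (L γ) B H).card : ℝ) ≤ ∑ _γ : Fin g, K * M * (c / (4 * ((g : ℝ) * K + 1)) + ll / Λ) := by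
    apply sum_le_sum
    intro γ _
    obtain ⟨hF1, hF2, hF3, hF4⟩ := hF γ
    obtain ⟨hL1, hL2, hL3⟩ := hL γ
    have h5 := hbad X h1' u q hu hq hqX huq V hV ⟨v₀, hv₀⟩ hVb (F γ) hF1 hF2 hF3 hF4 (L γ) hL1 hL2 (c / (4 * ((g : ℝ) * K + 1))) (by positivity) hL3 B H hHl hHu
    rw [← hM, ← hll, ← hΛ] at h5
    refine le_trans ?_ h5
    exact_mod_cast card_le_card (Bad_anti u q V (F γ) hz1 (L γ) B H)
  rw [sum_const, card_univ, Fintype.card_fin, nsmul_eq_mul] at hsum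
  have h4 : ll / Λ ≤ c / (4 * ((g : ℝ) * K + 1)) := by
    rw [div_le_div_iff₀ hΛpos (by positivity)]
    rw [div_mul_eq_mul_div, div_le_iff₀ hc] at h3
    linarith
  have h5 : (g : ℝ) * (K * M * (c / (4 * ((g : ℝ) * K + 1)) + ll / Λ)) ≤ c / 2 * M := by
    calc (g : ℝ) * (K * M * (c / (4 * ((g : ℝ) * K + 1)) + ll / Λ))
        ≤ (g : ℝ) * (K * M * (c / (4 * ((g : ℝ) * K + 1)) + c / (4 * ((g : ℝ) * K + 1)))) := by gcongr
      _ = ((g : ℝ) * K / ((g : ℝ) * K + 1)) * (c / 2 * M) := by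
        field_simp
        ring
      _ ≤ 1 * (c / 2 * M) := by
        apply mul_le_mul_of_nonneg_right _ (by positivity)
        rw [div_le_one hgK]
        linarith
      _ = _ := one_mul _
  linarith

end Pool.Agent.Q117.MG
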