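import Pool.Agent.Q117.MG.Stm
import Pool.Agent.Q117.AP.Uge

/-!
Project MG (helper117), job MGU: the upper bound.
-/

set_option autoImplicit false

namespace Pool.Agent.Q117.MG

open Finset Filter
open Pool.Agent.Q117.LF (Ro oF)
open Pool.Agent.Q117.AP (AdQ VQ)
open Pool.Agent.Q253.Thin (SysZ IS int_upper)
open Pool.Agent.Y843.HS (Pr VV Pr_mem)
open Pool.Agent.Y843.HG (V1 V1_bounds)
open Pool.Agent.Q117.AP.UGEa (oF_eq card_cast oF_le')

namespace MGUa

theorem gm_mod (u : ℕ) (v : ℤ) (p n : ℕ) :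
    (p : ℤ) ∣ gm u v (n % p) ↔ (p : ℤ) ∣ gm u v n := by
  unfold gm
  have e1 : (u : ℤ) * n + v = (u : ℤ) * ((n % p : ℕ) : ℤ) + v +
      p * ((u : ℤ) * (n / p : ℕ)) := by
    have : (n : ℤ) = ((n % p : ℕ) : ℤ) + p * ((n / p : ℕ) : ℤ) := by
      exact_mod_cast (Nat.mod_add_div n p).symm
    conv_lhs => rw [this]
    ring
  rw [e1]
  exact (dvd_add_left (dvd_mul_right _ _)).symm

theorem gcast {u : ℕ} {v : ℤ} {p n : ℕ} : (p : ℤ) ∣ gm u v n ↔
    (u : ZMod p) * (n : ZMod p) + (v : ZMod p) = 0 := by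
  rw [← ZMod.intCast_zmod_eq_zero_iff_dvd]
  unfold gm
  push_cast
  rfl

open Classical in
/-- the classes which contain a root, for the primes that do not divide `u` -/
noncomputable def Zm (u : ℕ) (V : Finset ℤ) (p : ℕ) : Finset ℕ :=
  if p ∣ u then ∅ else (range p).filter (fun n : ℕ => ∃ v ∈ V, (p : ℤ) ∣ gm u v n)

theorem mem_Zm {u : ℕ} {V : Finset ℤ} {p n : ℕ} :
    n ∈ Zm u V p ↔ ¬ p ∣ u ∧ n < p ∧ ∃ v ∈ V, (p : ℤ) ∣ gm u v n := by
  unfold Zm
  split_ifs with h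
  · simp [h]
  · rw [mem_filter, mem_range]
    simp [h]

theorem Zm_u {u : ℕ} (V : Finset ℤ) {p : ℕ} (hu : p ∣ u) : Zm u V p = ∅ := by
  unfold Zm
  rw [if_pos hu]

theorem Zm_card {u : ℕ} (V : Finset ℤ) {p : ℕ}
    (hp : p.Prime) (hu : ¬ p ∣ u) : (Zm u V p).card = oF V p := by
  classical
  have : Fact p.Prime := ⟨hp⟩
  have huz : (u : ZMod p) ≠ 0 := by
    rw [Ne, ZMod.natCast_eq_zero_iff]
    exact hu
  rw [card_cast (Zm u V p) fun n hn => (mem_Zm.1 hn).2.1]
  have himg : (Zm u V p).image (fun n : ℕ => (n : ZMod p)) =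
      V.image (fun v : ℤ => -(v : ZMod p) / (u : ZMod p)) := by
    ext x
    rw [mem_image, mem_image]
    constructor
    · rintro ⟨n, hn, rfl⟩
      obtain ⟨-, -, v, hv, h⟩ := mem_Zm.1 hn
      refine ⟨v, hv, ?_⟩
      rw [gcast] at h
      rw [div_eq_iff huz]
      linear_combination -h
    · rintro ⟨v, hv, rfl⟩
      refine ⟨(-(v : ZMod p) / (u : ZMod p)).val, ?_, ?_⟩
      · rw [mem_Zm]
        refine ⟨hu, ZMod.val_lt _, v, hv, ?_⟩
        rw [gcast, ZMod.natCast_zmod_val]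
        field_simp
        ring
      · rw [ZMod.natCast_zmod_val]
  rw [himg, oF_eq V hp.pos]
  have h1 : V.image (fun v : ℤ => -(v : ZMod p) / (u : ZMod p)) =
      (V.image (fun v : ℤ => (v : ZMod p))).image
        (fun x : ZMod p => -x / (u : ZMod p)) := by
    rw [image_image]
    rfl
  rw [h1, card_image_of_injective]
  intro x y hxy
  change -x / (u : ZMod p) = -y / (u : ZMod p) at hxy
  rw [div_left_inj' huz, neg_inj] at hxy
  exact hxy

theorem oF_le_k {k : ℕ} {V : Finset ℤ} (hV : V.card ≤ k) (p : ℕ) : oF V p ≤ k + 1 := by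
  have : oF V p ≤ V.card := card_image_le
  omega

/-- comparison of the products at two scales -/
lemma scales (k : ℕ) (h : ℝ) (hh : 0 < h) : ∃ C : ℝ, 0 < C ∧ ∀ (X H u : ℕ) (V : Finset ℤ),
    V.card ≤ k → (∀ p : ℕ, p.Prime → (Zm u V p).card < p) →
    2 ≤ H → H ≤ X → 2 * (k + 1) ≤ H → h * Real.log X ≤ Real.log H →
      VV (Zm u V) 0 H ≤ C * VQ X u V := by
  classical
  obtain ⟨c, C, hc, hC, hV⟩ := V1_bounds
  refine ⟨(C / (c * h)) ^ (2 * (k + 1)), by positivity, ?_⟩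
  intro X H u V hEk hloc hH2 hHX hHk hlog
  have hlH : 0 < Real.log H := Real.log_pos (by exact_mod_cast (show 1 < H by omega))
  have hlX : 0 < Real.log X := Real.log_pos (by exact_mod_cast (show 1 < X by omega))
  have hsplit : Pr 0 X = Pr 0 H ∪ Pr H X := by
    ext p
    rw [mem_union, Pr_mem, Pr_mem, Pr_mem]
    constructor
    · rintro ⟨⟨h1, h2⟩, h3⟩
      rcases Nat.lt_or_ge H p with h4 | h4
      · exact Or.inr ⟨⟨h4, h2⟩, h3⟩
      · exact Or.inl ⟨⟨h1, h4⟩, h3⟩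
    · rintro (⟨⟨h1, h2⟩, h3⟩ | ⟨⟨h1, h2⟩, h3⟩)
      · exact ⟨⟨h1, by omega⟩, h3⟩
      · exact ⟨⟨by omega, h2⟩, h3⟩
  have hdisj : Disjoint (Pr 0 H) (Pr H X) := by
    rw [disjoint_left]
    intro p h1 h2
    rw [Pr_mem] at h1 h2
    omega
  -- the local factors of `VQ`
  obtain ⟨L, hL⟩ : ∃ L : ℕ → ℝ, L = fun p => if ¬ p ∣ u then 1 - (oF V p : ℝ) / p else 1 := ⟨_, rfl⟩
  have hVG : VQ X u V = ∏ p ∈ Pr 0 X, L p := by
    unfold VQ
    have : Pr 0 X = (Icc 1 X).filter Nat.Prime := by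
      ext p
      rw [Pr_mem, mem_filter, mem_Icc]
      constructor
      · rintro ⟨⟨h3, h4⟩, h5⟩
        exact ⟨⟨h3, h4⟩, h5⟩
      · rintro ⟨⟨h3, h4⟩, h5⟩
        exact ⟨⟨h3, h4⟩, h5⟩
    rw [this, ← filter_filter, prod_filter, hL]
  have hLeq : ∀ p ∈ Pr 0 H, 1 - ((Zm u V p).card : ℝ) / p = L p := by
    intro p hp
    have hpp := (Pr_mem.1 hp).2
    rw [hL]
    by_cases hu : p ∣ u
    · simp only [hu, not_true_eq_false, if_false]
      rw [Zm_u V hu, card_empty, Nat.cast_zero, zero_div, sub_zero]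
    · simp only [hu, not_false_eq_true, if_true]
      rw [Zm_card V hpp hu]
  have hVN : VQ X u V = VV (Zm u V) 0 H * ∏ p ∈ Pr H X, L p := by
    rw [hVG, hsplit, prod_union hdisj]
    congr 1
    unfold VV
    exact (prod_congr rfl hLeq).symm
  have hV1 : V1 X = V1 H * ∏ p ∈ Pr H X, (1 - 1 / (p : ℝ)) := by
    unfold V1
    rw [hsplit, prod_union hdisj]
  obtain ⟨x1, x2⟩ := hV X (by omega)
  obtain ⟨y1, y2⟩ := hV H hH2
  have hV1H : 0 < V1 H := lt_of_lt_of_le (by positivity) y1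
  have hq : c * h / C ≤ ∏ p ∈ Pr H X, (1 - 1 / (p : ℝ)) := by
    have e : ∏ p ∈ Pr H X, (1 - 1 / (p : ℝ)) = V1 X / V1 H := by
      rw [hV1, mul_div_cancel_left₀ _ hV1H.ne']
    rw [e, le_div_iff₀ hV1H]
    calc c * h / C * V1 H ≤ c * h / C * (C / Real.log H) :=
          mul_le_mul_of_nonneg_left y2 (by positivity)
      _ = c * h / Real.log H := by field_simp
      _ ≤ c / Real.log X := by
          rw [div_le_div_iff₀ hlH hlX]
          nlinarith
      _ ≤ _ := x1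
  have hlow : (c * h / C) ^ (2 * (k + 1)) ≤ ∏ p ∈ Pr H X, L p := by
    refine (pow_le_pow_left₀ (by positivity) hq (2 * (k + 1))).trans ?_
    rw [← prod_pow]
    refine prod_le_prod (fun p hp => ?_) fun p hp => ?_
    · rw [Pr_mem] at hp
      have h1 : (1 : ℝ) ≤ p := by exact_mod_cast hp.2.one_le
      have h2 : 1 / (p : ℝ) ≤ 1 := by rw [div_le_one (by linarith)]; exact h1
      exact pow_nonneg (by linarith) _
    · rw [Pr_mem] at hp
      have hp1 : (1 : ℝ) ≤ p := by exact_mod_cast hp.2.one_le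
      have hp0 : (0 : ℝ) < p := by linarith
      have h2 : 1 / (p : ℝ) ≤ 1 := by rw [div_le_one hp0]; exact hp1
      rw [hL]
      by_cases hu : p ∣ u
      · simp only [hu, not_true_eq_false, if_false]
        refine pow_le_one₀ (by linarith) ?_
        have : 0 ≤ 1 / (p : ℝ) := by positivity
        linarith
      · simp only [hu, not_false_eq_true, if_true]
        have h3 : 2 * (((k + 1 : ℕ) : ℝ) * (1 / (p : ℝ))) ≤ 1 := by
          have h4 : (2 * ((k + 1 : ℕ) : ℝ)) ≤ p := by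
            exact_mod_cast (show 2 * (k + 1) ≤ p by omega)
          rw [← mul_assoc, mul_one_div, div_le_one hp0]
          exact h4
        refine (Pool.Agent.Q117.SI.UBI.bern (k + 1) (1 / (p : ℝ)) (by positivity) h2 h3).trans ?_
        have h5 : (oF V p : ℝ) ≤ ((k + 1 : ℕ) : ℝ) := by
          exact_mod_cast oF_le_k hEk p
        have h6 : (oF V p : ℝ) / p ≤ ((k + 1 : ℕ) : ℝ) * (1 / (p : ℝ)) := by
          rw [mul_one_div]
          exact div_le_div_of_nonneg_right h5 hp0.le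
        linarith
  have hVH0 : 0 ≤ VV (Zm u V) 0 H := by
    unfold VV
    refine prod_nonneg fun p hp => ?_
    have hpp := (Pr_mem.1 hp).2
    have hp0 : (0 : ℝ) < p := by exact_mod_cast hpp.pos
    rw [sub_nonneg, div_le_one hp0]
    exact_mod_cast (hloc p hpp).le
  have hone : (C / (c * h)) ^ (2 * (k + 1)) * (c * h / C) ^ (2 * (k + 1)) = 1 := by
    rw [← mul_pow]
    have : C / (c * h) * (c * h / C) = 1 := by field_simp
    rw [this, one_pow]
  rw [hVN]
  calc VV (Zm u V) 0 H = VV (Zm u V) 0 H *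
        ((C / (c * h)) ^ (2 * (k + 1)) * (c * h / C) ^ (2 * (k + 1))) := by rw [hone, mul_one]
    _ ≤ VV (Zm u V) 0 H * ((C / (c * h)) ^ (2 * (k + 1)) * ∏ p ∈ Pr H X, L p) := by
        refine mul_le_mul_of_nonneg_left (mul_le_mul_of_nonneg_left hlow (by positivity)) hVH0
    _ = _ := by ring

end MGUa

open MGUa in
/-- **MGU** -/
theorem mgu : St_MGU := by
  classical
  intro k t h ht hh0 hh1
  obtain ⟨C, hC, hint⟩ := int_upper (k + 1) t (by omega) ht
  obtain ⟨X₀, hX₀⟩ := hint 1 one_pos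
  obtain ⟨C', hC', hsc⟩ := scales k h hh0
  obtain ⟨M, hM⟩ : ∃ M : ℝ, M = (X₀ : ℝ) + 2 * (k + 1) + 4 := ⟨_, rfl⟩
  have hx0 : (0 : ℝ) ≤ X₀ := Nat.cast_nonneg _
  have hk0 : (0 : ℝ) ≤ k := Nat.cast_nonneg _
  have hM1 : 1 ≤ M := by
    rw [hM]
    linarith
  refine ⟨C * C', by positivity, max (M ^ (1 / h)) (((k : ℕ) : ℝ) ^ t + 4), ?_⟩
  intro X hX u hu1 V hEk hEne B H hHX hHX2
  have hX1 : M ^ (1 / h) ≤ X := (le_max_left _ _).trans hX
  have hX3 : ((k : ℕ) : ℝ) ^ t + 4 ≤ X := (le_max_right _ _).trans hX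
  have hXp : (4 : ℝ) ≤ X := by
    have : (0 : ℝ) ≤ ((k : ℕ) : ℝ) ^ t := by positivity
    linarith
  have hX0 : 0 < X := by linarith
  have hMX : M ≤ X ^ h := by
    have h1 : (M ^ (1 / h)) ^ h ≤ X ^ h := Real.rpow_le_rpow (by positivity) hX1 hh0.le
    rwa [← Real.rpow_mul (by linarith), one_div_mul_cancel hh0.ne', Real.rpow_one] at h1
  have hMH : M ≤ H := hMX.trans hHX
  have ht0 : (0 : ℝ) < t := by exact_mod_cast ht
  have hVN0 : 0 ≤ VQ ⌊X⌋₊ u V := by
    unfold VQ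
    apply prod_nonneg
    intro p hp
    rw [mem_filter] at hp
    have hp0 : (0 : ℝ) < p := by exact_mod_cast hp.2.1.pos
    rw [sub_nonneg, div_le_one hp0]
    exact_mod_cast oF_le' V hp.2.1
  by_cases hfix : ∃ p : ℕ, p.Prime ∧ ¬ p ∣ u ∧ oF V p = p
  · -- a fixed prime divisor
    obtain ⟨p, hp, hpu, hpo⟩ := hfix
    have hpk : p ≤ k := by
      have h1 : oF V p ≤ V.card := card_image_le
      omega
    have hpX : (p : ℝ) ≤ X ^ (1 / (t : ℝ)) := by
      have h1 : (p : ℝ) ^ t ≤ X := by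
        have h2 : (p : ℝ) ≤ ((k : ℕ) : ℝ) := by exact_mod_cast hpk
        have h3 : (p : ℝ) ^ t ≤ ((k : ℕ) : ℝ) ^ t := pow_le_pow_left₀ (by positivity) h2 t
        linarith
      calc (p : ℝ) = ((p : ℝ) ^ t) ^ (1 / (t : ℝ)) := by
            rw [← Real.rpow_natCast, ← Real.rpow_mul (by positivity), mul_one_div_cancel ht0.ne',
              Real.rpow_one]
        _ ≤ _ := Real.rpow_le_rpow (by positivity) h1 (by positivity)
    have hall : Zm u V p = range p := by
      apply eq_of_subset_of_card_le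
      · intro n hn
        rw [mem_range]
        exact (mem_Zm.1 hn).2.1
      · rw [Zm_card V hp hpu, card_range, hpo]
    have hempty : (Ioc B (B + H)).filter
        (fun n : ℕ => ∀ v ∈ V, Ro (X ^ (1 / (t : ℝ))) (gm u v n)) = ∅ := by
      rw [filter_eq_empty_iff]
      rintro n _ h2
      have h3 : n % p ∈ Zm u V p := by
        rw [hall, mem_range]
        exact Nat.mod_lt _ hp.pos
      obtain ⟨-, -, e, he, hl⟩ := mem_Zm.1 h3
      have h4 := h2 e he p hp ((gm_mod u e p n).1 hl)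
      linarith
    rw [hempty, card_empty, Nat.cast_zero]
    positivity
  · push Not at hfix
    have hloc : ∀ p : ℕ, p.Prime → (Zm u V p).card < p := by
      intro p hp
      by_cases hu : p ∣ u
      · rw [Zm_u V hu, card_empty]
        exact hp.pos
      · rw [Zm_card V hp hu]
        exact lt_of_le_of_ne (oF_le' V hp) (hfix p hp hu)
    have hS : SysZ (k + 1) (Zm u V) := by
      refine ⟨?_, hloc, ?_⟩
      · intro p hp
        by_cases hu : p ∣ u
        · rw [Zm_u V hu, card_empty]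
          exact Nat.zero_le _
        · rw [Zm_card V hp hu]
          exact oF_le_k hEk p
      · intro p hp c hc
        exact (mem_Zm.1 hc).2.1
    have hXf : X₀ ≤ H := by
      have : (X₀ : ℝ) ≤ H := by rw [hM] at hMH; linarith
      exact_mod_cast this
    have hH2 : 2 ≤ H := by
      have : ((2 : ℕ) : ℝ) ≤ H := by push_cast; rw [hM] at hMH; linarith
      exact_mod_cast this
    have hHk : 2 * (k + 1) ≤ H := by
      have : ((2 * (k + 1) : ℕ) : ℝ) ≤ H := by push_cast; rw [hM] at hMH; linarith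
      exact_mod_cast this
    have h1 := hX₀ H hXf (Zm u V) hS B (B + H) (by push_cast; linarith)
    have hsub : (Ioc B (B + H)).filter
        (fun n : ℕ => ∀ v ∈ V, Ro (X ^ (1 / (t : ℝ))) (gm u v n)) ⊆
        IS t H B (B + H) (Zm u V) := by
      intro n hn
      rw [mem_filter] at hn
      obtain ⟨hn1, hn3⟩ := hn
      unfold IS
      rw [mem_filter]
      refine ⟨hn1, fun p hp hpX hmem => ?_⟩
      obtain ⟨-, -, e, he, hl⟩ := mem_Zm.1 hmem
      have h2 := hn3 e he p hp ((gm_mod u e p n).1 hl)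
      have h3 : ((H : ℕ) : ℝ) ^ (1 / (t : ℝ)) ≤ X ^ (1 / (t : ℝ)) :=
        Real.rpow_le_rpow (by positivity) hHX2 (by positivity)
      linarith
    have h2 : (((Ioc B (B + H)).filter
        (fun n : ℕ => ∀ v ∈ V, Ro (X ^ (1 / (t : ℝ))) (gm u v n))).card : ℝ) ≤
        ((IS t H B (B + H) (Zm u V)).card : ℝ) := by
      exact_mod_cast card_le_card hsub
    have hfl2 : (⌊X⌋₊ : ℝ) ≤ X := Nat.floor_le hX0.le
    have hHf : H ≤ ⌊X⌋₊ := Nat.le_floor hHX2
    have hHpos : (0 : ℝ) < H := by linarith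
    have hfpos : (0 : ℝ) < ⌊X⌋₊ := by
      have : (H : ℝ) ≤ ⌊X⌋₊ := by exact_mod_cast hHf
      linarith
    have hlog : h * Real.log (⌊X⌋₊ : ℕ) ≤ Real.log H := by
      calc h * Real.log (⌊X⌋₊ : ℕ) ≤ h * Real.log X :=
            mul_le_mul_of_nonneg_left (Real.log_le_log hfpos hfl2) hh0.le
        _ = Real.log (X ^ h) := by rw [Real.log_rpow hX0]
        _ ≤ _ := Real.log_le_log (by positivity) hHX
    have h3 := hsc ⌊X⌋₊ H u V hEk hloc hH2 hHf hHk hlog
    refine h2.trans (h1.trans ?_)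
    have e : ((B + H : ℕ) : ℝ) - (B : ℝ) = H := by push_cast; ring
    rw [e]
    calc C * (H * VV (Zm u V) 0 H) ≤ C * (H * (C' * VQ ⌊X⌋₊ u V)) := by
          apply mul_le_mul_of_nonneg_left _ hC.le
          apply mul_le_mul_of_nonneg_left h3 hHpos.le
      _ = _ := by ring

end Pool.Agent.Q117.MG
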