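import Pool.Agent.Q117.MG.Stm2
import Pool.Agent.Q117.AP.Lgc
import Pool.Agent.Q117.AP.Pat
import Pool.Agent.Q253.Thin.Int

/-!
Project MG (helper117), job SMU: simultaneous multipliers.
-/

set_option autoImplicit false

namespace Pool.Agent.Q117.MG.SMUa

open Finset Filter
open Pool.Agent.Q117.LF (Ro oF)
open Pool.Agent.Q117.AP (AdQ VQ)
open Pool.Agent.Q117.AP.LGCa (oF_lt oF_le_card)
open Pool.Agent.Q253.Thin (SysZ VZ_low)
open Pool.Agent.Y843.HS (Pr VV Pr_mem Pr_prime)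

/-- the lower bound for the sieve product -/
theorem VQ_low (k : ℕ) : ∃ c : ℝ, 0 < c ∧ ∀ y : ℕ, 2 ≤ y → ∀ q : ℕ, ∀ F : Finset ℤ, F.card ≤ k → AdQ q F →
    c / Real.log y ^ (k + 1) ≤ VQ y q F := by
  obtain ⟨c, hc, h⟩ := VZ_low (k + 1) (by omega)
  refine ⟨c, hc, fun y hy q F hF hA => ?_⟩
  have hlt : ∀ p : ℕ, p.Prime → ¬ p ∣ q → oF F p < p := fun p hp hq => by
    have := oF_lt hp.pos (hA p hp hq)
    omega
  obtain ⟨Z, hZ1, hZ2⟩ : ∃ Z : ℕ → Finset ℕ, (∀ p, p ∣ q → Z p = ∅) ∧ ∀ p, ¬ p ∣ q → Z p = range (oF F p) :=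
    ⟨fun p => if p ∣ q then ∅ else range (oF F p), fun p hp => if_pos hp, fun p hp => if_neg hp⟩
  have h1 := h y hy Z ⟨?_, ?_, ?_⟩
  · refine h1.trans (le_of_eq ?_)
    unfold VV VQ
    have h2 : (Icc 1 y).filter (fun p : ℕ => p.Prime ∧ ¬ p ∣ q) = (Pr 0 y).filter (fun p => ¬ p ∣ q) := by
      ext p
      rw [mem_filter, mem_filter, Pr_mem, mem_Icc]
      constructor
      · rintro ⟨⟨h1, h2⟩, h3, h4⟩
        exact ⟨⟨⟨by omega, h2⟩, h3⟩, h4⟩
      · rintro ⟨⟨⟨h1, h2⟩, h3⟩, h4⟩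
        exact ⟨⟨by omega, h2⟩, h3, h4⟩
    rw [h2, prod_filter]
    refine prod_congr rfl fun p _ => ?_
    by_cases hq : p ∣ q
    · rw [hZ1 p hq, if_neg (not_not.2 hq), card_empty, Nat.cast_zero, zero_div, sub_zero]
    · rw [hZ2 p hq, if_pos hq, card_range]
  · intro p _
    by_cases hq : p ∣ q
    · rw [hZ1 p hq]
      simp
    · rw [hZ2 p hq, card_range]
      exact (oF_le_card F p).trans (hF.trans (Nat.le_succ k))
  · intro p hp
    by_cases hq : p ∣ q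
    · rw [hZ1 p hq, card_empty]
      exact hp.pos
    · rw [hZ2 p hq, card_range]
      exact hlt p hp hq
  · intro p hp c hc
    by_cases hq : p ∣ q
    · rw [hZ1 p hq] at hc
      exact absurd hc (notMem_empty c)
    · rw [hZ2 p hq] at hc
      exact (mem_range.1 hc).trans (hlt p hp hq)

theorem ev_low (k : ℕ) (c : ℝ) (hc : 0 < c) : ∃ x0 : ℝ, ∀ x : ℝ, x0 ≤ x → Real.log x ^ (k + 1) ≤ c * x := by
  have h1 := isLittleO_log_rpow_rpow_atTop (s := 1) ((k + 1 : ℕ) : ℝ) one_pos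
  have h2 := (Asymptotics.isLittleO_iff.1 h1) hc
  have h3 : ∀ᶠ x : ℝ in atTop, Real.log x ^ (k + 1) ≤ c * x := by
    filter_upwards [h2, eventually_gt_atTop 1] with x hx2 hx1
    have hx0 : (0 : ℝ) < x := by linarith
    have hl : 0 < Real.log x := Real.log_pos hx1
    rw [Real.norm_of_nonneg (by positivity), Real.norm_of_nonneg (by positivity), Real.rpow_natCast, Real.rpow_one] at hx2
    exact hx2
  exact eventually_atTop.1 h3

theorem shift_ne {d : ℕ} {A : Finset ℕ} (hA : ∀ a ∈ A, 1 ≤ a ∧ a ≤ d) {a : ℕ} (ha : a ∈ A) {s : ℤ} (hs : s ≠ 0) :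
    (a : ℤ) + (d : ℤ) * s ∉ ZA A := by
  intro h
  unfold ZA at h
  rw [mem_image] at h
  obtain ⟨b, hb, h1⟩ := h
  have h2 := hA a ha
  have h3 := hA b hb
  have h4 : (d : ℤ) * s = (b : ℤ) - a := by linarith
  have h5 : |(d : ℤ) * s| < d := by
    rw [h4, abs_lt]
    omega
  have h6 : (d : ℤ) ≤ |(d : ℤ) * s| := by
    rw [abs_mul, Nat.abs_cast]
    have : 1 ≤ |s| := Int.one_le_abs hs
    nlinarith [Int.natCast_nonneg d]
  omega

end Pool.Agent.Q117.MG.SMUa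

namespace Pool.Agent.Q117.MG

open Finset Filter
open Pool.Agent.Q117.LF (Ro oF)
open Pool.Agent.Q117.AP (AdQ VQ)
open Pool.Agent.Q117.AP.PATa
open SMUa

theorem smu : St_SMU := by
  intro hN k R β hR hβ hcond
  have hR' : (1 : ℝ) ≤ R := by exact_mod_cast hR
  have hA : (0 : ℝ) < 3 * (8 * R - 1) := by linarith
  have hb1 : (0 : ℝ) < 1 + β := by linarith
  set g0 : ℝ := β / (1 + β) with hg0
  have hg0p : 0 < g0 := by positivity
  have hg01 : g0 < 1 := by rw [hg0, div_lt_one hb1]; linarith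
  have hgb : g0 * (1 + β) = β := by rw [hg0]; field_simp
  have hAg : 25 / (3 * (8 * (R : ℝ) - 1)) < g0 := by
    rw [div_lt_iff₀ hA]
    have h1 : 25 * (1 + β) < (3 * (8 * R - 1) * g0) * (1 + β) := by
      rw [mul_assoc (3 * (8 * (R : ℝ) - 1)), hgb]
      exact hcond
    have h2 := lt_of_mul_lt_mul_right h1 hb1.le
    linarith
  set h : ℝ := max (6 / 7 * g0) ((25 / (3 * (8 * (R : ℝ) - 1)) + g0) / 2) with hh
  have hlt : h < g0 := by
    rw [hh]
    exact max_lt (by linarith) (by linarith)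
  have hge : 6 / 7 * g0 ≤ h := le_max_left _ _
  have hh1 : h ≤ 1 := by linarith
  have hh0 : 0 < h := by linarith
  have hh25 : 25 < 3 * (8 * (R : ℝ) - 1) * h := by
    have h1 : (25 / (3 * (8 * (R : ℝ) - 1)) + g0) / 2 ≤ h := le_max_right _ _
    have h2 : 25 / (3 * (8 * (R : ℝ) - 1)) < h := by linarith
    rw [div_lt_iff₀ hA] at h2
    linarith
  obtain ⟨t, ht, θ, hθ, hT⟩ := hN k (k + 1) R h hR hh1 hh25
  have hc1 : 1 ≤ ⌈1 + β⌉₊ := Nat.one_le_ceil_iff.2 hb1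
  obtain ⟨c', hc', ν', hν', X0, hX⟩ := hT (⌈1 + β⌉₊ * t) (Nat.le_mul_of_pos_left t hc1)
  obtain ⟨C, hC, hQ⟩ := Q1_le
  obtain ⟨cV, hcV, hVl⟩ := VQ_low k
  have hs1 : 0 < β - (1 + β) * h := by nlinarith
  obtain ⟨x1, hx1⟩ := ev_pow hs1 2
  obtain ⟨x2, hx2⟩ := ev_pow hβ 2
  obtain ⟨x3, hx3⟩ := ev_pow hθ 2
  obtain ⟨x4, hx4⟩ := ev_low k cV hcV
  refine ⟨t, ht, c' / 2, by positivity, min (min (ν' / C) ν') 1, lt_min (lt_min (by positivity) hν') one_pos,
    max 2 (max ⌈X0⌉₊ (max ⌈x1⌉₊ (max ⌈x2⌉₊ (max ⌈x3⌉₊ ⌈x4⌉₊)))), ?_⟩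
  intro d hd A hAk hAd hAd' a₀ ha₀
  simp only [max_le_iff] at hd
  obtain ⟨hd2, hdX, hd1', hd2', hd3', hd4'⟩ := hd
  have hdr : (2 : ℝ) ≤ d := by exact_mod_cast hd2
  have hd0 : (0 : ℝ) < d := by linarith
  have hd1 : (1 : ℝ) ≤ d := by linarith
  have hxx1 : 2 ≤ (d : ℝ) ^ (β - (1 + β) * h) := hx1 d ((Nat.le_ceil _).trans (by exact_mod_cast hd1'))
  have hxx2 : 2 ≤ (d : ℝ) ^ β := hx2 d ((Nat.le_ceil _).trans (by exact_mod_cast hd2'))
  have hxx3 : 2 ≤ (d : ℝ) ^ θ := hx3 d ((Nat.le_ceil _).trans (by exact_mod_cast hd3'))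
  have hX0 : X0 ≤ d := (Nat.le_ceil _).trans (by exact_mod_cast hdX)
  set X : ℝ := (d : ℝ) ^ (1 + β) with hXdef
  have hXd : (d : ℝ) ≤ X := by
    calc (d : ℝ) = (d : ℝ) ^ (1 : ℝ) := (Real.rpow_one _).symm
      _ ≤ X := Real.rpow_le_rpow_of_exponent_le hd1 (by linarith)
  have hxx4 : Real.log X ^ (k + 1) ≤ cV * X := hx4 X (((Nat.le_ceil _).trans (by exact_mod_cast hd4')).trans hXd)
  have hXe : X = d * (d : ℝ) ^ β := by
    rw [hXdef, Real.rpow_add hd0, Real.rpow_one]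
  have hbX : (d : ℝ) ^ β ≤ X := by
    rw [hXe]
    exact le_mul_of_one_le_left (by positivity) hd1
  have hX1 : 1 ≤ X := hd1.trans hXd
  have hXp : 0 < X := by linarith
  set H : ℕ := ⌊(d : ℝ) ^ β⌋₊ with hHdef
  have hHle : (H : ℝ) ≤ (d : ℝ) ^ β := Nat.floor_le (by positivity)
  have hHge : (d : ℝ) ^ β / 2 ≤ H := by
    have := Nat.lt_floor_add_one ((d : ℝ) ^ β)
    rw [← hHdef] at this
    linarith
  have hXh : X ^ h ≤ H := by
    refine le_trans ?_ hHge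
    rw [hXdef, ← Real.rpow_mul hd0.le, le_div_iff₀ (by norm_num : (0 : ℝ) < 2)]
    have : (d : ℝ) ^ β = (d : ℝ) ^ ((1 + β) * h) * (d : ℝ) ^ (β - (1 + β) * h) := by
      rw [← Real.rpow_add hd0]
      congr 1
      ring
    rw [this]
    gcongr
  -- the surjection to `A`
  have hAd1 : ∀ a ∈ A, 1 ≤ a ∧ a ≤ d := fun a ha => ⟨(hAd a ha).1, (hAd a ha).2.1⟩
  have hVk : (ZA A).card ≤ k := card_image_le.trans hAk
  have hv₀ : (a₀ : ℤ) ∈ ZA A := mem_image_of_mem _ ha₀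
  have hVb : ∀ v ∈ ZA A, |(v : ℝ)| ≤ X ^ 2 := by
    intro v hv
    unfold ZA at hv
    rw [mem_image] at hv
    obtain ⟨a, ha, rfl⟩ := hv
    have h1 : (a : ℝ) ≤ d := by exact_mod_cast (hAd a ha).2.1
    push_cast
    rw [Nat.abs_cast]
    have h2 : X ≤ X ^ 2 := by nlinarith
    linarith
  obtain ⟨f, hf, hfs⟩ := fin_surj hVk hv₀
  have hk : 1 ≤ k := (card_pos.2 ⟨a₀, ha₀⟩).trans_le hAk
  set ν : ℝ := min (min (ν' / C) ν') 1 with hν
  have hνp : 0 < ν := lt_min (lt_min (by positivity) hν') one_pos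
  have hν1 : ν ≤ 1 := min_le_right _ _
  have hνν : ν ≤ ν' := (min_le_left _ _).trans (min_le_right _ _)
  have hνC : ν ≤ ν' / C := (min_le_left _ _).trans (min_le_left _ _)
  have hlog : 0 ≤ Real.log d := Real.log_nonneg hd1
  have hdn : 1 ≤ d := by omega
  have htp := tot_pos hdn
  have ht1 := tot_le_one hdn
  set L : ℝ := ν * ((Nat.totient d : ℝ) / d * Real.log d) with hL
  have hL0 : 0 ≤ L := by positivity
  have hflo : d ≤ ⌊X⌋₊ := Nat.le_floor hXd
  have hLX : L ≤ X := by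
    have h1 : (Nat.totient d : ℝ) / d * Real.log d ≤ 1 * Real.log d := by gcongr
    have h2 : Real.log d ≤ d := (Real.log_le_sub_one_of_pos hd0).trans (by linarith)
    calc L ≤ 1 * (1 * Real.log d) := by
          rw [hL]
          exact mul_le_mul hν1 h1 (by positivity) (by norm_num)
      _ ≤ X := by linarith
  have hLV : L * Q1 ⌊X⌋₊ d ≤ ν' := by
    have h1 := hQ ⌊X⌋₊ d (hd2.trans hflo) hdn hflo
    have h2 : Real.log d ≤ Real.log (⌊X⌋₊ : ℕ) := Real.log_le_log hd0 (by exact_mod_cast hflo)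
    have h3 := (Q1_pos ⌊X⌋₊ d).le
    calc L * Q1 ⌊X⌋₊ d = ν * ((Nat.totient d : ℝ) / d * Real.log d * Q1 ⌊X⌋₊ d) := by rw [hL]; ring
      _ ≤ ν * ((Nat.totient d : ℝ) / d * Real.log (⌊X⌋₊ : ℕ) * Q1 ⌊X⌋₊ d) := by gcongr
      _ ≤ ν * C := by gcongr
      _ ≤ ν' / C * C := by gcongr
      _ = ν' := by field_simp
  -- the second length
  obtain ⟨W, hW⟩ : ∃ W : ℝ, W = VQ ⌊X⌋₊ d (ZA A) := ⟨_, rfl⟩
  have hWl : cV / Real.log X ^ (k + 1) ≤ W := by
    have h1 := hVl ⌊X⌋₊ (hd2.trans hflo) d (ZA A) hVk hAd'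
    rw [← hW] at h1
    refine le_trans ?_ h1
    have h2 : 0 < Real.log (⌊X⌋₊ : ℕ) := Real.log_pos (by exact_mod_cast (hd2.trans hflo))
    have h3 : Real.log (⌊X⌋₊ : ℕ) ≤ Real.log X := by
      apply Real.log_le_log
      · exact_mod_cast (show 0 < ⌊X⌋₊ by omega)
      · exact Nat.floor_le hXp.le
    gcongr
  have hlX : 0 < Real.log X := Real.log_pos (by linarith)
  have hWp : 0 < W := lt_of_lt_of_le (by positivity) hWl
  set L' : ℝ := ν / W with hL'
  have hL'0 : 0 ≤ L' := by positivity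
  have hL'X : L' ≤ X := by
    rw [hL', div_le_iff₀ hWp]
    have h1 : cV ≤ W * Real.log X ^ (k + 1) := by
      rw [div_le_iff₀ (by positivity)] at hWl
      exact hWl
    have h2 : cV ≤ W * (cV * X) := h1.trans (by gcongr)
    have h3 : 1 ≤ W * X := by
      have : cV * 1 ≤ cV * (W * X) := by
        calc cV * 1 = cV := mul_one _
          _ ≤ W * (cV * X) := h2
          _ = _ := by ring
      exact le_of_mul_le_mul_left this hcV
    linarith
  have hL'V : L' * W ≤ ν' := by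
    rw [hL', div_mul_cancel₀ _ hWp.ne']
    exact hνν
  have hCu : Cu d (ZA A) := by
    intro p hp hpd v hv hpv
    unfold ZA at hv
    rw [mem_image] at hv
    obtain ⟨a, ha, rfl⟩ := hv
    have h1 : p ∣ a := by exact_mod_cast hpv
    have h2 : p ∣ 1 := by
      rw [← (hAd a ha).2.2]
      exact Nat.dvd_gcd h1 hpd
    exact hp.one_lt.ne' (Nat.dvd_one.1 h2)
  have htR : (0 : ℝ) < t := by exact_mod_cast ht
  have hTR : (0 : ℝ) < ((⌈1 + β⌉₊ * t : ℕ) : ℝ) := by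
    push_cast
    have : (1 : ℝ) ≤ (⌈1 + β⌉₊ : ℕ) := by exact_mod_cast hc1
    positivity
  have hAds : ∀ e : ℤ, AdQ d {e} := by
    intro e p hp _
    refine ⟨1 - e, fun e' he hdv => ?_⟩
    rw [mem_singleton.1 he, sub_add_cancel] at hdv
    have h1 : p ∣ 1 := by exact_mod_cast hdv
    exact hp.one_lt.ne' (Nat.dvd_one.1 h1)
  obtain ⟨F, hF⟩ : ∃ F : Fin (k + 1) → Finset ℤ, F = Fin.snoc (fun i => ({f i} : Finset ℤ)) (ZA A) := ⟨_, rfl⟩
  obtain ⟨LL, hLL⟩ : ∃ LL : Fin (k + 1) → ℝ, LL = Fin.snoc (fun _ => L) L' := ⟨_, rfl⟩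
  have hFc : ∀ i : Fin k, F i.castSucc = {f i} := by
    intro i
    rw [hF, Fin.snoc_castSucc]
  have hFl : F (Fin.last k) = ZA A := by
    rw [hF, Fin.snoc_last]
  have hLc : ∀ i : Fin k, LL i.castSucc = L := by
    intro i
    rw [hLL, Fin.snoc_castSucc]
  have hLl : LL (Fin.last k) = L' := by
    rw [hLL, Fin.snoc_last]
  have hF1 : ∀ γ, (F γ).Nonempty ∧ (F γ).card ≤ k ∧ (∀ f ∈ F γ, |(f : ℝ)| ≤ X ^ 2) ∧ AdQ d (F γ) := by
    intro γ
    refine Fin.lastCases ?_ (fun i => ?_) γ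
    · rw [hFl]
      exact ⟨⟨_, hv₀⟩, hVk, hVb, hAd'⟩
    · rw [hFc]
      refine ⟨singleton_nonempty _, by rw [card_singleton]; exact hk, ?_, hAds _⟩
      intro f' hf'
      rw [mem_singleton.1 hf']
      exact hVb _ (hf i)
  have hL1 : ∀ γ, 0 ≤ LL γ ∧ LL γ ≤ X ∧ LL γ * VQ ⌊X⌋₊ d (F γ) ≤ ν' := by
    intro γ
    refine Fin.lastCases ?_ (fun i => ?_) γ
    · rw [hFl, hLl, ← hW]
      exact ⟨hL'0, hL'X, hL'V⟩
    · rw [hFc, hLc, VQ_single]
      exact ⟨hL0, hLX, hLV⟩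
  have key := hX X (hX0.trans hXd) d d hdn hdn hXd hXd (fun p _ h => h) (ZA A) hVk hVb hCu hAd' (a₀ : ℤ) hv₀ F hF1 LL hL1
    ((d : ℝ) ^ (1 / (t : ℝ))) ?_ ?_ 0 H hXh (hHle.trans hbX) ?_
  · rw [← hW] at key ⊢
    have hsub : PtsN d d (ZA A) (a₀ : ℤ) R (X ^ (h / 6)) ((d : ℝ) ^ (1 / (t : ℝ))) LL F 0 H ⊆
        Smu d A a₀ R ((d : ℝ) ^ (β / 7)) ((d : ℝ) ^ (1 / (t : ℝ))) L L' H := by
      classical
      intro n hn
      unfold PtsN at hn
      unfold Smu
      rw [mem_filter, mem_Ioc] at hn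
      rw [mem_filter, mem_Icc]
      obtain ⟨⟨hn1, hn2⟩, hn3, hn4, hn5, hn6⟩ := hn
      have hg : ∀ a : ℕ, gm d (a : ℤ) n = (a : ℤ) + d * n := by
        intro a
        unfold gm
        ring
      have hg' : ∀ (a : ℤ) (s : ℤ), gm d (a + (d : ℤ) * s) n = a + d * (n + s) := by
        intro a s
        unfold gm
        ring
      have hg0' : gm d (a₀ : ℤ) n = ((a₀ + d * n : ℕ) : ℤ) := by
        rw [hg]
        push_cast
        ring
      rw [hg0', Int.natAbs_natCast] at hn3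
      refine ⟨⟨by omega, by omega⟩, hn3, ?_, ?_, ?_, ?_⟩
      · intro p hp hpd
        have hpd' : (p : ℤ) ∣ gm d (a₀ : ℤ) n := by
          rw [hg0']
          exact_mod_cast hpd
        refine le_trans ?_ (hn4 p hp hpd')
        rw [hXdef, ← Real.rpow_mul hd0.le]
        apply Real.rpow_le_rpow_of_exponent_le hd1
        have : 6 / 7 * (g0 * (1 + β)) ≤ h * (1 + β) := by
          calc _ = 6 / 7 * g0 * (1 + β) := by ring
            _ ≤ _ := by gcongr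
        rw [hgb] at this
        linarith
      · intro a ha
        rw [← hg]
        exact hn5 _ (mem_image_of_mem _ ha)
      · intro a ha s hs hsL hRo
        obtain ⟨i, hi⟩ := hfs (a : ℤ) (mem_image_of_mem _ ha)
        have h1 := hn6 i.castSucc s (by rw [hLc]; exact hsL) ?_ (f i) (by rw [hFc]; exact mem_singleton_self _)
        · rw [hi] at h1
          exact shift_ne hAd1 ha hs h1
        · intro f' hf'
          rw [hFc, mem_singleton] at hf'
          rw [hf', hi, hg']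
          exact hRo
      · intro s hs hsL
        by_contra hcon
        push Not at hcon
        have h1 := hn6 (Fin.last k) s (by rw [hLl]; exact hsL) ?_ (a₀ : ℤ) (by rw [hFl]; exact hv₀)
        · exact shift_ne hAd1 ha₀ hs h1
        · intro f' hf'
          rw [hFl] at hf'
          unfold ZA at hf'
          rw [mem_image] at hf'
          obtain ⟨a, ha, rfl⟩ := hf'
          rw [hg']
          exact hcon a ha
    have h3 : ((PtsN d d (ZA A) (a₀ : ℤ) R (X ^ (h / 6)) ((d : ℝ) ^ (1 / (t : ℝ))) LL F 0 H).card : ℝ) ≤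
        (Smu d A a₀ R ((d : ℝ) ^ (β / 7)) ((d : ℝ) ^ (1 / (t : ℝ))) L L' H).card := by
      exact_mod_cast card_le_card hsub
    refine le_trans ?_ (key.trans h3)
    calc c' / 2 * ((d : ℝ) ^ β * W) = c' * ((d : ℝ) ^ β / 2 * W) := by ring
      _ ≤ c' * (H * W) := by gcongr
  · rw [hXdef, ← Real.rpow_mul hd0.le]
    apply Real.rpow_le_rpow_of_exponent_le hd1
    rw [mul_one_div, div_le_div_iff₀ hTR htR]
    push_cast
    have := Nat.le_ceil (1 + β)
    nlinarith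
  · rw [hXdef, ← Real.rpow_mul hd0.le]
    apply Real.rpow_le_rpow_of_exponent_le hd1
    have : 0 < 1 / (t : ℝ) := by positivity
    nlinarith
  · intro n hn
    rw [mem_Ioc] at hn
    have hnH : (n : ℝ) ≤ (d : ℝ) ^ β := by
      have : (n : ℝ) ≤ H := by exact_mod_cast (show n ≤ H by omega)
      exact this.trans hHle
    have har : (a₀ : ℝ) ≤ d := by exact_mod_cast (hAd a₀ ha₀).2.1
    have h1 : |((gm d (a₀ : ℤ) n : ℤ) : ℝ)| ≤ 2 * X := by
      unfold gm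
      push_cast
      have e1 : (d : ℝ) * n ≤ X := by
        rw [hXe]
        gcongr
      rw [abs_of_nonneg (by positivity)]
      linarith
    refine h1.trans ?_
    rw [Real.rpow_add hXp, Real.rpow_one, mul_comm (2 : ℝ)]
    gcongr
    exact hxx3.trans (Real.rpow_le_rpow hd0.le hXd hθ.le)

end Pool.Agent.Q117.MG
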