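import Pool.Agent.Q117.MG.Mge
import Pool.Agent.Q117.MG.Mgu
import Pool.Agent.Q117.MG.Mgl
import Pool.Agent.Q117.MG.Mga
import Pool.Agent.Q117.MG.Mgn
import Pool.Agent.Q117.MG.Smu
import Pool.Agent.Q117.MG.Gmq
import Pool.Agent.Q117.MG.Prm
import Pool.Agent.Q117.SI.Wz

/-!
Project MG (helper117): the assembled theorems.
-/

set_option autoImplicit false

namespace Pool.Agent.Q117.MG

theorem mgnC : MGNc := mgn (mge Pool.Agent.Q117.SI.wz) mgu mgl mga

theorem smuC : SMUc := smu mgnC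

theorem gmqC : GMQc := gmq mgnC

theorem prmC : PRMc := prm mgnC

end Pool.Agent.Q117.MG
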