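import Pool.Agent.Q117.MG.Mgu
import Pool.Agent.Q117.AP.Lgc

/-!
Project MG (helper117), job MGE: the lower bound, uniform in the modulus and in the classes.
-/

set_option autoImplicit false

namespace Pool.Agent.Q117.MG

open Finset Filter
open Pool.Agent.Q117.LF (Ro oF)
open Pool.Agent.Q117.SI (St_WZ PtsZ)
open Pool.Agent.Q117.AP (AdQ VQ)
open Pool.Agent.Q253.Thin (SysZ)
open Pool.Agent.Y843.HS (Pr VV Pr_mem Pr_prime)
open Pool.Agent.Q117.AP.UGEa (oF_le')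
open Pool.Agent.Q117.AP.LGCa (oF_lt)
open MGUa

namespace MGEa

theorem gm_modEq (u : ℕ) (v : ℤ) {p n n' : ℕ} (h : n ≡ n' [MOD p]) :
    (p : ℤ) ∣ gm u v n ↔ (p : ℤ) ∣ gm u v n' := by
  rw [← gm_mod u v p n, ← gm_mod u v p n']
  have h1 : n % p = n' % p := h
  rw [h1]

open Classical in
/-- the classes of the `m` for which some value has the factor `p` at `W m + w` -/
noncomputable def Zs (u : ℕ) (V : Finset ℤ) (W w p : ℕ) : Finset ℕ :=
  (range p).filter (fun m : ℕ => ∃ v ∈ V, (p : ℤ) ∣ gm u v (W * m + w))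

theorem Zs_card_le {u : ℕ} {V : Finset ℤ} {W w p : ℕ} (hp : p.Prime) (hu : ¬ p ∣ u)
    (hW : ¬ p ∣ W) : (Zs u V W w p).card ≤ oF V p := by
  classical
  rw [← Zm_card V hp hu]
  unfold Zs
  apply card_le_card_of_injOn (fun m => (W * m + w) % p)
  · intro m hm
    rw [coe_filter, Set.mem_ofPred_eq, mem_range] at hm
    obtain ⟨h1, v, hv, hl⟩ := hm
    rw [mem_coe, mem_Zm]
    exact ⟨hu, Nat.mod_lt _ hp.pos, v, hv, (gm_mod u v p _).2 hl⟩
  · intro m hm m' hm' he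
    rw [coe_filter, Set.mem_ofPred_eq, mem_range] at hm hm'
    have h1 : W * m + w ≡ W * m' + w [MOD p] := he
    have h2 : W * m ≡ W * m' [MOD p] := Nat.ModEq.add_right_cancel' w h1
    have h3 : m ≡ m' [MOD p] :=
      Nat.ModEq.cancel_left_of_coprime ((Nat.Prime.coprime_iff_not_dvd hp).2 hW) h2
    have h4 : m % p = m' % p := h3
    rwa [Nat.mod_eq_of_lt hm.1, Nat.mod_eq_of_lt hm'.1] at h4

theorem Zs_empty {u : ℕ} {V : Finset ℤ} {W w p : ℕ}
    (h : ∀ v ∈ V, ¬ (p : ℤ) ∣ gm u v w) (hW : p ∣ W) : Zs u V W (w % W) p = ∅ := by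
  classical
  unfold Zs
  apply filter_false_of_mem
  rintro m _ ⟨v, hv, hl⟩
  apply h v hv
  refine (gm_modEq u v ?_).1 hl
  have h1 : w % W ≡ w [MOD p] := (Nat.mod_modEq w W).of_dvd hW
  have h2 : W * m ≡ 0 [MOD p] := Nat.modEq_zero_iff_dvd.2 (hW.mul_right m)
  simpa using h2.add h1

theorem gm_u {u : ℕ} {v : ℤ} {p n : ℕ} (hu : p ∣ u) (h : (p : ℤ) ∣ gm u v n) : (p : ℤ) ∣ v := by
  unfold gm at h
  have h3 : (p : ℤ) ∣ (u : ℤ) * n := Dvd.dvd.mul_right (by exact_mod_cast hu) _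
  exact (dvd_add_right h3).1 h

theorem Zs_empty_u {u : ℕ} {V : Finset ℤ} (W w : ℕ) {p : ℕ} (h : ∀ v ∈ V, ¬ (p : ℤ) ∣ v)
    (hu : p ∣ u) : Zs u V W w p = ∅ := by
  classical
  unfold Zs
  apply filter_false_of_mem
  rintro m _ ⟨v, hv, hl⟩
  exact h v hv (gm_u hu hl)

open Classical in
/-- the classes -/
noncomputable def Zc (u : ℕ) (V : Finset ℤ) (v₀ : ℤ) (W w : ℕ) (y : ℝ) (p : ℕ) : Finset ℕ :=
  if (p : ℝ) < y then Zs u V W w p else (range p).filter (fun m : ℕ => (p : ℤ) ∣ gm u v₀ (W * m + w))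

theorem Zc_sub (u : ℕ) {V : Finset ℤ} {v₀ : ℤ} (hv₀ : v₀ ∈ V) (W w : ℕ) (y : ℝ) (p : ℕ) :
    Zc u V v₀ W w y p ⊆ Zs u V W w p := by
  classical
  unfold Zc
  split_ifs
  · exact Subset.refl _
  · intro m hm
    rw [mem_filter] at hm
    unfold Zs
    rw [mem_filter]
    exact ⟨hm.1, v₀, hv₀, hm.2⟩

theorem Zc_card {u : ℕ} {V : Finset ℤ} {v₀ : ℤ} (hv₀ : v₀ ∈ V) (hCu : Cu u V) {W w : ℕ} (y : ℝ)
    {p : ℕ} (hp : p.Prime) (h : p ∣ W → ∀ v ∈ V, ¬ (p : ℤ) ∣ gm u v w) :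
    (Zc u V v₀ W (w % W) y p).card ≤ oF V p ∧
      (p ∣ u * W → (Zc u V v₀ W (w % W) y p).card = 0) := by
  have h1 := card_le_card (Zc_sub u hv₀ W (w % W) y p)
  by_cases hW : p ∣ W
  · rw [Zs_empty (h hW) hW, card_empty] at h1
    constructor
    · omega
    · intro _
      omega
  · by_cases hu : p ∣ u
    · rw [Zs_empty_u W (w % W) (hCu p hp hu) hu, card_empty] at h1
      constructor
      · omega
      · intro _
        omega
    · constructor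
      · exact h1.trans (Zs_card_le hp hu hW)
      · intro huW
        rcases (Nat.Prime.dvd_mul hp).1 huW with h2 | h2
        · exact absurd h2 hu
        · exact absurd h2 hW

theorem mod_aff (q v m p : ℕ) : q * (m % p) + v ≡ q * m + v [MOD p] :=
  ((Nat.mod_modEq m p).mul_left q).add_right v

theorem Zc_sys {k u : ℕ} {V : Finset ℤ} (hk : V.card ≤ k) {v₀ : ℤ} (hv₀ : v₀ ∈ V) (hCu : Cu u V)
    (hadm : AdQ u V) {W w : ℕ} (y : ℝ)
    (h : ∀ p : ℕ, p.Prime → p ∣ W → ∀ v ∈ V, ¬ (p : ℤ) ∣ gm u v w) :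
    SysZ (k + 1) (Zc u V v₀ W (w % W) y) where
  card p hp := ((Zc_card hv₀ hCu y hp (h p hp)).1).trans (oF_le_k hk p)
  loc p hp := by
    obtain ⟨h1, h2⟩ := Zc_card hv₀ hCu y hp (h p hp)
    by_cases hu : p ∣ u
    · rw [h2 (hu.mul_right W)]
      exact hp.pos
    · have h3 : oF V p + 1 ≤ p := oF_lt hp.pos (hadm p hp hu)
      omega
  lt p hp c hc := by
    classical
    have h1 := Zc_sub u hv₀ W (w % W) y p hc
    unfold Zs at h1
    rw [mem_filter, mem_range] at h1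
    exact h1.1

theorem VV_ge {u : ℕ} {V : Finset ℤ} {v₀ : ℤ} (hv₀ : v₀ ∈ V) (hCu : Cu u V) {W w : ℕ} (y : ℝ)
    (h : ∀ p : ℕ, p.Prime → p ∣ W → ∀ v ∈ V, ¬ (p : ℤ) ∣ gm u v w) {H' Y : ℕ} (hHY : H' ≤ Y) :
    VQ Y (u * W) V ≤ VV (Zc u V v₀ W (w % W) y) 0 H' := by
  classical
  have hfac : ∀ p : ℕ, p.Prime → 0 ≤ 1 - (oF V p : ℝ) / p ∧ 1 - (oF V p : ℝ) / p ≤ 1 := by
    intro p hp
    have hp0 : (0 : ℝ) < p := by exact_mod_cast hp.pos
    constructor
    · rw [sub_nonneg, div_le_one hp0]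
      exact_mod_cast oF_le' V hp
    · have : (0 : ℝ) ≤ (oF V p : ℝ) / p := by positivity
      linarith
  have hsub : (Pr 0 H').filter (fun p => ¬ p ∣ u * W) ⊆
      (Icc 1 Y).filter (fun p : ℕ => p.Prime ∧ ¬ p ∣ u * W) := by
    intro p hp
    rw [mem_filter, Pr_mem] at hp
    rw [mem_filter, mem_Icc]
    exact ⟨⟨hp.1.1.1, hp.1.1.2.trans hHY⟩, hp.1.2, hp.2⟩
  have h1 : VQ Y (u * W) V ≤
      ∏ p ∈ (Pr 0 H').filter (fun p => ¬ p ∣ u * W), (1 - (oF V p : ℝ) / p) := by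
    unfold VQ
    rw [← prod_sdiff hsub]
    apply mul_le_of_le_one_left
    · exact prod_nonneg fun p hp => (hfac p (Pr_prime (mem_filter.1 hp).1)).1
    · apply prod_le_one
      · intro p hp
        exact (hfac p (mem_filter.1 (Finset.mem_sdiff.1 hp).1).2.1).1
      · intro p hp
        exact (hfac p (mem_filter.1 (Finset.mem_sdiff.1 hp).1).2.1).2
  refine h1.trans ?_
  have h2 : VV (Zc u V v₀ W (w % W) y) 0 H' =
      ∏ p ∈ (Pr 0 H').filter (fun p => ¬ p ∣ u * W), (1 - ((Zc u V v₀ W (w % W) y p).card : ℝ) / p) := by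
    unfold VV
    rw [← prod_filter_mul_prod_filter_not (Pr 0 H') (fun p => ¬ p ∣ u * W)]
    have h3 : ∏ p ∈ (Pr 0 H').filter (fun p => ¬ ¬ p ∣ u * W),
        (1 - ((Zc u V v₀ W (w % W) y p).card : ℝ) / p) = 1 := by
      apply prod_eq_one
      intro p hp
      rw [mem_filter, not_not] at hp
      have hpp := Pr_prime hp.1
      rw [(Zc_card hv₀ hCu y hpp (h p hpp)).2 hp.2]
      simp
    rw [h3, mul_one]
  rw [h2]
  apply Finset.prod_le_prod
  · intro p hp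
    exact (hfac p (Pr_prime (mem_filter.1 hp).1)).1
  · intro p hp
    have hpp := Pr_prime (mem_filter.1 hp).1
    have h3 := (Zc_card hv₀ hCu y hpp (h p hpp)).1
    have hp0 : (0 : ℝ) < p := by exact_mod_cast hpp.pos
    have h4 : ((Zc u V v₀ W (w % W) y p).card : ℝ) / p ≤ (oF V p : ℝ) / p :=
      div_le_div_of_nonneg_right (by exact_mod_cast h3) hp0.le
    linarith

end MGEa

open MGEa

/-- **MGE** -/
theorem mge : St_MGE := by
  classical
  intro hWZ k R h hR hh1 hr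
  have hr1 : (1 : ℝ) ≤ R := by exact_mod_cast hR
  have h8 : (0 : ℝ) < 3 * (8 * R - 1) := by linarith
  have hh0 : 0 < h := by
    by_contra hcon
    push Not at hcon
    nlinarith
  obtain ⟨h₀, hh₀⟩ : ∃ h₀ : ℝ, h₀ = 25 / (3 * (8 * R - 1)) := ⟨_, rfl⟩
  have hlt : h₀ < h := by
    rw [hh₀, div_lt_iff₀ h8]
    linarith
  obtain ⟨h', hh'⟩ : ∃ h' : ℝ, h' = max ((h + h₀) / 2) (9 / 10 * h) := ⟨_, rfl⟩
  have h1' : (h + h₀) / 2 ≤ h' := by rw [hh']; exact le_max_left _ _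
  have h2' : 9 / 10 * h ≤ h' := by rw [hh']; exact le_max_right _ _
  have h3' : h' < h := by
    rw [hh']
    apply max_lt <;> linarith
  have h4' : 25 < 3 * (8 * R - 1) * h' := by
    have : h₀ < h' := by linarith
    rw [hh₀, div_lt_iff₀ h8] at this
    linarith
  have h'0 : 0 < h' := by linarith
  obtain ⟨δ, hδ, ε, hε, S, hS, X0', HW⟩ := hWZ (k + 1) R h' (by omega) hR (by linarith) h4'
  obtain ⟨t0, ht0⟩ := exists_nat_one_div_lt hε
  obtain ⟨θ, hθe⟩ : ∃ θ : ℝ, θ = min ((h - h') / 4) (min (1 / 4) (S - 1)) := ⟨_, rfl⟩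
  have hθ : 0 < θ := by
    rw [hθe]
    exact lt_min (by linarith) (lt_min (by norm_num) (by linarith))
  have hθ1 : θ ≤ (h - h') / 4 := by rw [hθe]; exact min_le_left _ _
  have hθ3 : θ ≤ S - 1 := by rw [hθe]; exact (min_le_right _ _).trans (min_le_right _ _)
  -- eventual inequalities
  have ev1 : ∀ᶠ X : ℝ in atTop, (4 : ℝ) * 2 ≤ X ^ (3 / 4 * (h - h')) :=
    (tendsto_rpow_atTop (by linarith)).eventually_ge_atTop _
  have ev2 : ∀ᶠ X : ℝ in atTop, (8 : ℝ) ≤ X ^ (3 / 4 * h) :=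
    (tendsto_rpow_atTop (by linarith)).eventually_ge_atTop _
  obtain ⟨X1, e1⟩ := eventually_atTop.1 (ev1.and ev2)
  refine ⟨t0 + 1, by omega, θ, hθ, δ / 2, by positivity, max (max X0' X1) 2, ?_⟩
  intro X hX u hu V hVk hCu hAd v₀ hv₀ q w hq hqX huq hqw B H hH hHX hBH
  have x0 : (X0' : ℝ) ≤ X := ((le_max_left _ _).trans (le_max_left _ _)).trans hX
  have x1 : X1 ≤ X := ((le_max_right _ _).trans (le_max_left _ _)).trans hX
  have x2 : (2 : ℝ) ≤ X := (le_max_right _ _).trans hX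
  obtain ⟨e2, e3⟩ := e1 X x1
  have hX1 : (1 : ℝ) ≤ X := by linarith
  have hX0 : (0 : ℝ) < X := by linarith
  have hqX1 : (q : ℝ) ≤ X ^ ((h - h') / 4) :=
    hqX.trans (Real.rpow_le_rpow_of_exponent_le hX1 hθ1)
  have hq0 : (0 : ℝ) < q := by exact_mod_cast hq
  have hq1 : (1 : ℝ) ≤ q := by exact_mod_cast hq
  -- the scale
  obtain ⟨Y, hY⟩ : ∃ Y : ℕ, Y = ⌈X⌉₊ := ⟨_, rfl⟩
  have hYX : X ≤ Y := by rw [hY]; exact Nat.le_ceil X
  have hYX2 : (Y : ℝ) ≤ 2 * X := by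
    have := Nat.ceil_lt_add_one hX0.le
    rw [← hY] at this
    linarith
  have hYX0 : X0' ≤ Y := by
    have : (X0' : ℝ) ≤ Y := x0.trans hYX
    exact_mod_cast this
  obtain ⟨v, hv⟩ : ∃ v : ℕ, v = w % q := ⟨_, rfl⟩
  have hvq : v < q := by rw [hv]; exact Nat.mod_lt _ hq
  obtain ⟨H', hH'⟩ : ∃ H' : ℕ, H' = H / q - 3 := ⟨_, rfl⟩
  obtain ⟨B', hB'⟩ : ∃ B' : ℕ, B' = B / q + 1 := ⟨_, rfl⟩
  -- the length of the window
  have hHq8 : 8 ≤ (H : ℝ) / q := by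
    rw [le_div_iff₀ hq0]
    refine le_trans ?_ hH
    calc 8 * (q : ℝ) ≤ X ^ (3 / 4 * h) * X ^ ((h - h') / 4) :=
          mul_le_mul e3 hqX1 hq0.le (by positivity)
      _ = X ^ (3 / 4 * h + (h - h') / 4) := by rw [← Real.rpow_add hX0]
      _ ≤ X ^ h := Real.rpow_le_rpow_of_exponent_le hX1 (by linarith)
  have hdiv : (H : ℝ) / q - 1 ≤ ((H / q : ℕ) : ℝ) := by
    have h1 := Nat.div_add_mod H q
    have h2 := Nat.mod_lt H (show 0 < q by omega)
    have h3 : (H : ℝ) ≤ q * ((H / q : ℕ) : ℝ) + q := by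
      have : H ≤ q * (H / q) + q := by omega
      exact_mod_cast this
    have h4 : (H : ℝ) / q ≤ ((H / q : ℕ) : ℝ) + 1 := by
      rw [div_le_iff₀ hq0]
      linarith
    linarith
  have hHn : 3 ≤ H / q := by
    have : (3 : ℝ) ≤ ((H / q : ℕ) : ℝ) := by linarith
    exact_mod_cast this
  have hH'r : (H' : ℝ) = ((H / q : ℕ) : ℝ) - 3 := by
    rw [hH', Nat.cast_sub hHn]
    push_cast
    rfl
  have hHhalf : (H : ℝ) / q / 2 ≤ H' := by
    rw [hH'r]
    linarith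
  have hHY' : (Y : ℝ) ^ h' ≤ H' := by
    refine le_trans ?_ hHhalf
    rw [div_div, le_div_iff₀ (by positivity)]
    refine le_trans ?_ hH
    have h5 : (Y : ℝ) ^ h' ≤ 2 * X ^ h' := by
      calc (Y : ℝ) ^ h' ≤ (2 * X) ^ h' := Real.rpow_le_rpow (by positivity) hYX2 h'0.le
        _ = 2 ^ h' * X ^ h' := Real.mul_rpow (by norm_num) hX0.le
        _ ≤ 2 * X ^ h' := by
            apply mul_le_mul_of_nonneg_right _ (by positivity)
            calc (2 : ℝ) ^ h' ≤ 2 ^ (1 : ℝ) := Real.rpow_le_rpow_of_exponent_le (by norm_num) (by linarith)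
              _ = 2 := Real.rpow_one _
    calc (Y : ℝ) ^ h' * (q * 2) ≤ (2 * X ^ h') * (X ^ ((h - h') / 4) * 2) := by
          apply mul_le_mul h5 _ (by positivity) (by positivity)
          linarith
      _ = 4 * (X ^ h' * X ^ ((h - h') / 4)) := by ring
      _ ≤ X ^ (3 / 4 * (h - h')) * (X ^ h' * X ^ ((h - h') / 4)) :=
          mul_le_mul_of_nonneg_right (by linarith) (by positivity)
      _ = X ^ h := by
          rw [← Real.rpow_add hX0, ← Real.rpow_add hX0]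
          congr 1
          ring
  have hB0 : (0 : ℝ) ≤ B := Nat.cast_nonneg B
  have hH0 : (0 : ℝ) ≤ H := Nat.cast_nonneg H
  have hHfl : H ≤ ⌊X⌋₊ := Nat.le_floor hHX
  have hH'H : H' ≤ H := by
    rw [hH']
    exact (Nat.sub_le _ _).trans (Nat.div_le_self _ _)
  have hHY : H' ≤ Y := by
    have h6 : (H' : ℝ) ≤ Y := by
      have : (H' : ℝ) ≤ H := by exact_mod_cast hH'H
      linarith
    exact_mod_cast h6
  -- the window
  have hwin : ∀ m ∈ Ioc B' (B' + H'), q * m + v ∈ Ioc B (B + H) := by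
    intro m hm
    rw [mem_Ioc] at hm ⊢
    have h1 := Nat.div_add_mod B q
    have h2 := Nat.mod_lt B (show 0 < q by omega)
    have h3 := Nat.div_add_mod H q
    constructor
    · have h5 : q * (B / q + 2) ≤ q * m := Nat.mul_le_mul_left q (by omega)
      have h6 : q * (B / q + 2) = q * (B / q) + 2 * q := by ring
      omega
    · have h5 : m + 2 ≤ B / q + H / q := by omega
      have h6 : q * (m + 2) ≤ q * (B / q + H / q) := Nat.mul_le_mul_left q h5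
      have h7 : q * (m + 2) = q * m + 2 * q := by ring
      have h8 : q * (B / q + H / q) = q * (B / q) + q * (H / q) := by ring
      omega
  -- the main form
  obtain ⟨a, ha⟩ : ∃ a : ℤ, a = (u : ℤ) * q := ⟨_, rfl⟩
  obtain ⟨b, hb⟩ : ∃ b : ℤ, b = (u : ℤ) * v + v₀ := ⟨_, rfl⟩
  have hfm : ∀ m : ℕ, a * m + b = gm u v₀ (q * m + v) := by
    intro m
    unfold gm
    rw [ha, hb]
    push_cast
    ring
  have ha_ne : a ≠ 0 := by
    rw [ha]
    have h1 : (u : ℤ) ≠ 0 := by exact_mod_cast (by omega : u ≠ 0)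
    have h2 : (q : ℤ) ≠ 0 := by exact_mod_cast (by omega : q ≠ 0)
    exact mul_ne_zero h1 h2
  have haY : |a| ≤ (Y : ℤ) := by
    have h1 : (u : ℝ) * q ≤ Y := huq.trans hYX
    have h2 : u * q ≤ Y := by exact_mod_cast h1
    rw [ha, abs_of_nonneg (by positivity)]
    exact_mod_cast h2
  have hcop : IsCoprime a b := by
    rw [Int.isCoprime_iff_gcd_eq_one]
    by_contra hg
    obtain ⟨p, hp, hpg⟩ := Nat.exists_prime_and_dvd hg
    have h1 : (p : ℤ) ∣ a := (Int.natCast_dvd_natCast.2 hpg).trans (Int.gcd_dvd_left ..)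
    have h2 : (p : ℤ) ∣ b := (Int.natCast_dvd_natCast.2 hpg).trans (Int.gcd_dvd_right ..)
    have hpi : Prime (p : ℤ) := Nat.prime_iff_prime_int.1 hp
    have h5 : (p : ℤ) ∣ gm u v₀ v := by
      unfold gm
      rw [← hb]
      exact h2
    rw [ha] at h1
    rcases hpi.dvd_or_dvd h1 with h3 | h3
    · have h4 : p ∣ u := by exact_mod_cast h3
      exact hCu p hp h4 v₀ hv₀ (gm_u h4 h5)
    · have h4 : p ∣ q := by exact_mod_cast h3
      apply hqw p hp h4 v₀ hv₀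
      refine (gm_modEq u v₀ ?_).1 h5
      rw [hv]
      exact (Nat.mod_modEq w q).of_dvd h4
  have hsize : ∀ m ∈ Ioc B' (B' + H'), ((|a * m + b| : ℤ) : ℝ) ≤ (Y : ℝ) ^ S := by
    intro m hm
    have h1 := hBH _ (hwin m hm)
    rw [hfm, Int.cast_abs]
    refine h1.trans ?_
    calc X ^ (1 + θ) ≤ X ^ S := Real.rpow_le_rpow_of_exponent_le hX1 (by linarith)
      _ ≤ (Y : ℝ) ^ S := Real.rpow_le_rpow hX0.le hYX (by linarith)
  -- the classes
  obtain ⟨Z, hZ⟩ : ∃ Z : ℕ → Finset ℕ, Z = Zc u V v₀ q v ((Y : ℝ) ^ ε) := ⟨_, rfl⟩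
  have hZs : SysZ (k + 1) Z := by
    rw [hZ, hv]
    exact Zc_sys hVk hv₀ hCu hAd _ hqw
  have hZmem1 : ∀ p : ℕ, p.Prime → (p : ℝ) < (Y : ℝ) ^ ε → ∀ m : ℕ,
      (m % p ∈ Z p ↔ ∃ x ∈ V, (p : ℤ) ∣ gm u x (q * m + v)) := by
    intro p hp hpY m
    rw [hZ]
    unfold Zc
    rw [if_pos hpY]
    unfold Zs
    rw [mem_filter, mem_range]
    constructor
    · rintro ⟨_, l, hlV, hl⟩
      exact ⟨l, hlV, (gm_modEq u l (mod_aff q v m p)).1 hl⟩
    · rintro ⟨l, hlV, hl⟩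
      exact ⟨Nat.mod_lt _ hp.pos, l, hlV, (gm_modEq u l (mod_aff q v m p)).2 hl⟩
  have hZmem2 : ∀ p : ℕ, p.Prime → (Y : ℝ) ^ ε ≤ p → ∀ m : ℕ,
      (m % p ∈ Z p ↔ (p : ℤ) ∣ a * m + b) := by
    intro p hp hpY m
    rw [hZ]
    unfold Zc
    rw [if_neg (not_lt.2 hpY), hfm, mem_filter, mem_range, gm_modEq u v₀ (mod_aff q v m p)]
    constructor
    · rintro ⟨_, h1⟩
      exact h1
    · intro h1
      exact ⟨Nat.mod_lt _ hp.pos, h1⟩
  have key := HW Y hYX0 a b ha_ne haY hcop Z hZs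
    (fun p hp hpY m hd => (hZmem1 p hp hpY m).2 ⟨v₀, hv₀, by rw [← hfm]; exact hd⟩) hZmem2
    B' H' hHY' hHY hsize
  -- the comparison of the sets
  have hcard : (PtsZ a b Z R ((Y : ℝ) ^ (h' / 5)) ((Y : ℝ) ^ ε) B' H').card ≤
      (PtsM u V v₀ R q w (X ^ (h / 6)) (X ^ (1 / ((t0 + 1 : ℕ) : ℝ))) B H).card := by
    apply card_le_card_of_injOn (fun m => q * m + v)
    · intro m hm
      unfold PtsZ at hm
      unfold PtsM
      rw [coe_filter, Set.mem_ofPred_eq] at hm ⊢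
      obtain ⟨m1, m2, m3, m4, m5⟩ := hm
      refine ⟨hwin m m1, ?_, ?_, ?_, ?_⟩
      · rw [hv]
        have h1 : q * m ≡ 0 [MOD q] := Nat.modEq_zero_iff_dvd.2 (dvd_mul_right q m)
        simpa using h1.add (Nat.mod_modEq w q)
      · rw [← hfm]
        exact m3
      · intro p hp hpd
        rw [← hfm] at hpd
        refine le_trans ?_ (m4 p hp hpd)
        calc X ^ (h / 6) ≤ X ^ (h' / 5) := Real.rpow_le_rpow_of_exponent_le hX1 (by linarith)
          _ ≤ (Y : ℝ) ^ (h' / 5) := Real.rpow_le_rpow hX0.le hYX (by positivity)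
      · intro l hlV p hp hpd
        by_contra hcon
        push Not at hcon
        have h1 : (p : ℝ) < (Y : ℝ) ^ ε := by
          calc (p : ℝ) ≤ X ^ (1 / ((t0 + 1 : ℕ) : ℝ)) := hcon
            _ < X ^ ε := by
                apply Real.rpow_lt_rpow_of_exponent_lt (by linarith)
                push_cast
                exact ht0
            _ ≤ (Y : ℝ) ^ ε := Real.rpow_le_rpow hX0.le hYX hε.le
        exact m5 p hp h1 ((hZmem1 p hp h1 m).2 ⟨l, hlV, hpd⟩)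
    · intro m _ m' _ he
      have h1 : q * m + v = q * m' + v := he
      have h2 : q * m = q * m' := by omega
      exact Nat.eq_of_mul_eq_mul_left (by omega) h2
  have hVV := VV_ge hv₀ hCu ((Y : ℝ) ^ ε) hqw (H' := H') (Y := ⌊X⌋₊) (hH'H.trans hHfl)
  rw [← hv, ← hZ] at hVV
  obtain ⟨P, hP⟩ : ∃ P : ℝ, P = VQ ⌊X⌋₊ (u * q) V := ⟨_, rfl⟩
  rw [← hP] at hVV
  have hP0 : 0 ≤ P := by
    rw [hP]
    unfold VQ
    apply prod_nonneg
    intro p hp
    rw [mem_filter] at hp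
    have hp0 : (0 : ℝ) < p := by exact_mod_cast hp.2.1.pos
    rw [sub_nonneg, div_le_one hp0]
    exact_mod_cast oF_le' V hp.2.1
  have hcard' : ((PtsZ a b Z R ((Y : ℝ) ^ (h' / 5)) ((Y : ℝ) ^ ε) B' H').card : ℝ) ≤
      ((PtsM u V v₀ R q w (X ^ (h / 6)) (X ^ (1 / ((t0 + 1 : ℕ) : ℝ))) B H).card : ℝ) := by
    exact_mod_cast hcard
  have hfinal : δ / 2 * ((H : ℝ) / q * P) ≤
      ((PtsM u V v₀ R q w (X ^ (h / 6)) (X ^ (1 / ((t0 + 1 : ℕ) : ℝ))) B H).card : ℝ) := by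
    refine le_trans ?_ (key.trans hcard')
    have h1 : (H : ℝ) / q / 2 * P ≤ H' * VV Z 0 H' :=
      mul_le_mul hHhalf hVV hP0 (Nat.cast_nonneg _)
    calc δ / 2 * ((H : ℝ) / q * P) = δ * ((H : ℝ) / q / 2 * P) := by ring
      _ ≤ δ * (H' * VV Z 0 H') := mul_le_mul_of_nonneg_left h1 hδ.le
  rw [hP] at hfinal
  exact hfinal

end Pool.Agent.Q117.MG
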