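import Pool.Agent.Q117.MG.All

/-!
Project MG (helper117): as PRM (proof adapted from the file of helper166), with a window `(x, x + y]` of arbitrary length.
-/

set_option autoImplicit false

namespace Pool.Agent.Q117.MG

open Finset Filter PRMa
open Pool.Agent.Q117.LF (Ro oF)
open Pool.Agent.Q117.AP (AdQ VQ)
open Pool.Agent.Q117.AP.PATa
open Pool.Agent.Q166.MG

/-- conclusion of PRY: scale `X`, windows `(x, x + y]` with `x ≤ 10 X`, `X ^ η ≤ y ≤ X` -/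
def PRYc : Prop := ∀ (k R : ℕ) (η κ : ℝ), 1 ≤ R → 0 ≤ κ → η ≤ 1 → 25 < 3 * (8 * R - 1) * (η - κ) → ∃ t : ℕ, 1 ≤ t ∧ ∃ c : ℝ, 0 < c ∧ ∃ ν : ℝ, 0 < ν ∧ ∃ X0 : ℝ, ∀ X : ℝ, X0 ≤ X →
  ∀ q : ℕ, 1 ≤ q → (q : ℝ) ≤ X ^ κ → ∀ D : Finset ℕ, D.card ≤ k → (∀ δ ∈ D, (δ : ℝ) ≤ X) → AdQ q (ZA D) → ∀ r : ℕ, (∀ δ ∈ D, (r + δ).Coprime q) → ∀ δ₀ ∈ D,
  ∀ x y : ℝ, 0 ≤ x → x ≤ 10 * X → X ^ η ≤ y → y ≤ X →
    c * (y / q * VQ ⌊X⌋₊ q (ZA D)) ≤
      ((Prm q r D δ₀ R (X ^ ((η - κ) / 7)) (X ^ (1 / (t : ℝ))) (ν * ((Nat.totient q : ℝ) / q * Real.log X)) (ν / VQ ⌊X⌋₊ q (ZA D)) x y).card : ℝ)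

theorem pryC : PRYc := by
  have hN := mgnC
  intro k R η κ hR hκ hη hcond
  classical
  have hR' : (1 : ℝ) ≤ R := by exact_mod_cast hR
  have hA : (0 : ℝ) < 3 * (8 * R - 1) := by linarith
  obtain ⟨h, hlt, hge, hh25, hg0p⟩ := choose_h hA hcond
  have hηp : 0 < η := by linarith
  have hh1 : h ≤ 1 := by linarith
  obtain ⟨t, ht, θ, hθ, hT⟩ := hN k (k + 1) R h hR hh1 hh25
  obtain ⟨c', hc', ν', hν', X0, hX⟩ := hT t le_rfl
  obtain ⟨C, hC, hQ⟩ := Q1_le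
  obtain ⟨c₂, hc₂, hlow⟩ := VQ_low k
  obtain ⟨ν, hνdef⟩ : ∃ ν, ν = min (min (ν' / (2 * C)) ν') 1 := ⟨_, rfl⟩
  have hνp : 0 < ν := by
    rw [hνdef]
    exact lt_min (lt_min (by positivity) hν') one_pos
  have hν1 : ν ≤ 1 := by rw [hνdef]; exact min_le_right _ _
  have hνC : ν ≤ ν' / (2 * C) := by rw [hνdef]; exact (min_le_left _ _).trans (min_le_left _ _)
  have hνν : ν ≤ ν' := by rw [hνdef]; exact (min_le_left _ _).trans (min_le_right _ _)
  have htR : (0 : ℝ) < t := by exact_mod_cast ht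
  obtain ⟨x1, hx1⟩ := ev_pow (show 0 < η - κ - h by linarith) 2
  obtain ⟨x2, hx2⟩ := ev_pow (show 0 < η - κ by linarith) 10
  obtain ⟨x3, hx3⟩ := ev_pow hθ 12
  obtain ⟨x4, hx4⟩ := ev_logp (k + 1) one_pos (1 / c₂)
  obtain ⟨x5, hx5⟩ := ev_logp 1 one_pos 1
  refine ⟨t, ht, c' / 2, by positivity, ν, hνp,
    max 4 (max X0 (max x1 (max x2 (max x3 (max x4 x5))))), ?_⟩
  intro x hx q hq hqx D hDk hDx hAd r hcop δ₀ hδ₀ a b ha0 ha hbη hbx
  simp only [max_le_iff] at hx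
  obtain ⟨hx4', hxX, hxx1, hxx2, hxx3, hxx4, hxx5⟩ := hx
  have hx0 : (0 : ℝ) < x := by linarith
  have hxone : (1 : ℝ) ≤ x := by linarith
  have e1 : 2 ≤ x ^ (η - κ - h) := hx1 x hxx1
  have e2 : 10 ≤ x ^ (η - κ) := hx2 x hxx2
  have e3 : 12 ≤ x ^ θ := hx3 x hxx3
  have e4 : 1 / c₂ * Real.log x ^ (k + 1) ≤ x := by
    have := hx4 x hxx4
    rwa [Real.rpow_one] at this
  have e5 : Real.log x ≤ x := by
    have := hx5 x hxx5
    rwa [Real.rpow_one, one_mul, pow_one] at this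
  have hlog0 : 0 < Real.log x := Real.log_pos (by linarith)
  have hqr : (1 : ℝ) ≤ q := by exact_mod_cast hq
  have hq0 : (0 : ℝ) < q := by linarith
  have hxκη : x ^ κ ≤ x ^ η := Real.rpow_le_rpow_of_exponent_le hxone (by linarith)
  have hxη : x ^ η ≤ x := by
    calc x ^ η ≤ x ^ (1 : ℝ) := Real.rpow_le_rpow_of_exponent_le hxone hη
      _ = x := Real.rpow_one x
  have hqX : (q : ℝ) ≤ x := hqx.trans (hxκη.trans hxη)
  have htp := tot_pos hq
  have ht1 := tot_le_one hq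
  -- the window
  obtain ⟨r', hr'⟩ : ∃ r', r' = r % q := ⟨_, rfl⟩
  have hr'q : r' < q := by rw [hr']; exact Nat.mod_lt _ hq
  obtain ⟨B, hB⟩ : ∃ B, B = ⌊a⌋₊ / q + 1 := ⟨_, rfl⟩
  obtain ⟨Y, hY⟩ : ∃ Y, Y = ⌊b⌋₊ := ⟨_, rfl⟩
  obtain ⟨H, hH⟩ : ∃ H, H = Y / q - 3 := ⟨_, rfl⟩
  have hb0 : (0 : ℝ) < b := lt_of_lt_of_le (by positivity) hbη
  have hYle : (Y : ℝ) ≤ b := by rw [hY]; exact Nat.floor_le hb0.le
  have hYlt : b < Y + 1 := by rw [hY]; exact Nat.lt_floor_add_one _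
  have hsplit : x ^ η = x ^ κ * x ^ (η - κ) := by
    rw [← Real.rpow_add hx0]
    congr 1
    ring
  have hxq : 10 ≤ b / q := by
    rw [le_div_iff₀ hq0]
    refine le_trans ?_ hbη
    rw [hsplit]
    have : (0 : ℝ) < x ^ κ := by positivity
    calc 10 * (q : ℝ) ≤ 10 * x ^ κ := by gcongr
      _ = x ^ κ * 10 := by ring
      _ ≤ _ := by gcongr
  have hHge : b / (2 * q) ≤ H := by
    have h1 : (Y : ℝ) < q * (Y / q : ℕ) + q := by
      have h2 := Nat.lt_div_mul_add (a := Y) hq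
      have h3 : Y < q * (Y / q) + q := by
        calc Y < Y / q * q + q := h2
          _ = _ := by ring
      exact_mod_cast h3
    have h2 : ((Y / q : ℕ) : ℝ) ≤ H + 3 := by
      have : Y / q ≤ H + 3 := by omega
      exact_mod_cast this
    have h3 : b / q ≤ H + 5 := by
      rw [div_le_iff₀ hq0]
      nlinarith
    have h4 : b / (2 * q) = b / q / 2 := by
      rw [div_div, mul_comm (q : ℝ)]
    rw [h4]
    linarith
  have hHle : (H : ℝ) ≤ b := by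
    have : H ≤ Y := by
      rw [hH]
      exact (Nat.sub_le _ _).trans (Nat.div_le_self _ _)
    calc (H : ℝ) ≤ Y := by exact_mod_cast this
      _ ≤ _ := hYle
  have hXh : x ^ h ≤ H := by
    refine le_trans ?_ hHge
    rw [le_div_iff₀ (by positivity)]
    refine le_trans ?_ hbη
    have h1 : x ^ η = x ^ κ * (x ^ h * x ^ (η - κ - h)) := by
      rw [← Real.rpow_add hx0, ← Real.rpow_add hx0]
      congr 1
      ring
    rw [h1]
    calc x ^ h * (2 * q) = q * (x ^ h * 2) := by ring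
      _ ≤ x ^ κ * (x ^ h * x ^ (η - κ - h)) := by gcongr
  have hdm : q * (⌊a⌋₊ / q) ≤ ⌊a⌋₊ := Nat.mul_div_le _ _
  have hdm' : ⌊a⌋₊ < q * (⌊a⌋₊ / q) + q := by
    have h2 := Nat.lt_div_mul_add (a := ⌊a⌋₊) hq
    calc ⌊a⌋₊ < ⌊a⌋₊ / q * q + q := h2
      _ = _ := by ring
  have hdY : q * (Y / q) ≤ Y := Nat.mul_div_le _ _
  have hwin : ∀ n ∈ Ioc B (B + H), a < ((q * n + r' : ℕ) : ℝ) ∧ q * n + r' ≤ ⌊a + b⌋₊ := by
    intro n hn
    rw [mem_Ioc] at hn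
    constructor
    · have h1 : ⌊a⌋₊ + 1 ≤ q * n + r' := by
        have : q * (⌊a⌋₊ / q + 2) ≤ q * n := Nat.mul_le_mul_left _ (by omega)
        rw [mul_add] at this
        omega
      calc a < ⌊a⌋₊ + 1 := Nat.lt_floor_add_one a
        _ ≤ _ := by exact_mod_cast h1
    · have hH3 : n ≤ ⌊a⌋₊ / q + Y / q - 2 := by omega
      have h4 : 3 < Y / q := by omega
      have h1 : q * n ≤ q * (⌊a⌋₊ / q + Y / q - 2) := Nat.mul_le_mul_left _ hH3
      have h2 : q * (⌊a⌋₊ / q + Y / q - 2) + q * 2 = q * (⌊a⌋₊ / q) + q * (Y / q) := by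
        rw [← mul_add, ← mul_add]
        congr 1
        omega
      have h3 : q * n + r' ≤ ⌊a⌋₊ + Y := by omega
      refine h3.trans (Nat.le_floor ?_)
      push_cast
      have := Nat.floor_le ha0
      linarith
  have hflx : q ≤ ⌊x⌋₊ := Nat.le_floor hqX
  have hfl2 : 2 ≤ ⌊x⌋₊ := Nat.le_floor (by push_cast; linarith)
  -- the set `V`
  obtain ⟨V, hV⟩ : ∃ V : Finset ℤ, V = (ZA D).image (fun f => f + (r' : ℤ)) := ⟨_, rfl⟩
  have hVm : ∀ v : ℤ, v ∈ V ↔ ∃ δ ∈ D, v = (δ : ℤ) + r' := by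
    intro v
    rw [hV, mem_image]
    unfold ZA
    constructor
    · rintro ⟨f, hf, rfl⟩
      obtain ⟨δ, hδ, rfl⟩ := mem_image.1 hf
      exact ⟨δ, hδ, rfl⟩
    · rintro ⟨δ, hδ, rfl⟩
      exact ⟨δ, mem_image.2 ⟨δ, hδ, rfl⟩, rfl⟩
  have hZk : (ZA D).card ≤ k := card_image_le.trans hDk
  have hVk : V.card ≤ k := by rw [hV]; exact card_image_le.trans hZk
  have hAV : AdQ q V := by rw [hV]; exact AdQ_shift hAd _
  have hVQ : VQ ⌊x⌋₊ q V = VQ ⌊x⌋₊ q (ZA D) := by rw [hV]; exact VQ_shift _ _ _ _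
  have hv₀ : (δ₀ : ℤ) + r' ∈ V := (hVm _).2 ⟨δ₀, hδ₀, rfl⟩
  have hVx : ∀ v ∈ V, |(v : ℝ)| ≤ x ^ 2 := by
    intro v hv
    obtain ⟨δ, hδ, rfl⟩ := (hVm v).1 hv
    have h1 := hDx δ hδ
    have h2 : (r' : ℝ) ≤ q := by exact_mod_cast hr'q.le
    push_cast
    rw [abs_of_nonneg (by positivity)]
    nlinarith
  have hCu : Cu q V := by
    intro p hp hpq v hv hpv
    obtain ⟨δ, hδ, rfl⟩ := (hVm v).1 hv
    have h1 : p ∣ δ + r' := by exact_mod_cast hpv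
    have h2 : p ∣ r + δ := by
      have h3 : r % q + δ ≡ r + δ [MOD p] := by
        refine Nat.ModEq.add_right _ ?_
        exact (Nat.mod_modEq r q).of_dvd hpq
      have h4 : p ∣ r % q + δ := by rw [← hr', add_comm]; exact h1
      exact (h3.dvd_iff dvd_rfl).1 h4
    have h5 : p ∣ 1 := by
      rw [← hcop δ hδ]
      exact Nat.dvd_gcd h2 hpq
    exact hp.one_lt.ne' (Nat.dvd_one.1 h5)
  -- the family
  obtain ⟨f, hf, hfs⟩ := fin_surj hVk hv₀
  have hk : 1 ≤ k := (card_pos.2 ⟨_, hv₀⟩).trans_le hVk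
  obtain ⟨L, hL⟩ : ∃ L, L = ν * ((Nat.totient q : ℝ) / q * Real.log x) := ⟨_, rfl⟩
  obtain ⟨L', hL'⟩ : ∃ L', L' = ν / VQ ⌊x⌋₊ q (ZA D) := ⟨_, rfl⟩
  have hlogf : 0 < Real.log (⌊x⌋₊ : ℕ) := Real.log_pos (by exact_mod_cast (show 1 < ⌊x⌋₊ by omega))
  have hlogle : Real.log (⌊x⌋₊ : ℕ) ≤ Real.log x :=
    Real.log_le_log (by exact_mod_cast (show 0 < ⌊x⌋₊ by omega)) (Nat.floor_le hx0.le)
  have hVlow := hlow ⌊x⌋₊ q hfl2 (ZA D) hZk hAd
  have hVpos : 0 < VQ ⌊x⌋₊ q (ZA D) := lt_of_lt_of_le (by positivity) hVlow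
  have hL0 : 0 ≤ L := by rw [hL]; positivity
  have hL'0 : 0 ≤ L' := by rw [hL']; positivity
  have hLx : L ≤ x := by
    have h1 : (Nat.totient q : ℝ) / q * Real.log x ≤ 1 * Real.log x := by gcongr
    calc L = ν * ((Nat.totient q : ℝ) / q * Real.log x) := hL
      _ ≤ 1 * (1 * Real.log x) := by gcongr
      _ ≤ x := by linarith
  have hL'x : L' ≤ x := by
    rw [hL', div_le_iff₀ hVpos]
    have h1 : 1 / c₂ * Real.log (⌊x⌋₊ : ℕ) ^ (k + 1) ≤ x := le_trans (by gcongr) e4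
    have h2 : Real.log (⌊x⌋₊ : ℕ) ^ (k + 1) ≤ x * c₂ := by
      rw [one_div, inv_mul_eq_div, div_le_iff₀ hc₂] at h1
      exact h1
    have h3 : (1 : ℝ) ≤ x * (c₂ / Real.log (⌊x⌋₊ : ℕ) ^ (k + 1)) := by
      rw [← mul_div_assoc, one_le_div (by positivity)]
      exact h2
    calc ν ≤ 1 := hν1
      _ ≤ x * (c₂ / Real.log (⌊x⌋₊ : ℕ) ^ (k + 1)) := h3
      _ ≤ x * VQ ⌊x⌋₊ q (ZA D) := by gcongr
  have hLV : L * Q1 ⌊x⌋₊ q ≤ ν' := by
    rw [hL]
    exact LV_le hC hQ hνp hνC hx4' hq hqX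
  have hL'V : L' * VQ ⌊x⌋₊ q V ≤ ν' := by
    rw [hVQ, hL', div_mul_cancel₀ _ hVpos.ne']
    exact hνν
  obtain ⟨F, hF1, hF2⟩ : ∃ F : Fin (k + 1) → Finset ℤ,
      (∀ i : Fin k, F i.castSucc = {f i}) ∧ F (Fin.last k) = V :=
    ⟨Fin.snoc (α := fun _ => Finset ℤ) (fun i => {f i}) V,
      fun i => Fin.snoc_castSucc (α := fun _ => Finset ℤ) V (fun i => {f i}) i,
      Fin.snoc_last (α := fun _ => Finset ℤ) V (fun i => {f i})⟩
  obtain ⟨Λ, hΛ1, hΛ2⟩ : ∃ Λ : Fin (k + 1) → ℝ,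
      (∀ i : Fin k, Λ i.castSucc = L) ∧ Λ (Fin.last k) = L' :=
    ⟨Fin.snoc (α := fun _ => ℝ) (fun _ => L) L',
      fun i => Fin.snoc_castSucc (α := fun _ => ℝ) L' (fun _ => L) i,
      Fin.snoc_last (α := fun _ => ℝ) L' (fun _ => L)⟩
  have key := hX x hxX q q hq hq hqX hqX (fun p _ h => h) V hVk hVx hCu hAV _ hv₀ F ?_ Λ ?_
    (x ^ (1 / (t : ℝ))) le_rfl le_rfl B H hXh (hHle.trans hbx) ?_
  · rw [hVQ] at key
    have hgm : ∀ (e : ℤ) (n : ℕ), gm q (e + r') n = ((q * n + r' : ℕ) : ℤ) + e := by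
      intro e n
      unfold gm
      push_cast
      ring
    have hcard : (PtsN q q V ((δ₀ : ℤ) + r') R (x ^ (h / 6)) (x ^ (1 / (t : ℝ))) Λ F B H).card ≤
        (Prm q r D δ₀ R (x ^ ((η - κ) / 7)) (x ^ (1 / (t : ℝ))) L L' a b).card := by
      refine card_le_card_of_injOn (fun n => q * n + r') ?_ ?_
      · intro n hn
        unfold PtsN at hn
        unfold Prm
        rw [mem_coe, mem_filter] at hn
        rw [mem_coe, mem_filter, mem_Icc]
        obtain ⟨hn0, hn3, hn4, hn5, hn6⟩ := hn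
        obtain ⟨w1, w2⟩ := hwin n hn0
        have hm1 : 1 ≤ q * n + r' := by
          have : (0 : ℝ) < ((q * n + r' : ℕ) : ℝ) := by linarith
          have h2 : 0 < q * n + r' := by exact_mod_cast this
          omega
        have hg0 : gm q ((δ₀ : ℤ) + r') n = ((q * n + r' + δ₀ : ℕ) : ℤ) := by
          rw [hgm]
          push_cast
          ring
        rw [hg0] at hn3 hn4
        refine ⟨⟨hm1, w2⟩, w1, ?_, ?_, ?_, ?_, ?_, ?_⟩
        · show (q * n + r') % q = r % q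
          rw [hr', Nat.mul_add_mod, Nat.mod_mod]
        · exact hn3
        · intro p hp hpd
          refine le_trans ?_ (hn4 p hp (by exact_mod_cast hpd))
          apply Real.rpow_le_rpow_of_exponent_le hxone
          linarith
        · intro δ hδ
          have h1 := hn5 ((δ : ℤ) + r') ((hVm _).2 ⟨δ, hδ, rfl⟩)
          rw [hgm] at h1
          exact h1
        · intro δ hδ s hs hRo
          obtain ⟨i, hi⟩ := hfs ((δ : ℤ) + r') ((hVm _).2 ⟨δ, hδ, rfl⟩)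
          have h1 := hn6 (Fin.castSucc i) s
          rw [hF1, hΛ1] at h1
          simp only [mem_singleton, forall_eq] at h1
          rw [hi] at h1
          have h2 := h1 hs (by
            rw [show (δ : ℤ) + r' + q * s = (δ + q * s) + r' by ring, hgm]
            rw [← add_assoc]
            exact hRo)
          obtain ⟨ε, hε, he⟩ := (hVm _).1 h2
          exact ⟨ε, hε, by linarith⟩
        · intro s hs0 hs
          by_contra hcon
          push Not at hcon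
          have h1 := hn6 (Fin.last k) s
          rw [hF2, hΛ2] at h1
          have h2 := h1 hs (by
            intro v hv
            obtain ⟨δ, hδ, rfl⟩ := (hVm v).1 hv
            rw [show (δ : ℤ) + r' + q * s = (δ + q * s) + r' by ring, hgm]
            rw [← add_assoc]
            exact hcon δ hδ)
          obtain ⟨v, hv, hv'⟩ := no_shift ⟨_, hv₀⟩ (c := (q : ℤ) * s)
            (mul_ne_zero (by exact_mod_cast (show q ≠ 0 by omega)) hs0)
          exact hv' (h2 v hv)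
      · intro n _ n' _ hnn
        dsimp only at hnn
        exact Nat.eq_of_mul_eq_mul_left hq (Nat.add_right_cancel hnn)
    have h3 : ((PtsN q q V ((δ₀ : ℤ) + r') R (x ^ (h / 6)) (x ^ (1 / (t : ℝ))) Λ F B H).card : ℝ) ≤
        (Prm q r D δ₀ R (x ^ ((η - κ) / 7)) (x ^ (1 / (t : ℝ))) L L' a b).card := by
      exact_mod_cast hcard
    rw [← hL, ← hL']
    refine le_trans ?_ (key.trans h3)
    calc c' / 2 * (b / q * VQ ⌊x⌋₊ q (ZA D)) = c' * (b / (2 * q) * VQ ⌊x⌋₊ q (ZA D)) := by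
          field_simp
      _ ≤ c' * (H * VQ ⌊x⌋₊ q (ZA D)) := by gcongr
  · refine Fin.lastCases ?_ (fun i => ?_)
    · rw [hF2]
      exact ⟨⟨_, hv₀⟩, hVk, hVx, hAV⟩
    · rw [hF1]
      refine ⟨singleton_nonempty _, by rw [card_singleton]; exact hk, ?_, AdQ_single _ _⟩
      intro e he
      rw [mem_singleton.1 he]
      exact hVx _ (hf _)
  · refine Fin.lastCases ?_ (fun i => ?_)
    · rw [hF2, hΛ2]
      exact ⟨hL'0, hL'x, hL'V⟩
    · rw [hF1, hΛ1]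
      exact ⟨hL0, hLx, by rw [VQ_single]; exact hLV⟩
  · intro n hn
    obtain ⟨w1, w2⟩ := hwin n hn
    have hm : ((q * n + r' : ℕ) : ℝ) ≤ a + b := by
      have h1 : ((q * n + r' : ℕ) : ℝ) ≤ (⌊a + b⌋₊ : ℕ) := by exact_mod_cast w2
      exact h1.trans (Nat.floor_le (by positivity))
    have h1 : |((gm q ((δ₀ : ℤ) + r') n : ℤ) : ℝ)| ≤ 12 * x := by
      unfold gm
      push_cast
      push_cast at hm
      have a1 := hDx δ₀ hδ₀
      rw [abs_of_nonneg (by positivity)]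
      linarith
    refine h1.trans ?_
    rw [Real.rpow_add hx0, Real.rpow_one, mul_comm (12 : ℝ)]
    gcongr

end Pool.Agent.Q117.MG
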