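import Pool.Agent.Q117.AP.Stm

/-!
Project MG (helper117): several residue classes to a growing modulus at the same time (simultaneous multipliers, Goldbach representations and tuples in
progressions), at the natural scale, uniform in the modulus and in the classes.

Every `St_X` below is the statement of one job; the doc comment is its complete proof. The file of a job is `Pool/Agent/Q117/MG/<Name>.lean`, the theorem
has the name given in the comment (namespace `Pool.Agent.Q117.MG`). The hypotheses of a statement are the conclusions of other jobs (they are assembled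
later), so all jobs are independent.
-/

set_option autoImplicit false

namespace Pool.Agent.Q117.MG

open Finset Filter
open Pool.Agent.Q117.LF (Ro oF)
open Pool.Agent.Q117.SI (St_WZ)
open Pool.Agent.Q117.AP (AdQ VQ)

/-- the value `u n + v` -/
def gm (u : ℕ) (v : ℤ) (n : ℕ) : ℤ := (u : ℤ) * n + v

/-- no prime of `u` divides an element of `V` -/
def Cu (u : ℕ) (V : Finset ℤ) : Prop := ∀ p : ℕ, p.Prime → p ∣ u → ∀ v ∈ V, ¬ (p : ℤ) ∣ v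

open Classical in
/-- the `n ≡ w (mod W)` of the window with `u n + v₀` a product of at most `R` primes, all `≥ x`, and all the `u n + v`, `v ∈ V`, rough -/
noncomputable def PtsM (u : ℕ) (V : Finset ℤ) (v₀ : ℤ) (R W w : ℕ) (x z : ℝ) (B H : ℕ) : Finset ℕ :=
  (Ioc B (B + H)).filter (fun n : ℕ => n ≡ w [MOD W] ∧ (gm u v₀ n).natAbs.primeFactorsList.length ≤ R ∧
    (∀ p : ℕ, p.Prime → (p : ℤ) ∣ gm u v₀ n → x ≤ p) ∧ ∀ v ∈ V, Ro z (gm u v n))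

/-- conclusion of MGE -/
def MGEc : Prop := ∀ (k R : ℕ) (h : ℝ), 1 ≤ R → h ≤ 1 → 25 < 3 * (8 * R - 1) * h →
  ∃ t : ℕ, 1 ≤ t ∧ ∃ θ : ℝ, 0 < θ ∧ ∃ c : ℝ, 0 < c ∧ ∃ X0 : ℝ, ∀ X : ℝ, X0 ≤ X → ∀ u : ℕ, 1 ≤ u →
    ∀ V : Finset ℤ, V.card ≤ k → Cu u V → AdQ u V → ∀ v₀ ∈ V, ∀ W w : ℕ, 1 ≤ W → (W : ℝ) ≤ X ^ θ → (u : ℝ) * W ≤ X →
    (∀ p : ℕ, p.Prime → p ∣ W → ∀ v ∈ V, ¬ (p : ℤ) ∣ gm u v w) →
    ∀ B H : ℕ, X ^ h ≤ H → (H : ℝ) ≤ X → (∀ n ∈ Ioc B (B + H), |((gm u v₀ n : ℤ) : ℝ)| ≤ X ^ (1 + θ)) →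
      c * ((H : ℝ) / W * VQ ⌊X⌋₊ (u * W) V) ≤ ((PtsM u V v₀ R W w (X ^ (h / 6)) (X ^ (1 / (t : ℝ))) B H).card : ℝ)

/-- **MGE** (theorem `mge : St_MGE`): the lower bound, uniform in `u` and `V`, with a growing modulus.

Proof. As `lbi` (`Pool/Agent/Q117/SI/Lbi.lean`) and `lge` (`Pool/Agent/Q117/AP/Lge.lean`, if it is there: almost the same statement). Choose `h' < h` with `25 < 3 (8 R - 1) h'` and `9 / 10 h ≤ h'` (so `h' / 5 > h / 6`; note `h > 0`). `WZ` (the hypothesis `St_WZ`) with `K' = k + 1`, `R`, `h'`: `δ`, `ε`, `S`, `X0'`; `X' = ⌈X⌉₊` is the scale there. `θ = min ((h - h') / 4) (min (1 / 4) (S - 1))`. Let `w' = w % W`, `n = W m + w'`; the window of the `m`: `B' = B / W + 1`, `H' = H / W - 3` (natural numbers, `H' ≥ H / (2 W)` and `H' ≥ X' ^ h'` for `X` large; for `m ∈ (B', B' + H']` we have `B < W m + w' ≤ B + H`).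
Main form: `a m + b`, `a = u W`, `b = u w' + v₀` (`= gm u v₀ (W m + w') - a m`); `|a| ≤ X ≤ X'`, `a ≠ 0`. COPRIME: let a prime `p` divide `a` and `b`. If `p ∣ W`: `gm u v₀ w ≡ b (mod p)` is divisible by `p`, excluded. If `p ∣ u`: `b ≡ v₀ (mod p)`, against `Cu`. SIZES: `|a m + b| ≤ X ^ (1 + θ) ≤ X' ^ S`.
CLASSES: for a prime `p < X' ^ ε`: `Z p` = the `m < p` with `p ∣ gm u v (W m + w')` for some `v ∈ V`; for a prime `p ≥ X' ^ ε`: the `m < p` with `p ∣ a m + b` (`∅` for nonprimes). If `p ∣ W` or `p ∣ u`: `Z p = ∅` (the value is `≡ gm u v w`, resp. `≡ v` modulo `p`; also for `p ≥ X' ^ ε`). If `p ∤ u W`: `p ∣ gm u v (W m + w')` iff `W m + w' ≡ - v / u`; the classes of `m` correspond bijectively to the classes of the `v` modulo `p`: for `p < X' ^ ε` `|Z p| = oF V p`, which is `≤ k` and `< p` by `AdQ u V`; for `p ≥ X' ^ ε` `|Z p| = 1 ≤ oF V p` (`V` is not empty). So `SysZ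 K' Z` and `|Z p| ≤ oF V p` for `p ∤ u W`.
`VV Z 0 H' ≥ VQ ⌊X⌋₊ (u W) V` (all the factors are in `[0, 1]`, those of the primes `p ∣ u W` are `1` on the left and missing on the right, `H' ≤ X`). CONCLUSION: `m ↦ W m + w'` maps `PtsZ` injectively into `PtsM`: the prime factors of the value for `v₀` are `≥ X' ^ (h' / 5) ≥ X ^ (h / 6)`; `t` is so large that `1 / t < ε`: a prime `p ≤ X ^ (1 / t)` is `< X' ^ ε`, `m % p ∉ Z p`, so `p` divides no value (`Ro z` asks `z < p`; `gm u v (W m + w')` modulo `p` depends on `m % p` only). -/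
def St_MGE : Prop := St_WZ → MGEc

open Classical in
/-- conclusion of MGU -/
def MGUc : Prop := ∀ (k T : ℕ) (h : ℝ), 1 ≤ T → 0 < h → h ≤ 1 → ∃ C : ℝ, 0 < C ∧ ∃ X0 : ℝ, ∀ X : ℝ, X0 ≤ X → ∀ u : ℕ, 1 ≤ u →
  ∀ V : Finset ℤ, V.card ≤ k → V.Nonempty → ∀ B H : ℕ, X ^ h ≤ H → (H : ℝ) ≤ X →
    (((Ioc B (B + H)).filter (fun n : ℕ => ∀ v ∈ V, Ro (X ^ (1 / (T : ℝ))) (gm u v n))).card : ℝ) ≤ C * (H * VQ ⌊X⌋₊ u V)

/-- **MGU** (theorem `mgu : MGUc`): the upper bound.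

Proof. Adapt `uge` (`Pool/Agent/Q117/AP/Uge.lean`, on main; the statement is almost the same): `int_upper` (`Q253/Thin/Int.lean`) with `r = k + 1`, `t = T`, the scale `H` (`H ≥ X ^ h` is large), `θ = 1`, `(A, B] = (B, B + H]`. `Z p = ∅` if `p ∣ u`; if `p ∤ u`: `Z p` = the `n < p` with `p ∣ gm u v n` for some `v ∈ V`, `|Z p| = oF V p ≤ k` (the classes `- v / u`).
If `oF V p = p` for some prime `p ∤ u` then `p ≤ k ≤ X ^ (1 / T)` and the set on the left hand side is empty, while `VQ ≥ 0` (`oF ≤ p` always). Otherwise `SysZ (k + 1) Z`. `Ro (X ^ (1/T))` of all the values implies `n % p ∉ Z p` for the primes `p ≤ H ^ (1/T)`. `VV Z 0 H ≤ C' VQ ⌊X⌋₊ u V`: the quotient is the product of `(1 - oF V p / p)⁻¹` over the primes `H < p ≤ X`, `p ∤ u`, at most `∏ (1 - (k + 1) / p)⁻¹ ≤ C'` by Mertens (`log X ≤ (1 / h) log H`), exactly as in `Uge.lean`. -/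
def St_MGU : Prop := MGUc

/-- the product of `1 + 2 / p` over the primes `p ≤ y` that divide `m` and not `q` -/
noncomputable def GQ (q y : ℕ) (m : ℤ) : ℝ := ∏ p ∈ (Icc 1 y).filter (fun p : ℕ => p.Prime ∧ ¬ p ∣ q ∧ (p : ℤ) ∣ m), (1 + 2 / (p : ℝ))

/-- **MGL** (theorem `mgl : St_MGL`): the sieve product of a union of two sets.

Proof. As `lgc` (`Pool/Agent/Q117/AP/Lgc.lean`, on main). Prime by prime; let `p ≤ y` be a prime, `N = 2 k ^ 2 + k`, `D = V ∪ {f + q s}`. If `p ∣ u` there is no factor on the left, none in `VQ y u V` and none in `VQ y q F` (`p ∣ q`). If `p ∤ u`, `p ∣ q`: the factor `1 - oF D p / p ≤ 1 - oF V p / p`, no factor in `VQ y q F`, none in `GQ`. Let `p ∤ q` (so `p ∤ u`), `a = oF V p`, `b = oF F p` (also the number of the classes of the `f + q s`; `b ≤ p - 1` by `AdQ q F`: some class `- r` contains no element of `F`; `b ≤ k`).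
If `p` divides none of the `f + q s - v`: the classes of the `f + q s` and those of the `v` are different, `oF D p = a + b`, and `1 - (a + b) / p ≤ (1 - a / p) (1 - b / p)`. If `p` divides one of the numbers `f + q s - v`: the right hand side contains the factor `(1 + 2 / p) ^ N` at least (all `GQ` factors are `≥ 1`), `1 - oF D p / p ≤ 1 - a / p`, and `(1 - b / p) (1 + 2 / p) ^ N ≥ 1`: for `p ≥ 2 k`: `(1 - k / p) (1 + 2 k / p) = 1 + k / p - 2 k ^ 2 / p ^ 2 ≥ 1` and `(1 + 2 / p) ^ N ≥ 1 + 2 k / p` (Bernoulli, `N ≥ k`);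
for `p < 2 k`: `1 - b / p ≥ 1 / p` and `(1 + 2 / p) ^ N ≥ 1 + 2 N / p ≥ p` since `2 N = 4 k ^ 2 + 2 k ≥ p ^ 2`. All factors are nonnegative (`oF ≤ p`: it is a number of residues modulo `p`). Multiply over the primes (write both sides as products over all primes `p ≤ y` of the local factors). -/
def St_MGL : Prop := ∀ (k y u q : ℕ), (∀ p : ℕ, p.Prime → p ∣ u → p ∣ q) → ∀ V F : Finset ℤ, V.card ≤ k → F.card ≤ k → AdQ q F → ∀ s : ℤ,
  VQ y u (V ∪ F.image (fun f => f + q * s)) ≤ VQ y u V * VQ y q F * (∏ f ∈ F, ∏ v ∈ V, GQ q y (f + q * s - v)) ^ (2 * k ^ 2 + k)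

/-- conclusion of MGA -/
def MGAc : Prop := ∀ N : ℕ, ∃ C : ℝ, 0 < C ∧ ∃ X0 : ℝ, ∀ X : ℝ, X0 ≤ X → ∀ q : ℕ, 1 ≤ q → (q : ℝ) ≤ X → ∀ β : Fin N → ℤ, (∀ x, |(β x : ℝ)| ≤ X ^ 3) →
  ∀ L : ℕ, (L : ℝ) ≤ X → ∑ s ∈ (Icc (-(L : ℤ)) L).filter (fun s => ∀ x, (q : ℤ) * s + β x ≠ 0), ∏ x, GQ q ⌊X⌋₊ (q * s + β x) ≤ C * (L + (Real.log X) ^ (1 / 2 : ℝ))

/-- **MGA** (theorem `mga : MGAc`): the average of products of `GQ` over a short window, uniformly in the modulus.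

Proof. Adapt `avg` (`Pool/Agent/Q117/LF/Avg.lean`; its statement and proof are in `LF/Stm5.lean`). Let `X` be large, `w = ⌊(log X) ^ (1/2)⌋`. For `m = q s + β ≠ 0`: `|m| ≤ 2 X ^ 3`. The primes `p > w` dividing `m`: `∑ 1 / p ≤ ∑_{w < p ≤ log X} 1 / p + #{p ∣ m : p > log X} / log X ≤ C₀` (Mertens; `(log X) ^ # ≤ |m|`). So `GQ q ⌊X⌋ m ≤ exp (2 C₀) g m` with `g m = ∏_{p ≤ w, p ∤ q, p ∣ m} (1 + 2 / p)`. `∏_x g (m x) ≤ ∑_x (g (m x)) ^ N` (the largest one; `N ≥ 1`), and `(1 + 2 / p) ^ N ≤ 1 + N' / p`, `N' = 3 ^ N`.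
So it is enough to bound, for one `x`, `∑_s ∏_{p ≤ w, p ∤ q, p ∣ q s + β} (1 + N' / p) = ∑_s ∑_{e} N' ^ ω(e) / e`, `e` over the squarefree numbers composed of primes `≤ w` not dividing `q` with `e ∣ q s + β`. For fixed `e` (prime to `q`) the `s` with `e ∣ q s + β` are one class modulo `e`: at most `2 L / e + 2` of them in `[-L, L]`. The sum is at most `2 L ∏_{p ≤ w} (1 + N' / p ^ 2) + 2 ∏_{p ≤ w} (1 + N' / p) ≤ C (L + (log w + 1) ^ N')`, and `(log w + 1) ^ N' ≤ (log X) ^ (1/2)` for `X` large. For `N = 0` the sum is at most `2 L + 1`. -/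
def St_MGA : Prop := MGAc

open Classical in
/-- the good `n` of the window: `u n + v₀` has at most `R` prime factors, all `≥ x`, all the `u n + v`, `v ∈ V`, are rough, and for all the sets `F γ` and all shifts `|s| ≤ L γ`: if all the `u n + f + q s`, `f ∈ F γ`, are rough then all the `f + q s` are in `V` -/
noncomputable def PtsN (u q : ℕ) (V : Finset ℤ) (v₀ : ℤ) (R : ℕ) (x z : ℝ) {g : ℕ} (L : Fin g → ℝ) (F : Fin g → Finset ℤ) (B H : ℕ) : Finset ℕ :=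
  (Ioc B (B + H)).filter (fun n : ℕ => (gm u v₀ n).natAbs.primeFactorsList.length ≤ R ∧ (∀ p : ℕ, p.Prime → (p : ℤ) ∣ gm u v₀ n → x ≤ p) ∧
    (∀ v ∈ V, Ro z (gm u v n)) ∧ ∀ γ, ∀ s : ℤ, |(s : ℝ)| ≤ L γ → (∀ f ∈ F γ, Ro z (gm u (f + q * s) n)) → ∀ f ∈ F γ, f + q * s ∈ V)

/-- conclusion of MGN -/
def MGNc : Prop := ∀ (k g R : ℕ) (h : ℝ), 1 ≤ R → h ≤ 1 → 25 < 3 * (8 * R - 1) * h → ∃ t : ℕ, 1 ≤ t ∧ ∃ θ : ℝ, 0 < θ ∧ ∀ T : ℕ, t ≤ T → ∃ c : ℝ, 0 < c ∧ ∃ ν : ℝ, 0 < ν ∧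
  ∃ X0 : ℝ, ∀ X : ℝ, X0 ≤ X → ∀ u q : ℕ, 1 ≤ u → 1 ≤ q → (u : ℝ) ≤ X → (q : ℝ) ≤ X → (∀ p : ℕ, p.Prime → p ∣ u → p ∣ q) →
  ∀ V : Finset ℤ, V.card ≤ k → (∀ v ∈ V, |(v : ℝ)| ≤ X ^ 2) → Cu u V → AdQ u V → ∀ v₀ ∈ V,
  ∀ F : Fin g → Finset ℤ, (∀ γ, (F γ).Nonempty ∧ (F γ).card ≤ k ∧ (∀ f ∈ F γ, |(f : ℝ)| ≤ X ^ 2) ∧ AdQ q (F γ)) →
  ∀ L : Fin g → ℝ, (∀ γ, 0 ≤ L γ ∧ L γ ≤ X ∧ L γ * VQ ⌊X⌋₊ q (F γ) ≤ ν) → ∀ z : ℝ, X ^ (1 / (T : ℝ)) ≤ z → z ≤ X ^ (1 / (t : ℝ)) →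
  ∀ B H : ℕ, X ^ h ≤ H → (H : ℝ) ≤ X → (∀ n ∈ Ioc B (B + H), |((gm u v₀ n : ℤ) : ℝ)| ≤ X ^ (1 + θ)) →
    c * (H * VQ ⌊X⌋₊ u V) ≤ ((PtsN u q V v₀ R (X ^ (h / 6)) z L F B H).card : ℝ)

/-- **MGN** (theorem `mgn : St_MGN`): the theorem at the natural scale for several classes.

Proof. As `nge` (`Pool/Agent/Q117/AP/Nge.lean` if it is there, statement and proof in `AP/Stm.lean`). `t`, `θ`, `c₀` from `MGEc k R h`; rough means `Ro z`. LOWER BOUND: `MGEc` with `W = 1`, `w = 0` (`u * 1 ≤ X`, `n ≡ 0 [MOD 1]`, no prime divides `1`): at least `c₀ H V₀` numbers, `V₀ = VQ ⌊X⌋₊ u V`, with all the `gm u v n` in `Ro (X ^ (1/t))`, so in `Ro z`. UPPER BOUND: `MGUc` with `2 k + 1` in place of `k`, `T` and `h` (`Ro z` implies `Ro (X ^ (1/T))`).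
MERTENS: (M) for a nonempty set `F` and `q ≤ X`: `VQ ⌊X⌋₊ q F ≤ C (loglog X) / log X`: `oF F p ≥ 1`, so `VQ ≤ ∏_{p ≤ X, p ∤ q} (1 - 1 / p) ≤ (C / log X) ∏_{p ∣ q} (1 - 1 / p)⁻¹`, and the last product is at most `∏_{p ≤ log X} (1 - 1 / p)⁻¹ (1 - 1 / log X) ^ (- #{p ∣ q : p > log X}) ≤ C loglog X * e ^ 2` (`#{..} ≤ log X` since their product is `≤ q ≤ X`; `V1_bounds` in `Y843/HG`). (The same estimate is needed in `nge`.)
EXCEPTIONS for a member `F = F γ` and `|s| ≤ L γ` such that some `f₀ + q s ∉ V`, but all the `gm u (f + q s) n` are rough. (b) some `f + q s ∈ V` (at most `k ^ 2` values of `s`, `q ≥ 1`): the number of the `n` is at most `C H VQ ⌊X⌋₊ u (V ∪ {f₀ + q s}) ≤ C H V₀ VQ ⌊X⌋₊ q {f₀} (∏_v GQ q ⌊X⌋₊ (f₀ + q s - v)) ^ N` (`MGL` with `{f₀}`, `k + 1`; `AdQ q {f₀}` is clear), and the last product is `≤ C (log X) ^ (1/2)` by `MGAc` with `L = 0` (repeated `N` times,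 `β = f₀ + q s - v ≠ 0`, `|β| ≤ 3 X ^ 2 ≤ X ^ 3`; the term `s = 0`): in total `≤ C H V₀ (loglog X) (log X) ^ (- 1/2)` by (M).
(c) `f + q s ∉ V` for all `f ∈ F`: the number of the `n` is at most `C H VQ ⌊X⌋₊ u (V ∪ (F + q s)) ≤ C H V₀ VQ ⌊X⌋₊ q F (∏_{f, v} GQ q ⌊X⌋₊ (q s + (f - v))) ^ N` (`MGL`). `MGAc` (`β = f - v`, each repeated `N` times; their number is at most `k ^ 2 N`: take the maximum of the constants; `L' = ⌊L γ⌋₊`): the sum over the `s` of case (c) is `≤ C H V₀ VQ ⌊X⌋₊ q F (L γ + (log X) ^ (1/2)) ≤ C H V₀ (ν + (loglog X) (log X) ^ (- 1/2))` by the hypothesis on `L γ` and (M).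
SUM over the `g` members: `≤ C'' H V₀ (ν + (loglog X) (log X) ^ (- 1/2))`, `C''` does not depend on `ν`: `ν = c₀ / (4 C'')`, `X` large; `c = c₀ / 2`. (`V₀ ≥ 0`.) -/
def St_MGN : Prop := MGEc → MGUc → St_MGL → MGAc → MGNc

end Pool.Agent.Q117.MG
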