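import Pool.Agent.Q117.MG.Stm

/-!
Project MG (helper117), part 2: the theorems for the rows.

Every `St_X` below is the statement of one job; the doc comment is its complete proof. The file of a job is `Pool/Agent/Q117/MG/<Name>.lean`, the theorem
has the name given in the comment (namespace `Pool.Agent.Q117.MG`). The hypotheses of a statement are the conclusions of other jobs.
-/

set_option autoImplicit false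

namespace Pool.Agent.Q117.MG

open Finset Filter
open Pool.Agent.Q117.LF (Ro oF)
open Pool.Agent.Q117.AP (AdQ VQ)

open Classical in
/-- the multipliers `1 ≤ n ≤ N` with `a₀ + d n` a product of at most `R` primes, all `≥ x`, all the `a + d n`, `a ∈ A`, without prime factors `≤ z`, no `a + d (n + s)`, `a ∈ A`, `0 < |s| ≤ L`, without prime factors `≤ z`, and for `0 < |s| ≤ L'` not all of them (for the same `s`) -/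
noncomputable def Smu (d : ℕ) (A : Finset ℕ) (a₀ R : ℕ) (x z L L' : ℝ) (N : ℕ) : Finset ℕ :=
  (Icc 1 N).filter (fun n : ℕ => (a₀ + d * n).primeFactorsList.length ≤ R ∧ (∀ p : ℕ, p.Prime → p ∣ a₀ + d * n → x ≤ p) ∧
    (∀ a ∈ A, Ro z ((a : ℤ) + d * n)) ∧ (∀ a ∈ A, ∀ s : ℤ, s ≠ 0 → |(s : ℝ)| ≤ L → ¬ Ro z ((a : ℤ) + d * (n + s))) ∧
    ∀ s : ℤ, s ≠ 0 → |(s : ℝ)| ≤ L' → ∃ a ∈ A, ¬ Ro z ((a : ℤ) + d * (n + s)))

/-- the set of the integers `a ∈ A` -/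
def ZA (A : Finset ℕ) : Finset ℤ := A.image (fun a : ℕ => (a : ℤ))

/-- conclusion of SMU -/
def SMUc : Prop := ∀ (k R : ℕ) (β : ℝ), 1 ≤ R → 0 < β → 25 * (1 + β) < 3 * (8 * R - 1) * β → ∃ t : ℕ, 1 ≤ t ∧ ∃ c : ℝ, 0 < c ∧ ∃ ν : ℝ, 0 < ν ∧ ∃ d0 : ℕ, ∀ d : ℕ, d0 ≤ d →
  ∀ A : Finset ℕ, A.card ≤ k → (∀ a ∈ A, 1 ≤ a ∧ a ≤ d ∧ a.Coprime d) → AdQ d (ZA A) → ∀ a₀ ∈ A,
    c * ((d : ℝ) ^ β * VQ ⌊(d : ℝ) ^ (1 + β)⌋₊ d (ZA A)) ≤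
      ((Smu d A a₀ R ((d : ℝ) ^ (β / 7)) ((d : ℝ) ^ (1 / (t : ℝ))) (ν * ((Nat.totient d : ℝ) / d * Real.log d)) (ν / VQ ⌊(d : ℝ) ^ (1 + β)⌋₊ d (ZA A)) ⌊(d : ℝ) ^ β⌋₊).card : ℝ)

/-- **SMU** (theorem `smu : St_SMU`): simultaneous multipliers.

Proof. Choose `h < β / (1 + β)` with `25 < 3 (8 R - 1) h` and `h ≥ (6 / 7) β / (1 + β)`. `MGNc k (k + 1) R h`: `t`, `θ`; `T = ⌈1 + β⌉₊ * t`; `c'`, `ν'`. Apply it at `X = d ^ (1 + β)`, `u = q = d ≤ X`, `V = ZA A` (`Cu`: the `a` are prime to `d`), `z = d ^ (1 / t)` (`X ^ (1 / T) ≤ z ≤ X ^ (1 / t)`), `B = 0`, `H = ⌊d ^ β⌋₊` (`X ^ h ≤ H` for `d` large since `(1 + β) h < β`; `H ≤ X`). `gm d a n = d n + a`. Sizes: `|d n + a₀| ≤ 2 X ≤ X ^ (1 + θ)`.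
FAMILY: `A` is not empty; let `F γ = {e γ}` for `γ < k`, `e : Fin k → ℤ` with image `ZA A` (`|A| ≤ k`; `AdQ d {e γ}`: `r = 1 - e γ`), `L γ = ν (φ(d) / d) log d`: `VQ ⌊X⌋₊ d {e γ} = ∏_{p ≤ X, p ∤ d} (1 - 1 / p) = (d / φ(d)) ∏_{p ≤ X} (1 - 1 / p) ≤ (d / φ(d)) C / log X` (all the primes dividing `d` are `≤ X`; Mertens, `V1_bounds` in `Y843/HG`; `Nat.totient_eq_mul_prod_factors`; `oF {e} p = 1`; the same computation is in `Pool/Agent/Q117/AP/Pat.lean`), so with `ν ≤ ν' / C` the hypothesis `L γ * VQ ≤ ν'` holds; `L γ ≤ X`.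
The last member: `F k = ZA A`, `L k = ν / VQ ⌊X⌋₊ d (ZA A)`, `ν ≤ ν'` (`VQ > 0` by `AdQ`: `oF < p` for `p ∤ d`; `L k ≤ X`: `VQ ≥ c₂ (log X) ^ (- k')` by `VZ_low` (`Q253/Thin/Int.lean`) for the classes `Z p = range (oF A p)` for `p ∤ d`, `∅` otherwise). `H ≥ d ^ β / 2`. `PtsN ⊆ Smu`: `X ^ (h / 6) ≥ d ^ (β / 7)`; for `a ∈ A`, `s ≠ 0`, `|s| ≤ L`: if `Ro z (a + d (n + s))` then `a + d s ∈ ZA A`, impossible since `1 ≤ a ≤ d` and all elements of `A` are in `[1, d]`.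
For `s ≠ 0`, `|s| ≤ L'`: if all the `a + d (n + s)` are rough, then `a₀ + d s ∈ ZA A`, impossible. -/
def St_SMU : Prop := MGNc → SMUc

open Classical in
/-- the `0 < m < N`, `m ≡ a (mod q)`, with `m` a product of at most `R` primes, all `≥ x`, the `m + q e` (`e ∈ E`) and the `N - m + q e` (`e ∈ E'`) without prime factors `≤ z`, the other `m + q s` and `N - m + q s`, `|s| ≤ L`, with a prime factor `≤ z`, and for `|s| ≤ L'` one of `m + q s`, `N - m - q s` with a prime factor `≤ z` unless `s ∈ E` and `- s ∈ E'` -/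
noncomputable def Gmq (N q a : ℕ) (E E' : Finset ℤ) (R : ℕ) (x z L L' : ℝ) : Finset ℕ :=
  (Ioo 0 N).filter (fun m : ℕ => m ≡ a [MOD q] ∧ m.primeFactorsList.length ≤ R ∧ (∀ p : ℕ, p.Prime → p ∣ m → x ≤ p) ∧
    (∀ e ∈ E, Ro z ((m : ℤ) + q * e)) ∧ (∀ e ∈ E', Ro z ((N : ℤ) - m + q * e)) ∧
    (∀ s : ℤ, |(s : ℝ)| ≤ L → s ∉ E → ¬ Ro z ((m : ℤ) + q * s)) ∧ (∀ s : ℤ, |(s : ℝ)| ≤ L → s ∉ E' → ¬ Ro z ((N : ℤ) - m + q * s)) ∧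
    ∀ s : ℤ, |(s : ℝ)| ≤ L' → Ro z ((m : ℤ) + q * s) → Ro z ((N : ℤ) - m - q * s) → s ∈ E ∧ -s ∈ E')

/-- the differences `m + v` of the prescribed numbers: `m + q e` and (up to the sign) `N - m + q e` -/
def VE (N q : ℕ) (E E' : Finset ℤ) : Finset ℤ := E.image (fun e => (q : ℤ) * e) ∪ E'.image (fun e => -(N : ℤ) - q * e)

/-- conclusion of GMQ -/
def GMQc : Prop := ∀ (k R : ℕ) (κ : ℝ), 1 ≤ R → 0 ≤ κ → 25 < 3 * (8 * R - 1) * (1 - κ) → ∃ t : ℕ, 1 ≤ t ∧ ∃ c : ℝ, 0 < c ∧ ∃ ν : ℝ, 0 < ν ∧ ∃ x0 : ℝ, ∀ x : ℝ, x0 ≤ x →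
  ∀ q : ℕ, 1 ≤ q → (q : ℝ) ≤ x ^ κ → ∀ N : ℕ, x / 2 < N → (N : ℝ) ≤ x → ∀ a : ℕ, a.Coprime q → IsCoprime ((N : ℤ) - a) q →
  ∀ E E' : Finset ℤ, E.card ≤ k → E'.card ≤ k → (∀ e ∈ E ∪ E', |(e : ℝ)| ≤ x / (4 * q)) → 0 ∈ E → 0 ∈ E' → AdQ q (VE N q E E') →
    c * (x / q * VQ ⌊x⌋₊ q (VE N q E E')) ≤
      ((Gmq N q a E E' R (x ^ ((1 - κ) / 7)) (x ^ (1 / (t : ℝ))) (ν * ((Nat.totient q : ℝ) / q * Real.log x)) (ν / VQ ⌊x⌋₊ q {0, (N : ℤ)})).card : ℝ)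

/-- **GMQ** (theorem `gmq : St_GMQ`): sums of two almost primes in residue classes to a growing modulus.

Proof. `1 - κ > 0`. Choose `h < 1 - κ` with `25 < 3 (8 R - 1) h`, `h ≥ (6 / 7) (1 - κ)`. `MGNc (2 k) 3 R h`: `t`, `θ`; `T = t`; `c'`, `ν'`. Apply it at `X = x`, `u = q`, `z = x ^ (1 / t)`; let `a' = a % q`, `m = q n + a'`, `B = 0`, `H = N / q - 2` (natural numbers; `H ≥ x / (4 q) ≥ x ^ h` for `x` large, `H ≤ x`); for `0 < n ≤ H`: `0 < m < N`. `V = {a' + v : v ∈ VE N q E E'}`: `gm q (a' + q e) n = m + q e`, `gm q (a' - N - q e) n = m - N - q e = - (N - m + q e)`, and `Ro z` does not depend on the sign. `|V| ≤ 2 k`, `|v| ≤ 3 x ≤ X ^ 2`. `Cu q V`: `a` and `N - a` are prime to `q`. `AdQ q V`: shift `r` by `a'`. `v₀ = a'` (`0 ∈ E`); sizes: `0 < m < N ≤ x`.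
FAMILY of three sets: `F 0 = {a'}`, `L 0 = L = ν (φ(q) / q) log x` (shift `s`: the value `m + q s`; rough implies `a' + q s ∈ V`); `F 1 = {a' - N}`, `L 1 = L` (shift `- s`: the value `- (N - m + q s)`); `F 2 = {a', a' - N}`, `L 2 = L' = ν / VQ ⌊x⌋₊ q {0, N}` (shift `s`: the values `m + q s` and `- (N - m - q s)`). `L * VQ ⌊x⌋₊ q {f} ≤ ν'` as in SMU (Mertens, `ν ≤ ν' / C`); `VQ ⌊x⌋₊ q {a', a' - N} = VQ ⌊x⌋₊ q {0, N}` (`oF {a', a' - N} p` is `1` if `p ∣ N` and `2` otherwise, like `oF {0, N} p`), `ν ≤ ν'`; `AdQ q {a', a' - N}` follows from `AdQ q (VE ..)` (`0 ∈ E`, `0 ∈ E'`). `L' ≤ X`: `VQ ≥ c₂ (log x) ^ (- k')` as in SMU. `|f| ≤ X ^ 2`.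
FROM `V` TO `E`, `E'`: `L` and `L'` are at most `x / (8 q)` for `x` large (powers of `log x` against `x ^ (1 - κ) / 8`). Let `|s| ≤ x / (8 q)`. If `a' + q s ∈ V`: either `q s = q e` with `e ∈ E`, so `s ∈ E`; or `q s = - N - q e` with `e ∈ E'`, `N = - q (s + e)`, impossible since `q |s + e| ≤ 3 x / 8 < x / 2 < N`. If `a' - N - q s ∈ V`: either `- N - q s = q e`, impossible in the same way, or `s = e ∈ E'`. For `F 2`: `a' + q s ∈ V` and `a' - N + q s ∈ V` give `s ∈ E` and `- s ∈ E'`. -/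
def St_GMQ : Prop := MGNc → GMQc

open Classical in
/-- the `m ≡ r (mod q)` of `(x, x + y]` with `m + δ₀` a product of at most `R` primes, all `≥ w`, the `m + δ`, `δ ∈ D`, without prime factors `≤ z`, the other `m + δ + q s`, `δ ∈ D`, `|s| ≤ L`, with a prime factor `≤ z`, and for `0 < |s| ≤ L'` one of the `m + δ + q s`, `δ ∈ D`, with a prime factor `≤ z` -/
noncomputable def Prm (q r : ℕ) (D : Finset ℕ) (δ₀ R : ℕ) (w z L L' x y : ℝ) : Finset ℕ :=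
  (Icc 1 ⌊x + y⌋₊).filter (fun m : ℕ => x < m ∧ m ≡ r [MOD q] ∧ (m + δ₀).primeFactorsList.length ≤ R ∧ (∀ p : ℕ, p.Prime → p ∣ m + δ₀ → w ≤ p) ∧
    (∀ δ ∈ D, Ro z ((m : ℤ) + δ)) ∧ (∀ δ ∈ D, ∀ s : ℤ, |(s : ℝ)| ≤ L → Ro z ((m : ℤ) + δ + q * s) → ∃ ε ∈ D, (ε : ℤ) = δ + q * s) ∧
    ∀ s : ℤ, s ≠ 0 → |(s : ℝ)| ≤ L' → ∃ δ ∈ D, ¬ Ro z ((m : ℤ) + δ + q * s))

/-- conclusion of PRM -/
def PRMc : Prop := ∀ (k R : ℕ) (η κ : ℝ), 1 ≤ R → 0 ≤ κ → η ≤ 1 → 25 < 3 * (8 * R - 1) * (η - κ) → ∃ t : ℕ, 1 ≤ t ∧ ∃ c : ℝ, 0 < c ∧ ∃ ν : ℝ, 0 < ν ∧ ∃ x0 : ℝ, ∀ x : ℝ, x0 ≤ x →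
  ∀ q : ℕ, 1 ≤ q → (q : ℝ) ≤ x ^ κ → ∀ D : Finset ℕ, D.card ≤ k → (∀ δ ∈ D, (δ : ℝ) ≤ x) → AdQ q (ZA D) → ∀ r : ℕ, (∀ δ ∈ D, (r + δ).Coprime q) → ∀ δ₀ ∈ D,
    c * (x ^ η / q * VQ ⌊x⌋₊ q (ZA D)) ≤
      ((Prm q r D δ₀ R (x ^ ((η - κ) / 7)) (x ^ (1 / (t : ℝ))) (ν * ((Nat.totient q : ℝ) / q * Real.log x)) (ν / VQ ⌊x⌋₊ q (ZA D)) x (x ^ η)).card : ℝ)

/-- **PRM** (theorem `prm : St_PRM`): tuples with all differences, in every class to a growing modulus, in every short interval.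

Proof. `η - κ > 0`. Choose `h < η - κ` with `25 < 3 (8 R - 1) h`, `h ≥ (6 / 7) (η - κ)`. `MGNc k (k + 1) R h`: `t`, `θ`; `T = t`; `c'`, `ν'`. Apply it at `X = x`, `u = q`, `z = x ^ (1 / t)`; `r' = r % q`, `m = q n + r'`, `B = ⌊x⌋₊ / q + 1`, `H = ⌊x ^ η⌋₊ / q - 3` (natural numbers): for `n ∈ (B, B + H]` we have `x < q n + r' ≤ x + x ^ η`; `H ≥ x ^ η / (2 q) ≥ x ^ h` for `x` large, `H ≤ x`. `V = {r' + δ : δ ∈ D}`, `gm q (r' + δ) n = m + δ`; `|v| ≤ 2 x ≤ X ^ 2`; `Cu q V`: the `r' + δ` are prime to `q`. `AdQ q V`: shift `r` by `r'`. `VQ ⌊x⌋₊ q V = VQ ⌊x⌋₊ q (ZA D)` (`oF` does not change under a shift). Sizes: `|m + δ₀| ≤ 3 x ≤ x ^ (1 + θ)`.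
FAMILY: `F γ = {r' + δ γ}` for `γ < k`, `δ γ` runs through `D` (not empty), `L γ = ν (φ(q) / q) log x` (`L γ * VQ ⌊x⌋₊ q {v} ≤ ν'` by Mertens as in SMU); `F k = V`, `L k = ν / VQ ⌊x⌋₊ q (ZA D)` (`≤ X` as in SMU). For a shift `s` of `F γ`: `r' + δ + q s ∈ V`, so `δ + q s = ε` with `ε ∈ D`. For the last member and `s ≠ 0`: `V + q s ⊆ V` is impossible for a finite nonempty set `V` (`q ≥ 1`; take the largest or the smallest element), so not all the `m + δ + q s` are rough. -/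
def St_PRM : Prop := MGNc → PRMc

end Pool.Agent.Q117.MG
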